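import Pool.Agent.H665Z.LurQuad

set_option autoImplicit false
open Set Filter Topology

namespace Pool.Agent.H665Z.Lur

section Desc
variable {K : Type*} [TopologicalSpace K] [CompactSpace K]

/-- shifted supremum of `f` on `L` -/
noncomputable def val (L : Set K) (f : C(K, ℝ)) : ℝ := ⨆ x : L, (f x + ‖f‖)

lemma shift_nonneg (f : C(K, ℝ)) (x : K) : 0 ≤ f x + ‖f‖ := by
  have := f.norm_coe_le_norm x
  have := neg_abs_le (f x)
  rw [Real.norm_eq_abs] at *
  linarith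

lemma shift_le (f : C(K, ℝ)) (x : K) : f x + ‖f‖ ≤ 2 * ‖f‖ := by
  have := f.norm_coe_le_norm x
  have := le_abs_self (f x)
  rw [Real.norm_eq_abs] at *
  linarith

lemma le_val {L : Set K} (f : C(K, ℝ)) {x : K} (hx : x ∈ L) : f x + ‖f‖ ≤ val L f :=
  le_ciSup (f := fun x : L => f x + ‖f‖)
    ⟨2 * ‖f‖, by rintro _ ⟨y, rfl⟩; exact shift_le f y⟩ ⟨x, hx⟩

lemma val_le {L : Set K} (f : C(K, ℝ)) {c : ℝ} (hc : 0 ≤ c) (h : ∀ x ∈ L, f x + ‖f‖ ≤ c) :
    val L f ≤ c :=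
  Real.iSup_le (fun x => h x x.2) hc

lemma val_nonneg (L : Set K) (f : C(K, ℝ)) : 0 ≤ val L f :=
  Real.iSup_nonneg fun x => shift_nonneg f x

lemma val_subL (L : Set K) : SubL 2 (val L) := by
  refine ⟨fun f g => ?_, val_nonneg L, fun t f ht => ?_, fun f => ?_⟩
  · refine val_le _ (add_nonneg (val_nonneg L f) (val_nonneg L g)) fun x hx => ?_
    have := le_val f hx
    have := le_val g hx
    have := norm_add_le f g
    simp only [ContinuousMap.add_apply]
    linarith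
  · refine val_le _ (mul_nonneg ht (val_nonneg L f)) fun x hx => ?_
    have := mul_le_mul_of_nonneg_left (le_val f hx) ht
    rw [norm_smul, Real.norm_of_nonneg ht]
    simp only [ContinuousMap.smul_apply, smul_eq_mul]
    linarith
  · exact val_le _ (by positivity) fun x _ => shift_le f x

/-- the boundary set of the family `F n` -/
def JJ (F : ℕ → Set (Set K)) (n : ℕ) : Set K :=
  ⋂ N ∈ F n, closure (⋃ M ∈ {M | M ∈ F n ∧ M ≠ N}, M)

lemma isClosed_JJ (F : ℕ → Set (Set K)) (n : ℕ) : IsClosed (JJ F n) :=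
  isClosed_biInter fun _ _ => isClosed_closure

/-- finite intersection of boundary sets -/
def DD (F : ℕ → Set (Set K)) (S : Finset ℕ) : Set K := ⋂ j ∈ S, JJ F j

lemma isClosed_DD (F : ℕ → Set (Set K)) (S : Finset ℕ) : IsClosed (DD F S) :=
  isClosed_biInter fun j _ => isClosed_JJ F j

/-- one rigid selection step -/
noncomputable def Sel (F : ℕ → Set (Set K)) (s : ℝ) (a : Finset ℕ × ℕ × ℕ × ℕ) (L : Set K)
    (k : Set K → C(K, ℝ) → ℝ) (f : C(K, ℝ)) : ℝ :=
  ⨆ 𝓜 : {𝓜 : Finset (Set K) // (∀ M ∈ 𝓜, M ∈ F a.2.1) ∧ 𝓜.card = a.2.2.1},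
    ((∑ M ∈ 𝓜.1, val (L ∩ DD F a.1 ∩ closure M) (s • f)) ^ 2 +
      (1 / ((a.2.2.2 : ℝ) + 1)) * ∑ M ∈ 𝓜.1, k M f)

lemma sel_term_nice (F : ℕ → Set (Set K)) {s : ℝ} (hs : |s| ≤ 1) (a : Finset ℕ × ℕ × ℕ × ℕ)
    (L : Set K) {k : Set K → C(K, ℝ) → ℝ} {C : ℝ} (hC : 0 ≤ C) (hk : ∀ M, Nice C (k M))
    (𝓜 : {𝓜 : Finset (Set K) // (∀ M ∈ 𝓜, M ∈ F a.2.1) ∧ 𝓜.card = a.2.2.1}) :
    Nice ((a.2.2.1 * 2) ^ 2 + a.2.2.1 * C) (fun f : C(K, ℝ) =>
      (∑ M ∈ 𝓜.1, val (L ∩ DD F a.1 ∩ closure M) (s • f)) ^ 2 +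
      (1 / ((a.2.2.2 : ℝ) + 1)) * ∑ M ∈ 𝓜.1, k M f) := by
  have h1 := (SubL.sum 𝓜.1 (fun M =>
    (val_subL (L ∩ DD F a.1 ∩ closure M)).smul (by norm_num) hs)).sq
  have h2 := (Nice.sum 𝓜.1 hk).cmul (show 0 ≤ 1 / ((a.2.2.2 : ℝ) + 1) by positivity)
  rw [𝓜.2.2] at h1 h2
  refine (h1.add h2).mono ?_
  have : 1 / ((a.2.2.2 : ℝ) + 1) ≤ 1 := by
    rw [div_le_one (by positivity)]
    have : (0 : ℝ) ≤ a.2.2.2 := by positivity
    linarith
  have h3 : 0 ≤ (a.2.2.1 : ℝ) * C := by positivity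
  nlinarith

lemma sel_nice (F : ℕ → Set (Set K)) {s : ℝ} (hs : |s| ≤ 1) (a : Finset ℕ × ℕ × ℕ × ℕ)
    (L : Set K) {k : Set K → C(K, ℝ) → ℝ} {C : ℝ} (hC : 0 ≤ C) (hk : ∀ M, Nice C (k M)) :
    Nice ((a.2.2.1 * 2) ^ 2 + a.2.2.1 * C) (Sel F s a L k) :=
  Nice.iSup (by positivity) (sel_term_nice F hs a L hC hk)

/-- the topological core: a finite intersection of boundary sets cuts a compact set `H` down to
a piece missing the boundary set of a family with a small member meeting that piece -/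
lemma exists_type (F : ℕ → Set (Set K)) (hiso : ∀ n, ∀ N ∈ F n, ∀ x ∈ N, x ∉ JJ F n)
    (hnet : ∀ (x : K) (U : Set K), IsOpen U → x ∈ U → ∃ n, ∃ N ∈ F n, x ∈ N ∧ N ⊆ U)
    {H V : Set K} (hH : IsClosed H) (hne : H.Nonempty) (hV : IsOpen V) (hHV : H ⊆ V) :
    ∃ (S : Finset ℕ) (n : ℕ), ∃ N ∈ F n, N ⊆ V ∧ (H ∩ DD F S ∩ N).Nonempty ∧
      H ∩ DD F S ∩ JJ F n = ∅ := by
  classical
  let S : ℕ → Finset ℕ := fun n => Nat.rec ∅
    (fun n T => if (H ∩ DD F T ∩ JJ F n).Nonempty then insert n T else T) n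
  have hS : ∀ n, S (n + 1) =
      if (H ∩ DD F (S n) ∩ JJ F n).Nonempty then insert n (S n) else S n := fun n => rfl
  have hins : ∀ (T : Finset ℕ) (n : ℕ), DD F (insert n T) = DD F T ∩ JJ F n := by
    intro T n
    simp only [DD, Finset.set_biInter_insert, inter_comm]
  have hmono : ∀ n, H ∩ DD F (S (n + 1)) ⊆ H ∩ DD F (S n) := by
    intro n
    rw [hS]
    split_ifs
    · rw [hins]; exact fun x hx => ⟨hx.1, hx.2.1⟩
    · exact Subset.rfl
  have hnon : ∀ n, (H ∩ DD F (S n)).Nonempty := by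
    intro n
    induction n with
    | zero =>
      have : DD F (S 0) = univ := by simp [S, DD]
      rw [this, inter_univ]; exact hne
    | succ n ih =>
      rw [hS]
      split_ifs with h
      · rw [hins, ← inter_assoc]; exact h
      · exact ih
  obtain ⟨x, hx⟩ := IsCompact.nonempty_iInter_of_sequence_nonempty_isCompact_isClosed
    (fun n => H ∩ DD F (S n)) hmono hnon (hH.inter (isClosed_DD F _)).isCompact
    (fun n => hH.inter (isClosed_DD F _))
  rw [mem_iInter] at hx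
  obtain ⟨n, N, hN, hxN, hNV⟩ := hnet x V hV (hHV (hx 0).1)
  refine ⟨S n, n, N, hN, hNV, ⟨x, hx n, hxN⟩, ?_⟩
  by_contra hcon
  have hcon' : (H ∩ DD F (S n) ∩ JJ F n).Nonempty := nonempty_iff_ne_empty.2 hcon
  have := hx (n + 1)
  rw [hS, if_pos hcon', hins] at this
  exact hiso n N hN x hxN this.2.2

lemma finite_meet (F : ℕ → Set (Set K)) (n : ℕ) {H : Set K} (hH : IsClosed H)
    (hJ : H ∩ JJ F n = ∅) :
    {M | M ∈ F n ∧ (H ∩ closure M).Nonempty}.Finite ∧
      H ∩ closure (⋃ M ∈ {M | M ∈ F n ∧ ¬ (H ∩ closure M).Nonempty}, M) = ∅ := by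
  have hO : ∀ y ∈ H, ∃ N ∈ F n, y ∉ closure (⋃ M ∈ {M | M ∈ F n ∧ M ≠ N}, M) := by
    intro y hy
    by_contra hcon
    push Not at hcon
    have : y ∈ H ∩ JJ F n := ⟨hy, mem_iInter₂.2 hcon⟩
    rw [hJ] at this
    exact this
  constructor
  · obtain ⟨t, ht⟩ := hH.isCompact.elim_finite_subcover
      (fun N : F n => (closure (⋃ M ∈ {M | M ∈ F n ∧ M ≠ N.1}, M))ᶜ)
      (fun N => isClosed_closure.isOpen_compl) (fun y hy => by
        obtain ⟨N, hN, h⟩ := hO y hy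
        exact mem_iUnion.2 ⟨⟨N, hN⟩, h⟩)
    refine (t.finite_toSet.image Subtype.val).subset ?_
    rintro M ⟨hM, y, hy, hyM⟩
    obtain ⟨N, hNt, hyN⟩ := mem_iUnion₂.1 (ht hy)
    by_cases h : M = N.1
    · exact ⟨N, hNt, h.symm⟩
    · exact absurd (closure_mono (subset_biUnion_of_mem (u := fun M => M)
        (show M ∈ {M | M ∈ F n ∧ M ≠ N.1} from ⟨hM, h⟩)) hyM) hyN
  · rw [eq_empty_iff_forall_notMem]
    rintro y ⟨hy, hyR⟩
    obtain ⟨N, hN, h⟩ := hO y hy
    have hsub : (⋃ M ∈ {M | M ∈ F n ∧ ¬ (H ∩ closure M).Nonempty}, M) ⊆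
        (⋃ M ∈ {M | M ∈ F n ∧ M ≠ N}, M) ∪
          (⋃ M ∈ {M | M = N ∧ ¬ (H ∩ closure M).Nonempty}, M) := by
      intro z hz
      obtain ⟨M, ⟨hM, hM'⟩, hzM⟩ := mem_iUnion₂.1 hz
      by_cases e : M = N
      · exact Or.inr (mem_iUnion₂.2 ⟨M, ⟨e, hM'⟩, hzM⟩)
      · exact Or.inl (mem_iUnion₂.2 ⟨M, ⟨hM, e⟩, hzM⟩)
    have := closure_mono hsub hyR
    rw [closure_union] at this
    rcases this with h1 | h1
    · exact h h1
    · by_cases e : (H ∩ closure N).Nonempty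
      · have : (⋃ M ∈ {M | M = N ∧ ¬ (H ∩ closure M).Nonempty}, M) = ∅ := by
          rw [eq_empty_iff_forall_notMem]
          intro z hz
          obtain ⟨M, ⟨rfl, hM'⟩, _⟩ := mem_iUnion₂.1 hz
          exact hM' e
        rw [this, closure_empty] at h1
        exact h1
      · refine e ⟨y, hy, closure_mono ?_ h1⟩
        intro z hz
        obtain ⟨M, ⟨rfl, _⟩, hzM⟩ := mem_iUnion₂.1 hz
        exact hzM

lemma sum_gap {α : Type*} (A B : Finset α) (hcard : A.card = B.card) (hne : A ≠ B) (v : α → ℝ)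
    {a b : ℝ} (hab : b ≤ a) (hB : ∀ x ∈ B, a ≤ v x) (hA : ∀ x ∈ A, x ∉ B → v x ≤ b) :
    ∑ x ∈ A, v x + (a - b) ≤ ∑ x ∈ B, v x := by
  classical
  have hc : (A \ B).card = (B \ A).card := Finset.card_sdiff_comm hcard
  have hpos : 1 ≤ (A \ B).card := by
    rw [Nat.one_le_iff_ne_zero]
    intro h0
    rw [Finset.card_eq_zero, Finset.sdiff_eq_empty_iff_subset] at h0
    exact hne (Finset.eq_of_subset_of_card_le h0 hcard.ge)
  have e1 : ∑ x ∈ A, v x = ∑ x ∈ A \ B, v x + ∑ x ∈ A ∩ B, v x := by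
    rw [← Finset.sum_sdiff (Finset.inter_subset_left (s₁ := A) (s₂ := B)), Finset.sdiff_inter_self_left]
  have e2 : ∑ x ∈ B, v x = ∑ x ∈ B \ A, v x + ∑ x ∈ A ∩ B, v x := by
    rw [← Finset.sum_sdiff (Finset.inter_subset_right (s₁ := A) (s₂ := B)), Finset.inter_comm,
      Finset.sdiff_inter_self_left]
  have h1 : ∑ x ∈ A \ B, v x ≤ (A \ B).card * b := by
    have := Finset.sum_le_card_nsmul (A \ B) v b (fun x hx =>
      hA x (Finset.mem_sdiff.1 hx).1 (Finset.mem_sdiff.1 hx).2)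
    simpa using this
  have h2 : ((B \ A).card : ℝ) * a ≤ ∑ x ∈ B \ A, v x := by
    have := Finset.card_nsmul_le_sum (B \ A) v a (fun x hx => hB x (Finset.mem_sdiff.1 hx).1)
    simpa using this
  rw [← hc] at h2
  have h3 : (1 : ℝ) ≤ (A \ B).card := by exact_mod_cast hpos
  nlinarith

/-- the selection lemma -/
lemma select (F : ℕ → Set (Set K)) (hiso : ∀ n, ∀ N ∈ F n, ∀ x ∈ N, x ∉ JJ F n)
    (hnet : ∀ (x : K) (U : Set K), IsOpen U → x ∈ U → ∃ n, ∃ N ∈ F n, x ∈ N ∧ N ⊆ U)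
    {s : ℝ} (hs : |s| ≤ 1) (f : C(K, ℝ)) {L : Set K} (hL : IsClosed L) {x0 : K} (hx0 : x0 ∈ L)
    (hmax : ∀ y ∈ L, (s • f) y ≤ (s • f) x0) (hpos : 0 < (s • f) x0 + ‖s • f‖)
    {η : ℝ} (hη : 0 < η) :
    ∃ (S : Finset ℕ) (n m : ℕ) (N U : Set K), IsOpen U ∧ L ⊆ U ∧ (L ∩ closure N).Nonempty ∧
      (∀ y ∈ closure N, (s • f) x0 - η < (s • f) y) ∧
      ∀ C : ℝ, 0 ≤ C → ∃ p : ℕ, ∀ L' : Set K, L ⊆ L' → L' ⊆ U →
        ∀ k : Set K → C(K, ℝ) → ℝ, (∀ M, Nice C (k M)) → ∀ u : ℕ → C(K, ℝ),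
          Tendsto (fun r => Dl (Sel F s (S, n, m, p) L' k) f (u r)) atTop (𝓝 0) →
          Tendsto (fun r => Dl (k N) f (u r)) atTop (𝓝 0) := by
  classical
  set g : C(K, ℝ) := s • f with hg
  set a : ℝ := g x0 with ha
  set H : Set K := L ∩ {y | g y = a} with hHdef
  have hH : IsClosed H := hL.inter (isClosed_eq g.continuous continuous_const)
  obtain ⟨S, n, N, hN, hNV, hNne, hJ⟩ := exists_type F hiso hnet (V := {y | a - η / 2 < g y}) hH
    ⟨x0, hx0, rfl⟩ (isOpen_lt continuous_const g.continuous)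
    (fun y hy => by have : g y = a := hy.2; simp only [mem_ofPred_eq]; linarith)
  set H' : Set K := H ∩ DD F S with hH'def
  have hH' : IsClosed H' := hH.inter (isClosed_DD F S)
  obtain ⟨hfin, hR⟩ := finite_meet F n hH' hJ
  set R : Set K := closure (⋃ M ∈ {M | M ∈ F n ∧ ¬ (H' ∩ closure M).Nonempty}, M) with hRdef
  set B : Finset (Set K) := hfin.toFinset with hB
  have hmemB : ∀ M, M ∈ B ↔ M ∈ F n ∧ (H' ∩ closure M).Nonempty := fun M => by
    simp [hB]
  have hNB : N ∈ B := (hmemB N).2 ⟨hN, hNne.mono (inter_subset_inter_right _ subset_closure)⟩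
  -- a level `b < a` with `g < b` on `L ∩ D ∩ R`
  obtain ⟨b, hba, hb0, hb⟩ : ∃ b, b < a ∧ 0 ≤ b + ‖g‖ ∧ ∀ y ∈ L ∩ DD F S ∩ R, g y < b := by
    by_cases hne : (L ∩ DD F S ∩ R).Nonempty
    · obtain ⟨z, hz, hzmax⟩ := ((hL.inter (isClosed_DD F S)).inter
        isClosed_closure).isCompact.exists_isMaxOn hne g.continuous.continuousOn
      have hza : g z < a := by
        refine lt_of_le_of_ne (hmax z hz.1.1) fun e => ?_
        have : z ∈ H' ∩ R := ⟨⟨⟨hz.1.1, e⟩, hz.1.2⟩, hz.2⟩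
        rw [hR] at this
        exact this
      refine ⟨(g z + a) / 2, by linarith, ?_, fun y hy => ?_⟩
      · have := shift_nonneg g z; linarith
      · have : g y ≤ g z := hzmax hy
        linarith
    · refine ⟨-‖g‖, by linarith, by linarith, fun y hy => absurd ⟨y, hy⟩ hne⟩
  refine ⟨S, n, B.card, N, {y | g y < b} ∪ (DD F S ∩ R)ᶜ,
    (isOpen_lt g.continuous continuous_const).union
      ((isClosed_DD F S).inter isClosed_closure).isOpen_compl, fun y hy => ?_, ?_, ?_, ?_⟩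
  · by_cases h : y ∈ DD F S ∩ R
    · exact Or.inl (hb y ⟨⟨hy, h.1⟩, h.2⟩)
    · exact Or.inr h
  · obtain ⟨y, hy, hyN⟩ := hNne
    exact ⟨y, hy.1.1, subset_closure hyN⟩
  · intro y hy
    have : y ∈ {y | a - η / 2 ≤ g y} :=
      closure_minimal (fun z hz => le_of_lt (hNV hz))
        (isClosed_le continuous_const g.continuous) hy
    simp only [mem_ofPred_eq] at this
    linarith
  · intro C hC
    obtain ⟨p, hp⟩ := exists_nat_ge (2 * (B.card * C * ‖f‖ ^ 2) / (a - b) ^ 2)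
    refine ⟨p, fun L' hLL' hL'U k hk u hu => ?_⟩
    let i0 : {𝓜 : Finset (Set K) // (∀ M ∈ 𝓜, M ∈ F n) ∧ 𝓜.card = B.card} :=
      ⟨B, fun M hM => ((hmemB M).1 hM).1, rfl⟩
    have hgap0 : 0 < a - b := by linarith
    have hr := rigid (sel_term_nice F hs (S, n, B.card, p) L' hC hk) f u i0
      (δ := (a - b) ^ 2 / 2) (by positivity) ?_ hu
    · have h1 := (SubL.sum B (fun M =>
        (val_subL (L' ∩ DD F S ∩ closure M)).smul (by norm_num) hs)).sq
      have h2 := (Nice.sum B hk).cmul (show 0 ≤ 1 / ((p : ℝ) + 1) by positivity)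
      have h3 := tendsto_right h1 h2 f u hr
      refine tendsto_of_le (hk N) f u (c := 1 / ((p : ℝ) + 1)) (by positivity) (fun y => ?_) h3
      rw [Dl_cmul, Dl_sum]
      refine mul_le_mul_of_nonneg_left ?_ (by positivity)
      exact Finset.single_le_sum (f := fun M => Dl (k M) f y)
        (fun M _ => (hk M).Dl_nonneg f y) hNB
    · intro i hi
      have hne : i.1 ≠ B := fun e => hi (Subtype.ext e)
      have hs1 := sum_gap i.1 B i.2.2 hne (fun M => val (L' ∩ DD F S ∩ closure M) g)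
        (a := a + ‖g‖) (b := b + ‖g‖) (by linarith)
        (fun M hM => by
          obtain ⟨y, hy, hyM⟩ := ((hmemB M).1 hM).2
          have := le_val (L := L' ∩ DD F S ∩ closure M) g ⟨⟨hLL' hy.1.1, hy.2⟩, hyM⟩
          have e : g y = a := hy.1.2
          linarith)
        (fun M hM hMB => by
          refine val_le g hb0 fun y hy => ?_
          have hyR : y ∈ R := closure_mono (subset_biUnion_of_mem (u := fun M => M)
            (show M ∈ {M | M ∈ F n ∧ ¬ (H' ∩ closure M).Nonempty} from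
              ⟨i.2.1 M hM, fun h => hMB ((hmemB M).2 ⟨i.2.1 M hM, h⟩)⟩)) hy.2
          rcases hL'U hy.1.1 with h | h
          · have : g y < b := h
            linarith
          · exact absurd ⟨hy.1.2, hyR⟩ h)
      have hA0 : 0 ≤ ∑ M ∈ i.1, val (L' ∩ DD F S ∩ closure M) g :=
        Finset.sum_nonneg fun M _ => val_nonneg _ _
      have hk1 : ∑ M ∈ i.1, k M f ≤ B.card * C * ‖f‖ ^ 2 := by
        have := (Nice.sum i.1 hk).bound f
        rw [i.2.2] at this
        exact this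
      have hk0 : 0 ≤ ∑ M ∈ B, k M f := Finset.sum_nonneg fun M _ => (hk M).nonneg f
      have hk2 : 1 / ((p : ℝ) + 1) * ∑ M ∈ i.1, k M f ≤ (a - b) ^ 2 / 2 := by
        rw [div_le_iff₀ (by positivity)] at hp
        rw [one_div, inv_mul_le_iff₀ (by positivity)]
        have : 0 < (a - b) ^ 2 := by positivity
        nlinarith
      have hk3 : 0 ≤ 1 / ((p : ℝ) + 1) * ∑ M ∈ B, k M f := by positivity
      show (∑ M ∈ i.1, val (L' ∩ DD F S ∩ closure M) g) ^ 2 +
          1 / ((p : ℝ) + 1) * ∑ M ∈ i.1, k M f + (a - b) ^ 2 / 2 ≤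
        (∑ M ∈ B, val (L' ∩ DD F S ∩ closure M) g) ^ 2 + 1 / ((p : ℝ) + 1) * ∑ M ∈ B, k M f
      set X := ∑ M ∈ i.1, val (L' ∩ DD F S ∩ closure M) g
      set Y := ∑ M ∈ B, val (L' ∩ DD F S ∩ closure M) g
      have hXY : X + (a - b) ≤ Y := by linarith
      have : (X + (a - b)) ^ 2 ≤ Y ^ 2 := pow_le_pow_left₀ (by linarith) hXY 2
      nlinarith

/-- finite programs of cuts -/
inductive Prog : Type
  | leaf : Prog
  | cut : (Finset ℕ × ℕ × ℕ × ℕ) → (Finset ℕ × ℕ × ℕ × ℕ) → Prog → Prog → Prog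

/-- a code of a program -/
def Prog.code : Prog → ℕ
  | .leaf => 0
  | .cut a b s t => Nat.pair (Nat.pair (Encodable.encode a) (Encodable.encode b))
      (Nat.pair s.code t.code) + 1

lemma Prog.code_inj : Function.Injective Prog.code := by
  intro s
  induction s with
  | leaf => intro t h; cases t with
    | leaf => rfl
    | cut a b s t => simp [Prog.code] at h
  | cut a b s t ihs iht => intro t' h; cases t' with
    | leaf => simp [Prog.code] at h
    | cut a' b' s' t' =>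
      simp only [Prog.code, add_left_inj, Nat.pair_eq_pair, Encodable.encode_inj] at h
      obtain ⟨⟨rfl, rfl⟩, h1, h2⟩ := h
      rw [ihs h1, iht h2]

instance : Countable Prog := Prog.code_inj.countable

variable [T2Space K]

lemma exists_cut (A B : Set K) : ∃ XY : Set K × Set K, IsClosed XY.1 ∧ IsClosed XY.2 ∧
    (Disjoint (closure A) (closure B) →
      XY.1 ∪ XY.2 = univ ∧ Disjoint XY.1 (closure B) ∧ Disjoint XY.2 (closure A)) := by
  by_cases h : Disjoint (closure A) (closure B)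
  · obtain ⟨U, V, hU, hV, hAU, hBV, hUV⟩ := normal_separation isClosed_closure isClosed_closure h
    refine ⟨(Vᶜ, Uᶜ), hV.isClosed_compl, hU.isClosed_compl, fun _ => ⟨?_, ?_, ?_⟩⟩
    · rw [← compl_inter, inter_comm, hUV.inter_eq, compl_empty]
    · exact disjoint_compl_left_iff_subset.2 hBV
    · exact disjoint_compl_left_iff_subset.2 hAU
  · exact ⟨(univ, univ), isClosed_univ, isClosed_univ, fun h' => absurd h' h⟩

/-- the function attached to a program and a closed set -/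
noncomputable def nu (F : ℕ → Set (Set K)) : Prog → Set K → C(K, ℝ) → ℝ
  | .leaf, L => fun f => val L f ^ 2 + val L (-f) ^ 2 + ‖f‖ ^ 2
  | .cut a b s t, L => Sel F 1 a L fun M => Sel F (-1) b L fun M' g =>
      nu F s (L ∩ (exists_cut M M').choose.1) g + nu F t (L ∩ (exists_cut M M').choose.2) g

lemma nu_nice (F : ℕ → Set (Set K)) (T : Prog) : ∃ C, 0 ≤ C ∧ ∀ L, Nice C (nu F T L) := by
  induction T with
  | leaf =>
    exact ⟨_, by norm_num, fun L =>
      ((val_subL L).sq.add (val_subL L).sq.neg).add SubL.norm.sq⟩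
  | cut a b s t ihs iht =>
    obtain ⟨C1, h1, ihs⟩ := ihs
    obtain ⟨C2, h2, iht⟩ := iht
    refine ⟨_, ?_, fun L => sel_nice F (by norm_num) a L ?_ fun M =>
      sel_nice F (by norm_num) b L (add_nonneg h1 h2) fun M' => (ihs _).add (iht _)⟩
    · positivity
    · positivity

/-- a closed set is good when one program controls all slightly larger closed sets -/
def Good (F : ℕ → Set (Set K)) (f : C(K, ℝ)) (ε : ℝ) (L : Set K) : Prop :=
  ∃ (T : Prog) (U : Set K), IsOpen U ∧ L ⊆ U ∧ ∀ L' : Set K, IsClosed L' → L ⊆ L' → L' ⊆ U →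
    ∀ u : ℕ → C(K, ℝ), Tendsto (fun r => Dl (nu F T L') f (u r)) atTop (𝓝 0) →
      ∀ᶠ r in atTop, ∀ x ∈ L', |u r x - f x| ≤ 4 * ε

lemma good_of_small (F : ℕ → Set (Set K)) (f : C(K, ℝ)) {ε : ℝ} (hε : 0 < ε) {L : Set K}
    (h : ∀ x ∈ L, ∀ y ∈ L, f x - f y < ε) : Good F f ε L := by
  rcases L.eq_empty_or_nonempty with rfl | ⟨x0, hx0⟩
  · exact ⟨.leaf, ∅, isOpen_empty, Subset.rfl, fun L' _ _ h' u _ =>
      Eventually.of_forall fun r x hx => absurd (h' hx) (notMem_empty x)⟩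
  refine ⟨.leaf, {y | |f y - f x0| < ε},
    isOpen_lt ((f.continuous.sub continuous_const).abs) continuous_const, fun y hy => ?_,
    fun L' _ _ hU u hu => ?_⟩
  · have := h y hy x0 hx0
    have := h x0 hx0 y hy
    simp only [mem_ofPred_eq, abs_lt]
    constructor <;> linarith
  · have n1 := (val_subL L').sq
    have n2 := (val_subL L').sq.neg
    have n3 : Nice (1 ^ 2) (fun x : C(K, ℝ) => ‖x‖ ^ 2) := SubL.norm.sq
    have t12 := tendsto_left (n1.add n2) n3 f u hu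
    have t3 := tendsto_right (n1.add n2) n3 f u hu
    have t1 := tendsto_left n1 n2 f u t12
    have t2 := tendsto_right n1 n2 f u t12
    have s2 : SubL 2 (fun x : C(K, ℝ) => val L' (-x)) := by
      simpa using (val_subL L').smul (s := -1) (by norm_num) (by norm_num)
    filter_upwards [(val_subL L').tendsto f u t1 hε, s2.tendsto f u t2 hε,
      SubL.norm.tendsto f u t3 hε] with r e1 e2 e3 x hx
    have hx' : |f x - f x0| < ε := hU hx
    rw [abs_lt] at e1 e2 e3 hx'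
    have v1 : val L' f ≤ f x + 2 * ε + ‖f‖ := val_le f
      (by have := shift_nonneg f x; linarith) fun y hy => by
        have hy' : |f y - f x0| < ε := hU hy
        rw [abs_lt] at hy'
        linarith
    have v2 : val L' (-f) ≤ -f x + 2 * ε + ‖f‖ := val_le (-f)
      (by have := shift_nonneg (-f) x
          simp only [ContinuousMap.neg_apply, norm_neg] at this; linarith) fun y hy => by
        have hy' : |f y - f x0| < ε := hU hy
        rw [abs_lt] at hy'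
        simp only [ContinuousMap.neg_apply, norm_neg]
        linarith
    have w1 := le_val (u r) hx
    have w2 := le_val (-u r) hx
    simp only [ContinuousMap.neg_apply, norm_neg] at w2
    rw [abs_le]
    constructor <;> linarith

lemma good_of_proper (F : ℕ → Set (Set K)) (hiso : ∀ n, ∀ N ∈ F n, ∀ x ∈ N, x ∉ JJ F n)
    (hnet : ∀ (x : K) (U : Set K), IsOpen U → x ∈ U → ∃ n, ∃ N ∈ F n, x ∈ N ∧ N ⊆ U)
    (f : C(K, ℝ)) {ε : ℝ} (hε : 0 < ε) {L : Set K} (hL : IsClosed L)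
    (h : ∀ L', IsClosed L' → L' ⊆ L → L' ≠ L → Good F f ε L') : Good F f ε L := by
  by_cases hsmall : ∀ x ∈ L, ∀ y ∈ L, f x - f y < ε
  · exact good_of_small F f hε hsmall
  push Not at hsmall
  obtain ⟨x, hx, y, hy, hxy⟩ := hsmall
  obtain ⟨x0, hx0, hmax⟩ := hL.isCompact.exists_isMaxOn ⟨x, hx⟩ f.continuous.continuousOn
  obtain ⟨y0, hy0, hmin⟩ := hL.isCompact.exists_isMinOn ⟨x, hx⟩ f.continuous.continuousOn
  have hx1 : f x ≤ f x0 := hmax hx
  have hy1 : f y0 ≤ f y := hmin hy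
  obtain ⟨S1, n1, m1, N1, U1, hU1, hLU1, hN1, hv1, hsel1⟩ := select F hiso hnet (s := 1)
    (by norm_num) f hL hx0 (fun z hz => by simpa using hmax hz)
    (by have := shift_nonneg f y0; simp only [one_smul]; linarith) (η := ε / 2) (by linarith)
  obtain ⟨S2, n2, m2, N2, U2, hU2, hLU2, hN2, hv2, hsel2⟩ := select F hiso hnet (s := -1)
    (by norm_num) f hL hy0 (fun z hz => by simpa using hmin hz)
    (by have := shift_nonneg (-f) x0
        simp only [neg_smul, one_smul, ContinuousMap.neg_apply, norm_neg] at *; linarith)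
    (η := ε / 2) (by linarith)
  have hdisj : Disjoint (closure N1) (closure N2) := by
    rw [Set.disjoint_left]
    intro z h1 h2
    have a1 := hv1 z h1
    have a2 := hv2 z h2
    simp only [neg_smul, one_smul, ContinuousMap.neg_apply] at a1 a2
    linarith
  obtain ⟨hX, hY, hXY⟩ := (exists_cut N1 N2).choose_spec
  obtain ⟨hcov, hXd, hYd⟩ := hXY hdisj
  set X := (exists_cut N1 N2).choose.1 with hXdef
  set Y := (exists_cut N1 N2).choose.2 with hYdef
  obtain ⟨T1, W1, hW1, hLW1, hT1⟩ := h (L ∩ X) (hL.inter hX) inter_subset_left (fun e => by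
    obtain ⟨z, hz, hzN⟩ := hN2
    rw [← e] at hz
    exact Set.disjoint_left.1 hXd hz.2 hzN)
  obtain ⟨T2, W2, hW2, hLW2, hT2⟩ := h (L ∩ Y) (hL.inter hY) inter_subset_left (fun e => by
    obtain ⟨z, hz, hzN⟩ := hN1
    rw [← e] at hz
    exact Set.disjoint_left.1 hYd hz.2 hzN)
  obtain ⟨C1, hC1, hn1⟩ := nu_nice F T1
  obtain ⟨C2, hC2, hn2⟩ := nu_nice F T2
  obtain ⟨p2, hp2⟩ := hsel2 (C1 + C2) (add_nonneg hC1 hC2)
  obtain ⟨p1, hp1⟩ := hsel1 (((m2 : ℝ) * 2) ^ 2 + m2 * (C1 + C2)) (by positivity)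
  refine ⟨.cut (S1, n1, m1, p1) (S2, n2, m2, p2) T1 T2, U1 ∩ U2 ∩ ((W1 ∪ Xᶜ) ∩ (W2 ∪ Yᶜ)),
    (hU1.inter hU2).inter ((hW1.union hX.isOpen_compl).inter (hW2.union hY.isOpen_compl)),
    fun z hz => ⟨⟨hLU1 hz, hLU2 hz⟩, ?_, ?_⟩, fun L' hL' hLL' hU u hu => ?_⟩
  · by_cases hzX : z ∈ X
    · exact Or.inl (hLW1 ⟨hz, hzX⟩)
    · exact Or.inr hzX
  · by_cases hzY : z ∈ Y
    · exact Or.inl (hLW2 ⟨hz, hzY⟩)
    · exact Or.inr hzY
  · have t1 := hp1 L' hLL' (fun z hz => (hU hz).1.1) _ (fun M =>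
      sel_nice F (by norm_num) (S2, n2, m2, p2) L' (add_nonneg hC1 hC2)
        fun M' => (hn1 _).add (hn2 _)) u hu
    have t2 := hp2 L' hLL' (fun z hz => (hU hz).1.2) _ (fun M' => (hn1 _).add (hn2 _)) u t1
    have t3 := tendsto_left (hn1 _) (hn2 _) f u t2
    have t4 := tendsto_right (hn1 _) (hn2 _) f u t2
    have e3 := hT1 (L' ∩ X) (hL'.inter hX) (inter_subset_inter_left _ hLL') (fun z hz => by
      rcases (hU hz.1).2.1 with h | h
      · exact h
      · exact absurd hz.2 h) u t3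
    have e4 := hT2 (L' ∩ Y) (hL'.inter hY) (inter_subset_inter_left _ hLL') (fun z hz => by
      rcases (hU hz.1).2.2 with h | h
      · exact h
      · exact absurd hz.2 h) u t4
    filter_upwards [e3, e4] with r h3 h4 z hz
    have : z ∈ X ∪ Y := hcov ▸ mem_univ z
    rcases this with h | h
    · exact h3 z ⟨hz, h⟩
    · exact h4 z ⟨hz, h⟩

lemma good_all (F : ℕ → Set (Set K)) (hiso : ∀ n, ∀ N ∈ F n, ∀ x ∈ N, x ∉ JJ F n)
    (hnet : ∀ (x : K) (U : Set K), IsOpen U → x ∈ U → ∃ n, ∃ N ∈ F n, x ∈ N ∧ N ⊆ U)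
    (f : C(K, ℝ)) {ε : ℝ} (hε : 0 < ε) : Good F f ε univ := by
  by_contra hbad
  obtain ⟨L, -, hmin⟩ := zorn_superset_nonempty {L : Set K | IsClosed L ∧ ¬ Good F f ε L}
    (fun c hc hchain hne => by
      refine ⟨⋂₀ c, ⟨isClosed_sInter fun L hL => (hc hL).1, ?_⟩,
        fun s hs => sInter_subset_of_mem hs⟩
      rintro ⟨T, U, hU, hLU, hT⟩
      have : Nonempty c := hne.to_subtype
      obtain ⟨L, hL⟩ := exists_subset_nhds_of_compactSpace (V := fun L : c => (L : Set K))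
        (U := U) (by
          intro A B
          rcases hchain.total A.2 B.2 with h | h
          · exact ⟨A, Subset.rfl, h⟩
          · exact ⟨B, h, Subset.rfl⟩)
        (fun L => (hc L.2).1) (fun x hx => hU.mem_nhds (hLU (by
          rw [sInter_eq_iInter]; exact hx)))
      exact (hc L.2).2 ⟨T, U, hU, hL, fun L' hL' h1 h2 =>
        hT L' hL' ((sInter_subset_of_mem L.2).trans h1) h2⟩)
    univ ⟨isClosed_univ, hbad⟩
  refine hmin.prop.2 (good_of_proper F hiso hnet f hε hmin.prop.1 fun L' hL' hsub hne => ?_)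
  by_contra h
  exact hne (Subset.antisymm hsub (hmin.le_of_le ⟨hL', h⟩ hsub))

/-- `C(K)` has an equivalent LUR norm when `K` is a descriptive compact space -/
theorem lur_of_descriptive (F : ℕ → Set (Set K))
    (hiso : ∀ n : ℕ, ∀ N ∈ F n, ∀ x ∈ N, ∃ U : Set K, IsOpen U ∧ x ∈ U ∧
      ∀ M ∈ F n, M ≠ N → Disjoint U M)
    (hnet : ∀ (x : K) (U : Set K), IsOpen U → x ∈ U → ∃ n, ∃ N ∈ F n, x ∈ N ∧ N ⊆ U) :
    ∃ p : Seminorm ℝ C(K, ℝ), (∀ x, ‖x‖ ≤ p x ∧ p x ≤ 3 * ‖x‖) ∧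
      ∀ (f : C(K, ℝ)) (u : ℕ → C(K, ℝ)), Tendsto (fun n => p (u n)) atTop (𝓝 (p f)) →
        Tendsto (fun n => p (u n + f)) atTop (𝓝 (2 * p f)) →
        Tendsto (fun n => ‖u n - f‖) atTop (𝓝 0) := by
  have hiso' : ∀ n, ∀ N ∈ F n, ∀ x ∈ N, x ∉ JJ F n := by
    intro n N hN x hx hJ
    obtain ⟨U, hU, hxU, hd⟩ := hiso n N hN x hx
    have h1 := mem_iInter₂.1 hJ N hN
    obtain ⟨z, hzU, hz⟩ := mem_closure_iff.1 h1 U hU hxU
    obtain ⟨M, ⟨hM, hMN⟩, hzM⟩ := mem_iUnion₂.1 hz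
    exact Set.disjoint_left.1 (hd M hM hMN) hzU hzM
  have : Nonempty Prog := ⟨.leaf⟩
  refine exists_lur (fun T : Prog => nu F T univ) (fun T => ?_) fun f ε hε => ?_
  · obtain ⟨C, hC, h⟩ := nu_nice F T
    exact ⟨C, hC, h univ⟩
  · obtain ⟨T, U, -, hU, hT⟩ := good_all F hiso' hnet f (ε := ε / 4) (by linarith)
    refine ⟨T, fun u hu => ?_⟩
    filter_upwards [hT univ isClosed_univ Subset.rfl hU u hu] with r hr
    refine (ContinuousMap.norm_le _ hε.le).2 fun x => ?_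
    have := hr x (mem_univ x)
    rw [ContinuousMap.sub_apply, Real.norm_eq_abs]
    linarith

end Desc

end Pool.Agent.H665Z.Lur
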