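import Mathlib

set_option autoImplicit false
open Set Filter Topology

namespace Pool.Agent.H665Z.Lur

section Quad
variable {E : Type*} [NormedAddCommGroup E] [NormedSpace ℝ E]

/-- convex, nonnegative, quadratically homogeneous, quadratically bounded functions -/
structure Nice (C : ℝ) (F : E → ℝ) : Prop where
  conv : ∀ (x y : E) (s t : ℝ), 0 ≤ s → 0 ≤ t → s + t = 1 →
    F (s • x + t • y) ≤ s * F x + t * F y
  nonneg : ∀ x, 0 ≤ F x
  homog : ∀ (t : ℝ) (x : E), 0 ≤ t → F (t • x) ≤ t ^ 2 * F x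
  bound : ∀ x, F x ≤ C * ‖x‖ ^ 2

/-- nonnegative bounded sublinear functionals -/
structure SubL (C : ℝ) (φ : E → ℝ) : Prop where
  add : ∀ x y, φ (x + y) ≤ φ x + φ y
  nonneg : ∀ x, 0 ≤ φ x
  homog : ∀ (t : ℝ) (x : E), 0 ≤ t → φ (t • x) ≤ t * φ x
  bound : ∀ x, φ x ≤ C * ‖x‖

/-- midpoint convexity defect -/
noncomputable def Dl (F : E → ℝ) (x y : E) : ℝ :=
  F x + F y - 2 * F ((1 / 2 : ℝ) • x + (1 / 2 : ℝ) • y)

lemma Nice.Dl_nonneg {C : ℝ} {F : E → ℝ} (h : Nice C F) (x y : E) : 0 ≤ Dl F x y := by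
  have := h.conv x y (1 / 2) (1 / 2) (by norm_num) (by norm_num) (by norm_num)
  unfold Dl; linarith

lemma Nice.mono {C C' : ℝ} {F : E → ℝ} (h : Nice C F) (hC : C ≤ C') : Nice C' F :=
  ⟨h.conv, h.nonneg, h.homog, fun x => (h.bound x).trans
    (mul_le_mul_of_nonneg_right hC (sq_nonneg _))⟩

lemma Nice.add {C C' : ℝ} {F G : E → ℝ} (h : Nice C F) (h' : Nice C' G) :
    Nice (C + C') (fun x => F x + G x) := by
  refine ⟨fun x y s t hs ht hst => ?_, fun x => add_nonneg (h.nonneg x) (h'.nonneg x),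
    fun t x ht => ?_, fun x => ?_⟩
  · have := h.conv x y s t hs ht hst
    have := h'.conv x y s t hs ht hst
    linarith
  · have := h.homog t x ht
    have := h'.homog t x ht
    linarith
  · have := h.bound x
    have := h'.bound x
    linarith

lemma Nice.cmul {C c : ℝ} {F : E → ℝ} (h : Nice C F) (hc : 0 ≤ c) :
    Nice (c * C) (fun x => c * F x) := by
  refine ⟨fun x y s t hs ht hst => ?_, fun x => mul_nonneg hc (h.nonneg x),
    fun t x ht => ?_, fun x => ?_⟩
  · have := mul_le_mul_of_nonneg_left (h.conv x y s t hs ht hst) hc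
    linarith
  · have := mul_le_mul_of_nonneg_left (h.homog t x ht) hc
    linarith
  · have := mul_le_mul_of_nonneg_left (h.bound x) hc
    linarith

lemma Nice.zero : Nice (0 : ℝ) (fun _ : E => (0 : ℝ)) :=
  ⟨fun _ _ _ _ _ _ _ => by simp, fun _ => le_rfl, fun _ _ _ => by simp, fun _ => by simp⟩

lemma Nice.sum {ι : Type*} {C : ℝ} (s : Finset ι) {F : ι → E → ℝ} (h : ∀ i, Nice C (F i)) :
    Nice (s.card * C) (fun x => ∑ i ∈ s, F i x) := by
  classical
  induction s using Finset.induction_on with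
  | empty => simpa using (Nice.zero : Nice (0 : ℝ) (fun _ : E => (0 : ℝ)))
  | insert a s ha ih =>
    have := (h a).add ih
    simp only [Finset.sum_insert ha, Finset.card_insert_of_notMem ha]
    convert this using 1
    push_cast; ring

lemma Nice.neg {C : ℝ} {F : E → ℝ} (h : Nice C F) : Nice C (fun x => F (-x)) := by
  refine ⟨fun x y s t hs ht hst => ?_, fun x => h.nonneg _, fun t x ht => ?_, fun x => ?_⟩
  · have := h.conv (-x) (-y) s t hs ht hst
    have e : -(s • x + t • y) = s • (-x) + t • (-y) := by simp [add_comm]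
    rw [e]; exact this
  · have := h.homog t (-x) ht
    have e : -(t • x) = t • (-x) := by simp
    rw [e]; exact this
  · simpa using h.bound (-x)

lemma Nice.bdd {ι : Type*} {C : ℝ} {F : ι → E → ℝ} (h : ∀ i, Nice C (F i)) (x : E) :
    BddAbove (range fun i => F i x) :=
  ⟨C * ‖x‖ ^ 2, by rintro _ ⟨i, rfl⟩; exact (h i).bound x⟩

lemma Nice.iSup {ι : Type*} {C : ℝ} (hC : 0 ≤ C) {F : ι → E → ℝ} (h : ∀ i, Nice C (F i)) :
    Nice C (fun x => ⨆ i, F i x) := by
  have hn : ∀ x, 0 ≤ ⨆ i, F i x := fun x => Real.iSup_nonneg fun i => (h i).nonneg x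
  have hl : ∀ i x, F i x ≤ ⨆ i, F i x := fun i x => le_ciSup (Nice.bdd h x) i
  refine ⟨fun x y s t hs ht hst => ?_, hn, fun t x ht => ?_, fun x => ?_⟩
  · refine Real.iSup_le (fun i => ?_) (by have := hn x; have := hn y; positivity)
    have := (h i).conv x y s t hs ht hst
    have := mul_le_mul_of_nonneg_left (hl i x) hs
    have := mul_le_mul_of_nonneg_left (hl i y) ht
    linarith
  · refine Real.iSup_le (fun i => ?_) (by have := hn x; positivity)
    have := (h i).homog t x ht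
    have := mul_le_mul_of_nonneg_left (hl i x) (sq_nonneg t)
    linarith
  · exact Real.iSup_le (fun i => (h i).bound x) (by positivity)

lemma SubL.sq {C : ℝ} {φ : E → ℝ} (h : SubL C φ) : Nice (C ^ 2) (fun x => φ x ^ 2) := by
  refine ⟨fun x y s t hs ht hst => ?_, fun x => sq_nonneg _, fun t x ht => ?_, fun x => ?_⟩
  · have h1 : φ (s • x + t • y) ≤ s * φ x + t * φ y :=
      (h.add _ _).trans (add_le_add (h.homog s x hs) (h.homog t y ht))
    have h0 := h.nonneg (s • x + t • y)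
    have h2 : φ (s • x + t • y) ^ 2 ≤ (s * φ x + t * φ y) ^ 2 := pow_le_pow_left₀ h0 h1 2
    have ht' : t = 1 - s := by linarith
    have h3 : (s * φ x + t * φ y) ^ 2 ≤ s * φ x ^ 2 + t * φ y ^ 2 := by
      have : s * φ x ^ 2 + t * φ y ^ 2 - (s * φ x + t * φ y) ^ 2 = s * t * (φ x - φ y) ^ 2 := by
        rw [ht']; ring
      have : 0 ≤ s * t * (φ x - φ y) ^ 2 := by positivity
      linarith
    linarith
  · have h1 := h.homog t x ht
    have h0 := h.nonneg (t • x)
    calc φ (t • x) ^ 2 ≤ (t * φ x) ^ 2 := pow_le_pow_left₀ h0 h1 2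
      _ = t ^ 2 * φ x ^ 2 := by ring
  · calc φ x ^ 2 ≤ (C * ‖x‖) ^ 2 := pow_le_pow_left₀ (h.nonneg x) (h.bound x) 2
      _ = C ^ 2 * ‖x‖ ^ 2 := by ring

lemma SubL.norm : SubL (1 : ℝ) (fun x : E => ‖x‖) :=
  ⟨fun x y => norm_add_le x y, fun x => norm_nonneg x,
    fun t x ht => by rw [norm_smul, Real.norm_of_nonneg ht], fun x => by simp⟩

lemma SubL.zero : SubL (0 : ℝ) (fun _ : E => (0 : ℝ)) :=
  ⟨fun _ _ => by simp, fun _ => le_rfl, fun _ _ _ => by simp, fun _ => by simp⟩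

lemma SubL.sum {ι : Type*} {C : ℝ} (s : Finset ι) {F : ι → E → ℝ} (h : ∀ i, SubL C (F i)) :
    SubL (s.card * C) (fun x => ∑ i ∈ s, F i x) := by
  refine ⟨fun x y => ?_, fun x => Finset.sum_nonneg fun i _ => (h i).nonneg x,
    fun t x ht => ?_, fun x => ?_⟩
  · rw [← Finset.sum_add_distrib]
    exact Finset.sum_le_sum fun i _ => (h i).add x y
  · rw [Finset.mul_sum]
    exact Finset.sum_le_sum fun i _ => (h i).homog t x ht
  · calc ∑ i ∈ s, F i x ≤ ∑ _i ∈ s, C * ‖x‖ := Finset.sum_le_sum fun i _ => (h i).bound x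
      _ = s.card * C * ‖x‖ := by simp [mul_assoc]

lemma SubL.smul {C s : ℝ} {φ : E → ℝ} (h : SubL C φ) (hC : 0 ≤ C) (hs : |s| ≤ 1) :
    SubL C (fun x => φ (s • x)) := by
  refine ⟨fun x y => ?_, fun x => h.nonneg _, fun t x ht => ?_, fun x => ?_⟩
  · rw [smul_add]; exact h.add _ _
  · rw [smul_comm]; exact h.homog _ _ ht
  · refine (h.bound _).trans (mul_le_mul_of_nonneg_left ?_ hC)
    rw [norm_smul, Real.norm_eq_abs]
    exact mul_le_of_le_one_left (norm_nonneg _) hs

lemma SubL.Dl_sq {C : ℝ} {φ : E → ℝ} (h : SubL C φ) (x y : E) :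
    (φ x - φ y) ^ 2 / 2 ≤ Dl (fun x => φ x ^ 2) x y := by
  have h1 : φ ((1 / 2 : ℝ) • x + (1 / 2 : ℝ) • y) ≤ 1 / 2 * φ x + 1 / 2 * φ y :=
    (h.add _ _).trans (add_le_add (h.homog _ x (by norm_num)) (h.homog _ y (by norm_num)))
  have h2 := pow_le_pow_left₀ (h.nonneg _) h1 2
  unfold Dl
  nlinarith

lemma SubL.tendsto {C : ℝ} {φ : E → ℝ} (h : SubL C φ) (x : E) (u : ℕ → E)
    (hu : Tendsto (fun r => Dl (fun x => φ x ^ 2) x (u r)) atTop (𝓝 0)) {ε : ℝ} (hε : 0 < ε) :
    ∀ᶠ r in atTop, |φ (u r) - φ x| < ε := by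
  have h1 : ∀ᶠ r in atTop, Dl (fun x => φ x ^ 2) x (u r) < ε ^ 2 / 2 :=
    hu.eventually (gt_mem_nhds (by positivity))
  filter_upwards [h1] with r hr
  have h2 := h.Dl_sq x (u r)
  have h3 : (φ (u r) - φ x) ^ 2 < ε ^ 2 := by nlinarith
  exact abs_lt_of_sq_lt_sq h3 hε.le

/-- passing the LUR hypothesis to a dominated summand -/
lemma tendsto_of_le {F G : E → ℝ} {C : ℝ} (hG : Nice C G) (x : E) (u : ℕ → E) {c : ℝ}
    (hc : 0 < c) (hle : ∀ y, c * Dl G x y ≤ Dl F x y)
    (hu : Tendsto (fun r => Dl F x (u r)) atTop (𝓝 0)) :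
    Tendsto (fun r => Dl G x (u r)) atTop (𝓝 0) := by
  have h1 : Tendsto (fun r => c⁻¹ * Dl F x (u r)) atTop (𝓝 0) := by
    simpa using hu.const_mul c⁻¹
  refine squeeze_zero (fun r => hG.Dl_nonneg _ _) (fun r => ?_) h1
  rw [← div_eq_inv_mul, le_div_iff₀ hc, mul_comm]
  exact hle _

lemma Dl_add (F G : E → ℝ) (x y : E) :
    Dl (fun z => F z + G z) x y = Dl F x y + Dl G x y := by
  unfold Dl; ring

lemma Dl_cmul (c : ℝ) (F : E → ℝ) (x y : E) : Dl (fun z => c * F z) x y = c * Dl F x y := by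
  unfold Dl; ring

lemma Dl_sum {ι : Type*} (s : Finset ι) (F : ι → E → ℝ) (x y : E) :
    Dl (fun z => ∑ i ∈ s, F i z) x y = ∑ i ∈ s, Dl (F i) x y := by
  unfold Dl
  rw [Finset.mul_sum, ← Finset.sum_add_distrib, ← Finset.sum_sub_distrib]

lemma tendsto_left {F G : E → ℝ} {C C' : ℝ} (hF : Nice C F) (hG : Nice C' G) (x : E) (u : ℕ → E)
    (hu : Tendsto (fun r => Dl (fun z => F z + G z) x (u r)) atTop (𝓝 0)) :
    Tendsto (fun r => Dl F x (u r)) atTop (𝓝 0) :=
  tendsto_of_le hF x u one_pos (fun y => by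
    rw [Dl_add]; have := hG.Dl_nonneg x y; linarith) hu

lemma tendsto_right {F G : E → ℝ} {C C' : ℝ} (hF : Nice C F) (hG : Nice C' G) (x : E) (u : ℕ → E)
    (hu : Tendsto (fun r => Dl (fun z => F z + G z) x (u r)) atTop (𝓝 0)) :
    Tendsto (fun r => Dl G x (u r)) atTop (𝓝 0) :=
  tendsto_of_le hG x u one_pos (fun y => by
    rw [Dl_add]; have := hF.Dl_nonneg x y; linarith) hu

/-- rigid form of Deville's lemma -/
lemma rigid {ι : Type*} {C : ℝ} {G : ι → E → ℝ} (hG : ∀ i, Nice C (G i)) (x : E)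
    (u : ℕ → E) (i0 : ι) {δ : ℝ} (hδ : 0 < δ) (hgap : ∀ i, i ≠ i0 → G i x + δ ≤ G i0 x)
    (hu : Tendsto (fun r => Dl (fun y => ⨆ i, G i y) x (u r)) atTop (𝓝 0)) :
    Tendsto (fun r => Dl (G i0) x (u r)) atTop (𝓝 0) := by
  have : Nonempty ι := ⟨i0⟩
  have hl : ∀ i y, G i y ≤ ⨆ i, G i y := fun i y => le_ciSup (Nice.bdd hG y) i
  have h1 : ∀ᶠ r in atTop, Dl (fun y => ⨆ i, G i y) x (u r) < δ :=
    hu.eventually (gt_mem_nhds hδ)
  refine squeeze_zero' (Eventually.of_forall fun r => (hG i0).Dl_nonneg _ _) ?_ hu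
  filter_upwards [h1] with r hr
  set m : E := (1 / 2 : ℝ) • x + (1 / 2 : ℝ) • u r with hm
  have key : (⨆ i, G i m) ≤ G i0 m := by
    by_contra hcon
    push Not at hcon
    set c : ℝ := min ((⨆ i, G i m) - G i0 m) ((δ - Dl (fun y => ⨆ i, G i y) x (u r)) / 2) with hc
    have hcpos : 0 < c := lt_min (by linarith) (by linarith)
    have hc1 : c ≤ (⨆ i, G i m) - G i0 m := min_le_left _ _
    have hc2 : c ≤ (δ - Dl (fun y => ⨆ i, G i y) x (u r)) / 2 := min_le_right _ _
    have : (⨆ i, G i m) ≤ (⨆ i, G i m) - c := by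
      refine ciSup_le fun i => ?_
      by_cases hi : i = i0
      · subst hi; linarith
      · have a1 := (hG i).Dl_nonneg x (u r)
        have a2 := hgap i hi
        have a3 := hl i0 x
        have a4 := hl i (u r)
        unfold Dl at a1 hc2
        rw [← hm] at a1 hc2
        linarith
    linarith
  have a3 := hl i0 x
  have a4 := hl i0 (u r)
  unfold Dl
  rw [← hm]
  linarith

/-- the square root of a symmetric nice function is a seminorm -/
lemma exists_seminorm {C : ℝ} {F : E → ℝ} (h : Nice C F) (hneg : ∀ x, F (-x) = F x)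
    (hpos : ∀ x, ‖x‖ ^ 2 ≤ F x) : ∃ p : Seminorm ℝ E, ∀ x, p x = Real.sqrt (F x) := by
  have h0 : F 0 = 0 := le_antisymm (by simpa using h.bound 0) (h.nonneg 0)
  have hhom : ∀ (t : ℝ) (x : E), Real.sqrt (F (t • x)) ≤ ‖t‖ * Real.sqrt (F x) := by
    intro t x
    have : F (t • x) ≤ t ^ 2 * F x := by
      rcases le_total 0 t with ht | ht
      · exact h.homog t x ht
      · have e : t • x = -((-t) • x) := by simp
        rw [e, hneg]
        have := h.homog (-t) x (by linarith)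
        simpa using this
    calc Real.sqrt (F (t • x)) ≤ Real.sqrt (t ^ 2 * F x) := Real.sqrt_le_sqrt this
      _ = ‖t‖ * Real.sqrt (F x) := by
        rw [Real.sqrt_mul (sq_nonneg t), Real.sqrt_sq_eq_abs, Real.norm_eq_abs]
  refine ⟨Seminorm.ofSMulLE (fun x => Real.sqrt (F x)) (by simp [h0]) (fun x y => ?_) hhom,
    fun x => rfl⟩
  by_cases hx : x = 0
  · subst hx; simp [h0]
  by_cases hy : y = 0
  · subst hy; simp [h0]
  have hFx : 0 < F x := lt_of_lt_of_le (pow_pos (norm_pos_iff.2 hx) 2) (hpos x)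
  have hFy : 0 < F y := lt_of_lt_of_le (pow_pos (norm_pos_iff.2 hy) 2) (hpos y)
  set a := Real.sqrt (F x) with ha
  set b := Real.sqrt (F y) with hb
  have ha0 : 0 < a := Real.sqrt_pos.2 hFx
  have hb0 : 0 < b := Real.sqrt_pos.2 hFy
  have ha2 : a ^ 2 = F x := Real.sq_sqrt hFx.le
  have hb2 : b ^ 2 = F y := Real.sq_sqrt hFy.le
  have hab : 0 < a + b := by linarith
  have h1 : F (a⁻¹ • x) ≤ 1 := by
    have := h.homog a⁻¹ x (by positivity)
    rw [← ha2] at this
    have e : a⁻¹ ^ 2 * a ^ 2 = 1 := by field_simp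
    linarith
  have h2 : F (b⁻¹ • y) ≤ 1 := by
    have := h.homog b⁻¹ y (by positivity)
    rw [← hb2] at this
    have e : b⁻¹ ^ 2 * b ^ 2 = 1 := by field_simp
    linarith
  have h3 := h.conv (a⁻¹ • x) (b⁻¹ • y) (a / (a + b)) (b / (a + b)) (by positivity)
    (by positivity) (by field_simp)
  have e1 : (a / (a + b)) • a⁻¹ • x + (b / (a + b)) • b⁻¹ • y = (a + b)⁻¹ • (x + y) := by
    rw [smul_smul, smul_smul, smul_add]
    congr 2
    · field_simp
    · field_simp
  rw [e1] at h3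
  have h4 : F ((a + b)⁻¹ • (x + y)) ≤ 1 := by
    have b1 := mul_le_mul_of_nonneg_left h1 (show 0 ≤ a / (a + b) by positivity)
    have b2 := mul_le_mul_of_nonneg_left h2 (show 0 ≤ b / (a + b) by positivity)
    have e : a / (a + b) * 1 + b / (a + b) * 1 = 1 := by field_simp
    linarith
  have h5 := h.homog (a + b) ((a + b)⁻¹ • (x + y)) hab.le
  rw [smul_smul, mul_inv_cancel₀ hab.ne', one_smul] at h5
  have h6 : F (x + y) ≤ (a + b) ^ 2 := by
    have := mul_le_mul_of_nonneg_left h4 (sq_nonneg (a + b))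
    linarith
  calc Real.sqrt (F (x + y)) ≤ Real.sqrt ((a + b) ^ 2) := Real.sqrt_le_sqrt h6
    _ = a + b := Real.sqrt_sq hab.le

/-- countably many nice functions are glued into one LUR norm -/
theorem exists_lur {ι : Type*} [Countable ι] [Nonempty ι] (G : ι → E → ℝ)
    (hG : ∀ i, ∃ C, 0 ≤ C ∧ Nice C (G i))
    (hw : ∀ (x : E) (ε : ℝ), 0 < ε → ∃ i, ∀ u : ℕ → E,
      Tendsto (fun r => Dl (G i) x (u r)) atTop (𝓝 0) → ∀ᶠ r in atTop, ‖u r - x‖ ≤ ε) :
    ∃ p : Seminorm ℝ E, (∀ x, ‖x‖ ≤ p x ∧ p x ≤ 3 * ‖x‖) ∧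
      ∀ (f : E) (u : ℕ → E), Tendsto (fun n => p (u n)) atTop (𝓝 (p f)) →
        Tendsto (fun n => p (u n + f)) atTop (𝓝 (2 * p f)) →
        Tendsto (fun n => ‖u n - f‖) atTop (𝓝 0) := by
  obtain ⟨e, he⟩ := exists_surjective_nat ι
  choose C hC0 hC using hG
  set c : ℕ → ℝ := fun j => (1 / 2 : ℝ) ^ j / (C (e j) + 1) with hc
  have hcpos : ∀ j, 0 < c j := fun j => by have := hC0 (e j); positivity
  set H : ℕ → E → ℝ := fun j x => c j * (G (e j) x + G (e j) (-x)) with hH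
  have hHn : ∀ j, Nice (2 * (1 / 2 : ℝ) ^ j) (H j) := by
    intro j
    refine (((hC (e j)).add (hC (e j)).neg).cmul (hcpos j).le).mono ?_
    have h0 := hC0 (e j)
    have : c j * (C (e j) + C (e j)) = 2 * (1 / 2 : ℝ) ^ j * (C (e j) / (C (e j) + 1)) := by
      simp only [hc]; field_simp; ring
    rw [this]
    refine mul_le_of_le_one_right (by positivity) ?_
    rw [div_le_one (by positivity)]; linarith
  have hgeo : Summable fun j : ℕ => (1 / 2 : ℝ) ^ j := summable_geometric_two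
  have hsum : ∀ x, Summable fun j => H j x := fun x =>
    Summable.of_nonneg_of_le (fun j => (hHn j).nonneg x) (fun j => (hHn j).bound x)
      ((hgeo.mul_left 2).mul_right _)
  set S : E → ℝ := fun x => ∑' j, H j x with hS
  have hSn : Nice 4 S := by
    refine ⟨fun x y s t hs ht hst => ?_, fun x => tsum_nonneg fun j => (hHn j).nonneg x,
      fun t x ht => ?_, fun x => ?_⟩
    · simp only [hS]
      rw [← tsum_mul_left, ← tsum_mul_left,
        ← ((hsum x).mul_left s).tsum_add ((hsum y).mul_left t)]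
      exact (hsum _).tsum_le_tsum (fun j => (hHn j).conv x y s t hs ht hst)
        (((hsum x).mul_left s).add ((hsum y).mul_left t))
    · simp only [hS]
      rw [← tsum_mul_left]
      exact (hsum _).tsum_le_tsum (fun j => (hHn j).homog t x ht) ((hsum x).mul_left _)
    · have := (hsum x).tsum_le_tsum (fun j => (hHn j).bound x) ((hgeo.mul_left 2).mul_right _)
      rw [tsum_mul_right, tsum_mul_left, tsum_geometric_two] at this
      simp only [hS]; linarith
  have hN : Nice (1 ^ 2) (fun x : E => ‖x‖ ^ 2) := SubL.norm.sq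
  have hF := hN.add hSn
  obtain ⟨p, hp⟩ := exists_seminorm hF (fun x => by
      simp only [hS, hH, norm_neg, neg_neg, add_comm (G _ (-x))])
    (fun x => by have := hSn.nonneg x; linarith)
  have hp2 : ∀ x, p x ^ 2 = ‖x‖ ^ 2 + S x := fun x => by
    rw [hp x, Real.sq_sqrt (hF.nonneg x)]
  refine ⟨p, fun x => ⟨?_, ?_⟩, fun f u h1 h2 => ?_⟩
  · have := hSn.nonneg x
    refine abs_le_of_sq_le_sq' ?_ (apply_nonneg p x) |>.2
    rw [hp2]; linarith
  · have := hSn.bound x
    refine abs_le_of_sq_le_sq' ?_ (by positivity) |>.2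
    rw [hp2]; nlinarith [sq_nonneg ‖x‖]
  · have hD : Tendsto (fun r => Dl (fun x => ‖x‖ ^ 2 + S x) f (u r)) atTop (𝓝 0) := by
      have e1 : ∀ r, Dl (fun x => ‖x‖ ^ 2 + S x) f (u r) =
          p f ^ 2 + p (u r) ^ 2 - 2 * ((1 / 2) * p (u r + f)) ^ 2 := by
        intro r
        unfold Dl
        simp only [← hp2]
        rw [← smul_add, map_smul_eq_mul, add_comm f]
        norm_num
      simp only [e1]
      have : Tendsto (fun r => p f ^ 2 + p (u r) ^ 2 - 2 * ((1 / 2) * p (u r + f)) ^ 2) atTop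
          (𝓝 (p f ^ 2 + p f ^ 2 - 2 * ((1 / 2) * (2 * p f)) ^ 2)) :=
        (tendsto_const_nhds.add (h1.pow 2)).sub (((h2.const_mul _).pow 2).const_mul _)
      convert this using 2
      ring
    have hDS := tendsto_right hN hSn f u hD
    rw [Metric.tendsto_atTop]
    intro ε hε
    obtain ⟨i, hi⟩ := hw f (ε / 2) (by linarith)
    obtain ⟨j, rfl⟩ := he i
    have hj : Tendsto (fun r => Dl (H j) f (u r)) atTop (𝓝 0) := by
      refine tendsto_of_le (hHn j) f u one_pos (fun y => ?_) hDS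
      have e1 : Dl S f y = ∑' j, Dl (H j) f y := by
        unfold Dl
        simp only [hS]
        rw [← tsum_mul_left, ← (hsum f).tsum_add (hsum y),
          ← ((hsum f).add (hsum y)).tsum_sub ((hsum _).mul_left 2)]
      rw [e1, one_mul]
      refine Summable.le_tsum ?_ j (fun k _ => (hHn k).Dl_nonneg f y)
      exact ((hsum f).add (hsum y)).sub ((hsum _).mul_left 2)
    have hj2 : Tendsto (fun r => Dl (G (e j)) f (u r)) atTop (𝓝 0) := by
      refine tendsto_of_le (hC (e j)) f u (hcpos j) (fun y => ?_) hj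
      simp only [hH]
      rw [Dl_cmul, Dl_add]
      have := (hC (e j)).neg.Dl_nonneg f y
      have := hcpos j
      nlinarith
    obtain ⟨N, hN⟩ := eventually_atTop.1 (hi u hj2)
    refine ⟨N, fun n hn => ?_⟩
    have := hN n hn
    rw [Real.dist_eq, sub_zero, abs_of_nonneg (norm_nonneg _)]
    linarith

end Quad

end Pool.Agent.H665Z.Lur
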