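import Mathlib

set_option autoImplicit false
open Set Filter

namespace Pool.Agent.H665Z.UC

section Basic
variable {L M N : Type*} [CompleteLattice L] [CompleteLattice M] [CompleteLattice N]

/-- meet continuity -/
def MC (L : Type*) [CompleteLattice L] : Prop :=
  ∀ s : Set L, DirectedOn (· ≤ ·) s → s.Nonempty → ∀ y v : L, (∀ x ∈ s, x ⊓ y ≤ v) → sSup s ⊓ y ≤ v

/-- join continuity -/
def JC (L : Type*) [CompleteLattice L] : Prop :=
  ∀ s : Set L, DirectedOn (· ≥ ·) s → s.Nonempty → ∀ y v : L, (∀ x ∈ s, v ≤ x ⊔ y) → v ≤ sInf s ⊔ y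

lemma JC.dual (h : JC L) : MC Lᵒᵈ := h
lemma MC.dual (h : MC L) : JC Lᵒᵈ := h
lemma JC.of_dual (h : MC Lᵒᵈ) : JC L := h

lemma MC.two (h : MC L) {s s' : Set L} (hs : DirectedOn (· ≤ ·) s) (hne : s.Nonempty)
    (hs' : DirectedOn (· ≤ ·) s') (hne' : s'.Nonempty) {v : L}
    (hv : ∀ x ∈ s, ∀ x' ∈ s', x ⊓ x' ≤ v) : sSup s ⊓ sSup s' ≤ v := by
  refine h s hs hne _ _ fun x hx => ?_
  rw [inf_comm]
  exact h s' hs' hne' _ _ fun x' hx' => by rw [inf_comm]; exact hv x hx x' hx'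

lemma JC.two (h : JC L) {s s' : Set L} (hs : DirectedOn (· ≥ ·) s) (hne : s.Nonempty)
    (hs' : DirectedOn (· ≥ ·) s') (hne' : s'.Nonempty) {v : L}
    (hv : ∀ x ∈ s, ∀ x' ∈ s', v ≤ x ⊔ x') : v ≤ sInf s ⊔ sInf s' :=
  MC.two h.dual hs hne hs' hne' hv

/-- at most one complement -/
def AMU (L : Type*) [CompleteLattice L] : Prop :=
  ∀ a b c : L, IsCompl a b → IsCompl a c → b = c

/-- upper projection -/
def up (j : L → M) (z : M) : L := sInf {w | z ≤ j w}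

/-- lower projection -/
def dn (j : L → M) (z : M) : L := sSup {w | j w ≤ z}

/-- regular embeddings -/
structure Reg (j : L → M) : Prop where
  le_iff : ∀ a b, j a ≤ j b ↔ a ≤ b
  le_up : ∀ z, z ≤ j (up j z)
  dn_le : ∀ z, j (dn j z) ≤ z

lemma Reg.dual {j : L → M} (h : Reg j) : Reg (L := Lᵒᵈ) (M := Mᵒᵈ) j :=
  ⟨fun a b => h.le_iff b a, h.dn_le, h.le_up⟩

lemma Reg.up_le {j : L → M} (h : Reg j) {z : M} {w : L} : up j z ≤ w ↔ z ≤ j w :=
  ⟨fun h1 => (h.le_up z).trans ((h.le_iff _ _).2 h1), fun h1 => sInf_le h1⟩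

lemma Reg.le_dn {j : L → M} (h : Reg j) {z : M} {w : L} : w ≤ dn j z ↔ j w ≤ z :=
  ⟨fun h1 => ((h.le_iff _ _).2 h1).trans (h.dn_le z), fun h1 => le_sSup h1⟩

lemma Reg.inj {j : L → M} (h : Reg j) : Function.Injective j := fun a b e =>
  le_antisymm ((h.le_iff _ _).1 e.le) ((h.le_iff _ _).1 e.ge)

lemma Reg.up_mono {j : L → M} (h : Reg j) {z z' : M} (hz : z ≤ z') : up j z ≤ up j z' :=
  h.up_le.2 (hz.trans (h.le_up _))

lemma Reg.dn_mono {j : L → M} (h : Reg j) {z z' : M} (hz : z ≤ z') : dn j z ≤ dn j z' :=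
  h.le_dn.2 ((h.dn_le _).trans hz)

lemma Reg.up_j {j : L → M} (h : Reg j) (a : L) : up j (j a) = a :=
  le_antisymm (h.up_le.2 le_rfl) ((h.le_iff _ _).1 (h.le_up _))

lemma Reg.dn_j {j : L → M} (h : Reg j) (a : L) : dn j (j a) = a :=
  le_antisymm ((h.le_iff _ _).1 (h.dn_le _)) (h.le_dn.2 le_rfl)

lemma Reg.dn_le_up {j : L → M} (h : Reg j) (z : M) : dn j z ≤ up j z :=
  (h.le_iff _ _).1 ((h.dn_le z).trans (h.le_up z))

lemma Reg.map_inf {j : L → M} (h : Reg j) (a b : L) : j (a ⊓ b) = j a ⊓ j b :=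
  le_antisymm (le_inf ((h.le_iff _ _).2 inf_le_left) ((h.le_iff _ _).2 inf_le_right))
    (h.up_le.1 (le_inf (h.up_le.2 inf_le_left) (h.up_le.2 inf_le_right)))

lemma Reg.map_sup {j : L → M} (h : Reg j) (a b : L) : j (a ⊔ b) = j a ⊔ j b :=
  h.dual.map_inf a b

lemma Reg.map_top {j : L → M} (h : Reg j) : j ⊤ = ⊤ := top_le_iff.1 (h.up_le.1 le_top)

lemma Reg.map_bot {j : L → M} (h : Reg j) : j ⊥ = ⊥ := h.dual.map_top

lemma Reg.dn_inf {j : L → M} (h : Reg j) (z z' : M) : dn j (z ⊓ z') = dn j z ⊓ dn j z' :=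
  le_antisymm (le_inf (h.dn_mono inf_le_left) (h.dn_mono inf_le_right))
    (h.le_dn.2 (by rw [h.map_inf]; exact inf_le_inf (h.dn_le _) (h.dn_le _)))

lemma Reg.isCompl {j : L → M} (h : Reg j) {a b : L} (hab : IsCompl a b) : IsCompl (j a) (j b) :=
  IsCompl.of_eq (by rw [← h.map_inf, hab.inf_eq_bot, h.map_bot])
    (by rw [← h.map_sup, hab.sup_eq_top, h.map_top])

lemma Reg.id : Reg (id : L → L) :=
  ⟨fun _ _ => Iff.rfl, fun _ => le_sInf fun _ h => h, fun _ => sSup_le fun _ h => h⟩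

lemma up_eq_of {j : L → M} {z : M} {a : L} (h : ∀ w, z ≤ j w ↔ a ≤ w) : up j z = a :=
  le_antisymm (sInf_le ((h a).2 le_rfl)) (le_sInf fun w hw => (h w).1 hw)

lemma dn_eq_of {j : L → M} {z : M} {a : L} (h : ∀ w, j w ≤ z ↔ w ≤ a) : dn j z = a :=
  up_eq_of (L := Lᵒᵈ) (M := Mᵒᵈ) h

lemma Reg.up_comp {j : L → M} {k : M → N} (h : Reg j) (h' : Reg k) (z : N) :
    up (k ∘ j) z = up j (up k z) :=
  up_eq_of fun w => by rw [h.up_le, h'.up_le]; rfl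

lemma Reg.dn_comp {j : L → M} {k : M → N} (h : Reg j) (h' : Reg k) (z : N) :
    dn (k ∘ j) z = dn j (dn k z) :=
  h.dual.up_comp h'.dual z

lemma Reg.comp {j : L → M} {k : M → N} (h : Reg j) (h' : Reg k) : Reg (k ∘ j) := by
  refine ⟨fun a b => (h'.le_iff _ _).trans (h.le_iff _ _), fun z => ?_, fun z => ?_⟩
  · rw [h.up_comp h']
    exact h'.up_le.1 (h.le_up _)
  · rw [h.dn_comp h']
    exact h'.le_dn.1 (h.dn_le _)

/-- the upper projection preserves meets of elements with nonzero lower projection -/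
def SP (j : L → M) : Prop :=
  ∀ z z' : M, dn j z ≠ ⊥ → dn j z' ≠ ⊥ → up j z ⊓ up j z' ≤ up j (z ⊓ z')

/-- the dual property -/
def SQ (j : L → M) : Prop :=
  ∀ z z' : M, up j z ≠ ⊤ → up j z' ≠ ⊤ → dn j (z ⊔ z') ≤ dn j z ⊔ dn j z'

/-- good embeddings -/
structure Good (j : L → M) : Prop where
  reg : Reg j
  sp : SP j
  sq : SQ j

lemma Good.dual {j : L → M} (h : Good j) : Good (L := Lᵒᵈ) (M := Mᵒᵈ) j :=
  ⟨h.reg.dual, h.sq, h.sp⟩

lemma Good.id : Good (id : L → L) := by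
  have h1 : ∀ z : L, up (_root_.id : L → L) z = z := fun z => Reg.id.up_j z
  have h2 : ∀ z : L, dn (_root_.id : L → L) z = z := fun z => Reg.id.dn_j z
  exact ⟨Reg.id, fun z z' _ _ => by simp [h1], fun z z' _ _ => by simp [h2]⟩

lemma SP.comp {j : L → M} {k : M → N} (h : Reg j) (h' : Reg k) (s : SP j) (s' : SP k) :
    SP (k ∘ j) := by
  intro z z' hz hz'
  rw [h.dn_comp h'] at hz hz'
  simp only [h.up_comp h']
  have b : ∀ y : M, dn j y ≠ ⊥ → y ≠ ⊥ := fun y hy e => hy (by rw [e, ← h.map_bot, h.dn_j])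
  have c : ∀ y : N, dn j (dn k y) ≠ ⊥ → dn j (up k y) ≠ ⊥ := fun y hy e =>
    hy (le_bot_iff.1 (e ▸ h.dn_mono (h'.dn_le_up y)))
  exact (s _ _ (c z hz) (c z' hz')).trans (h.up_mono (s' z z' (b _ hz) (b _ hz')))

lemma Good.comp {j : L → M} {k : M → N} (h : Good j) (h' : Good k) : Good (k ∘ j) :=
  ⟨h.reg.comp h'.reg, SP.comp h.reg h'.reg h.sp h'.sp,
    SP.comp (L := Lᵒᵈ) (M := Mᵒᵈ) (N := Nᵒᵈ) h.reg.dual h'.reg.dual h.sq h'.sq⟩

/-- join and meet density -/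
def Dens (D : Set M) : Prop :=
  ∀ x y : M, (∀ d ∈ D, ∀ d' ∈ D, d ≤ x → y ≤ d' → d ≤ d') → x ≤ y

lemma Dens.dual {D : Set M} (h : Dens D) : Dens (M := Mᵒᵈ) D :=
  fun x y hxy => h y x fun d hd d' hd' h1 h2 => hxy d' hd' d hd h2 h1

lemma Dens.low {D : Set M} (h : Dens D) {x y : M} (hxy : ∀ d ∈ D, d ≤ x → d ≤ y) : x ≤ y :=
  h x y fun d hd _ _ h1 h2 => (hxy d hd h1).trans h2

lemma Dens.high {D : Set M} (h : Dens D) {x y : M} (hxy : ∀ d ∈ D, y ≤ d → x ≤ d) : x ≤ y :=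
  h x y fun _ _ d' hd' h1 h2 => h1.trans (hxy d' hd' h2)

lemma SP.of_dense {j : L → M} (h : Reg j) (hL : MC L) {D : Set M} (hD : Dens D)
    (hsup : ∀ d ∈ D, ∀ d' ∈ D, d ⊔ d' ∈ D) (hj : ∀ a, j a ∈ D)
    (hs : ∀ z ∈ D, ∀ z' ∈ D, dn j z ≠ ⊥ → dn j z' ≠ ⊥ → up j z ⊓ up j z' ≤ up j (z ⊓ z')) :
    SP j := by
  have key : ∀ z : M, DirectedOn (· ≤ ·) (up j '' {d | d ∈ D ∧ d ≤ z ∧ j (dn j z) ≤ d}) ∧
      (up j '' {d | d ∈ D ∧ d ≤ z ∧ j (dn j z) ≤ d}).Nonempty ∧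
      up j z ≤ sSup (up j '' {d | d ∈ D ∧ d ≤ z ∧ j (dn j z) ≤ d}) := by
    intro z
    refine ⟨?_, ⟨_, j (dn j z), ⟨hj _, h.dn_le z, le_rfl⟩, rfl⟩, ?_⟩
    · rintro _ ⟨d, ⟨h1, h2, h3⟩, rfl⟩ _ ⟨d', ⟨h1', h2', _⟩, rfl⟩
      exact ⟨_, ⟨d ⊔ d', ⟨hsup d h1 d' h1', sup_le h2 h2', h3.trans le_sup_left⟩, rfl⟩,
        h.up_mono le_sup_left, h.up_mono le_sup_right⟩
    · refine h.up_le.2 (hD.low fun d hd hdz => h.up_le.1 ?_)
      exact (h.up_mono le_sup_left).trans (le_sSup ⟨d ⊔ j (dn j z),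
        ⟨hsup d hd _ (hj _), sup_le hdz (h.dn_le z), le_sup_right⟩, rfl⟩)
  intro z z' hz hz'
  obtain ⟨a1, a2, a3⟩ := key z
  obtain ⟨b1, b2, b3⟩ := key z'
  refine (inf_le_inf a3 b3).trans (hL.two a1 a2 b1 b2 ?_)
  rintro _ ⟨d, ⟨h1, h2, h3⟩, rfl⟩ _ ⟨d', ⟨h1', h2', h3'⟩, rfl⟩
  refine (hs d h1 d' h1' (fun e => hz ?_) (fun e => hz' ?_)).trans
    (h.up_mono (inf_le_inf h2 h2'))
  · exact le_bot_iff.1 (e ▸ h.le_dn.2 h3)
  · exact le_bot_iff.1 (e ▸ h.le_dn.2 h3')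

/-- complements with nontrivial projections come from the small lattice -/
lemma Good.compl_old {j : L → M} (h : Good j) (hL : AMU L) {x y : M} (hxy : IsCompl x y)
    (h1 : dn j x ≠ ⊥) (h2 : dn j y ≠ ⊥) (h3 : up j x ≠ ⊤) (h4 : up j y ≠ ⊤) :
    y = j (dn j y) ∧ IsCompl (dn j x) (dn j y) := by
  have a : up j x ⊓ up j y = ⊥ := by
    have := h.sp x y h1 h2
    rw [hxy.inf_eq_bot, ← h.reg.map_bot, h.reg.up_j] at this
    exact le_bot_iff.1 this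
  have b : dn j x ⊔ dn j y = ⊤ := by
    have := h.sq x y h3 h4
    rw [hxy.sup_eq_top, ← h.reg.map_top, h.reg.dn_j] at this
    exact top_le_iff.1 this
  have c1 : IsCompl (dn j x) (dn j y) := IsCompl.of_eq
    (le_bot_iff.1 (a ▸ inf_le_inf (h.reg.dn_le_up x) (h.reg.dn_le_up y))) b
  have c2 : IsCompl (dn j x) (up j y) := IsCompl.of_eq
    (le_bot_iff.1 (a ▸ inf_le_inf (h.reg.dn_le_up x) le_rfl))
    (top_le_iff.1 (b ▸ sup_le_sup le_rfl (h.reg.dn_le_up y)))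
  have e := hL _ _ _ c1 c2
  exact ⟨le_antisymm (e ▸ h.reg.le_up y) (h.reg.dn_le y), c1⟩

end Basic

/-- the Dedekind-MacNeille completion of a reflexive transitive relation -/
lemma exists_completion (P : Type) (r : P → P → Prop) (hr : ∀ a, r a a)
    (ht : ∀ a b c, r a b → r b c → r a c) :
    ∃ (M : Type) (_ : CompleteLattice M) (ι : P → M),
      (∀ s t, ι s ≤ ι t ↔ r s t) ∧ Dens (range ι) := by
  let _ : Preorder P := { le := r, le_refl := hr, le_trans := ht }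
  refine ⟨DedekindCut P, inferInstance, DedekindCut.principal,
    fun s t => DedekindCut.principal_le_principal, fun x y h => ?_⟩
  intro s hs
  have : s ∈ y.left := by
    rw [← DedekindCut.lowerBounds_right]
    intro t ht'
    exact DedekindCut.principal_le_principal.1 (h _ ⟨s, rfl⟩ _ ⟨t, rfl⟩
      (DedekindCut.principal_le_iff.2 hs) (DedekindCut.le_principal_iff.2 ht'))
  exact this

/-- finite pigeonhole principle on a directed set -/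
lemma pigeon {α β : Type*} {r : α → α → Prop} {I : Set α}
    (hI : DirectedOn r I) (hne : I.Nonempty) {B : Set β} (hB : B.Finite) (Q : β → α → Prop)
    (hQ : ∀ b s s', r s s' → Q b s' → Q b s) (h : ∀ s ∈ I, ∃ b ∈ B, Q b s) :
    ∃ b ∈ B, ∀ s ∈ I, Q b s := by
  by_contra hcon
  push Not at hcon
  have : ∃ s ∈ I, ∀ b ∈ B, ¬ Q b s := by
    clear h
    induction B, hB using Set.Finite.induction_on with
    | empty => obtain ⟨s, hs⟩ := hne; exact ⟨s, hs, fun b hb => absurd hb (notMem_empty b)⟩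
    | @insert a B _ _ ih =>
      obtain ⟨s, hs, h1⟩ := ih fun b hb => hcon b (mem_insert_of_mem _ hb)
      obtain ⟨s', hs', h2⟩ := hcon a (mem_insert _ _)
      obtain ⟨s'', hs'', h3, h4⟩ := hI s hs s' hs'
      refine ⟨s'', hs'', fun b hb hq => ?_⟩
      rcases hb with rfl | hb
      · exact h2 (hQ _ _ _ h4 hq)
      · exact h1 b hb (hQ _ _ _ h3 hq)
  obtain ⟨s, hs, h1⟩ := this
  obtain ⟨b, hb, h2⟩ := h s hs
  exact h1 b hb h2

lemma pigeon2 {α : Type*} {r : α → α → Prop} {I : Set α}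
    (hI : DirectedOn r I) {Q Q' : α → Prop}
    (hQ : ∀ s s', r s s' → Q s' → Q s) (hQ' : ∀ s s', r s s' → Q' s' → Q' s)
    (h : ∀ s ∈ I, Q s ∨ Q' s) : (∀ s ∈ I, Q s) ∨ ∀ s ∈ I, Q' s := by
  by_contra hcon
  push Not at hcon
  obtain ⟨⟨s, hs, h1⟩, s', hs', h2⟩ := hcon
  obtain ⟨s'', hs'', h3, h4⟩ := hI s hs s' hs'
  rcases h s'' hs'' with h | h
  · exact h1 (hQ _ _ h3 h)
  · exact h2 (hQ' _ _ h4 h)

section Thin
variable {α β α' β' : Type*}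

/-- a set of pairs without a sequence that is almost everywhere related across -/
def Thin (ρ : α → β → Prop) (E : Set (α × β)) : Prop :=
  ∀ (u : ℕ → α) (v : ℕ → β), (∀ k, (u k, v k) ∈ E) →
    ¬ ∀ᶠ k in hyperfilter ℕ, ∀ᶠ l in hyperfilter ℕ, ρ (u l) (v k)

/-- the complement of the relation is covered by countably many thin sets -/
def ST (ρ : α → β → Prop) : Prop :=
  ∃ 𝓔 : Set (Set (α × β)), 𝓔.Countable ∧ (∀ a b, ¬ ρ a b → ∃ E ∈ 𝓔, (a, b) ∈ E) ∧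
    ∀ E ∈ 𝓔, Thin ρ E

lemma ST.pull {ρ : α → β → Prop} (h : ST ρ) (f : α' → α) (g : β' → β) :
    ST (fun a b => ρ (f a) (g b)) := by
  obtain ⟨𝓔, hc, h1, h2⟩ := h
  refine ⟨(fun E => Prod.map f g ⁻¹' E) '' 𝓔, hc.image _, fun a b hab => ?_, ?_⟩
  · obtain ⟨E, hE, h⟩ := h1 _ _ hab
    exact ⟨_, ⟨E, hE, rfl⟩, h⟩
  · rintro _ ⟨E, hE, rfl⟩ u v huv
    exact h2 E hE (fun k => f (u k)) (fun k => g (v k)) huv

lemma ST.and {ρ σ : α → β → Prop} (h : ST ρ) (h' : ST σ) : ST (fun a b => ρ a b ∧ σ a b) := by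
  obtain ⟨𝓔, hc, h1, h2⟩ := h
  obtain ⟨𝓕, hc', h1', h2'⟩ := h'
  refine ⟨𝓔 ∪ 𝓕, hc.union hc', fun a b hab => ?_, ?_⟩
  · rcases not_and_or.1 hab with h | h
    · obtain ⟨E, hE, h⟩ := h1 _ _ h
      exact ⟨E, Or.inl hE, h⟩
    · obtain ⟨E, hE, h⟩ := h1' _ _ h
      exact ⟨E, Or.inr hE, h⟩
  · rintro E (hE | hE) u v huv hb
    · exact h2 E hE u v huv (hb.mono fun k hk => hk.mono fun l hl => hl.1)
    · exact h2' E hE u v huv (hb.mono fun k hk => hk.mono fun l hl => hl.2)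

lemma ST.or {ρ σ : α → β → Prop} (h : ST ρ) (h' : ST σ) : ST (fun a b => ρ a b ∨ σ a b) := by
  obtain ⟨𝓔, hc, h1, h2⟩ := h
  obtain ⟨𝓕, hc', h1', h2'⟩ := h'
  refine ⟨image2 (· ∩ ·) 𝓔 𝓕, hc.image2 hc' _, fun a b hab => ?_, ?_⟩
  · obtain ⟨E, hE, h⟩ := h1 _ _ (not_or.1 hab).1
    obtain ⟨F, hF, h'⟩ := h1' _ _ (not_or.1 hab).2
    exact ⟨E ∩ F, ⟨E, hE, F, hF, rfl⟩, h, h'⟩
  · rintro _ ⟨E, hE, F, hF, rfl⟩ u v huv hb
    simp only [Ultrafilter.eventually_or] at hb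
    rcases hb with hb | hb
    · exact h2 E hE u v (fun k => (huv k).1) hb
    · exact h2' F hF u v (fun k => (huv k).2) hb

lemma ST.left (P : α → Prop) : ST (fun (a : α) (_ : β) => P a) := by
  refine ⟨{{x : α × β | ¬ P x.1}}, countable_singleton _, fun a b h => ⟨_, rfl, h⟩, ?_⟩
  rintro _ rfl u v huv hb
  obtain ⟨k, hk⟩ := hb.exists
  obtain ⟨l, hl⟩ := hk.exists
  exact huv l hl

lemma ST.right (P : β → Prop) : ST (fun (_ : α) (b : β) => P b) := by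
  refine ⟨{{x : α × β | ¬ P x.2}}, countable_singleton _, fun a b h => ⟨_, rfl, h⟩, ?_⟩
  rintro _ rfl u v huv hb
  obtain ⟨k, hk⟩ := hb.exists
  obtain ⟨l, hl⟩ := hk.exists
  exact huv k hl

lemma ST.eq : ST (fun a b : α => a = b) := by
  refine ⟨{{x : α × α | x.1 ≠ x.2}}, countable_singleton _, fun a b h => ⟨_, rfl, h⟩, ?_⟩
  rintro _ rfl u v huv hb
  obtain ⟨k, hk⟩ := hb.exists
  obtain ⟨l, h1, h2⟩ := (hk.and hb).exists
  obtain ⟨m, h3, h4⟩ := (hk.and h2).exists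
  exact huv l (h1.trans (h3.symm.trans h4))

lemma ST.of_countable [Countable α] [Countable β] (ρ : α → β → Prop) : ST ρ := by
  refine ⟨(fun x => {x}) '' {x : α × β | ¬ ρ x.1 x.2}, (Set.to_countable _).image _,
    fun a b h => ⟨_, ⟨(a, b), h, rfl⟩, rfl⟩, ?_⟩
  rintro _ ⟨x, hx, rfl⟩ u v huv hb
  obtain ⟨k, hk⟩ := hb.exists
  obtain ⟨l, hl⟩ := hk.exists
  have e1 : u l = x.1 := congrArg Prod.fst (huv l)
  have e2 : v k = x.2 := congrArg Prod.snd (huv k)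
  rw [e1, e2] at hl
  exact hx hl

/-- transfer along witnesses in countably many relations -/
lemma ST.transfer {ι : Type*} [Countable ι] {A B : ι → Type*} {ρ : ∀ i, A i → B i → Prop}
    (h : ∀ i, ST (ρ i)) {σ : α → β → Prop} (lo : ∀ i, A i → α → Prop) (hi : ∀ i, B i → β → Prop)
    (h1 : ∀ x y, ¬ σ x y → ∃ i a b, lo i a x ∧ hi i b y ∧ ¬ ρ i a b)
    (h2 : ∀ i a b x y, lo i a x → hi i b y → σ x y → ρ i a b) : ST σ := by
  choose 𝓔 hc g1 g2 using h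
  refine ⟨⋃ i, (fun E => {z : α × β | ∃ a b, lo i a z.1 ∧ hi i b z.2 ∧ (a, b) ∈ E}) '' 𝓔 i,
    countable_iUnion fun i => (hc i).image _, fun x y hxy => ?_, ?_⟩
  · obtain ⟨i, a, b, a1, a2, a3⟩ := h1 x y hxy
    obtain ⟨E, hE, h⟩ := g1 i a b a3
    exact ⟨_, mem_iUnion.2 ⟨i, E, hE, rfl⟩, a, b, a1, a2, h⟩
  · intro F hF u v huv hb
    obtain ⟨i, E, hE, rfl⟩ := mem_iUnion.1 hF
    choose a b a1 a2 a3 using huv
    exact g2 i E hE a b a3 (hb.mono fun k hk => hk.mono fun l hl =>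
      h2 i _ _ _ _ (a1 l) (a2 k) hl)

end Thin

/-- the invariant of the construction -/
structure Inv (L : Type*) [CompleteLattice L] : Prop where
  mc : MC L
  jc : JC L
  amu : AMU L
  nt : (⊥ : L) ≠ ⊤
  st : ST (fun a b : L => a ≤ b)

end Pool.Agent.H665Z.UC
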