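import Pool.Agent.H665Z.UCTerm

set_option autoImplicit false
open Set Filter

namespace Pool.Agent.H665Z.UC
open Tm

lemma Reg.old_of {L M : Type*} [CompleteLattice L] [CompleteLattice M] {j : L → M} (h : Reg j)
    (hL : AMU L) {x y : M} (a : up j x ⊓ up j y = ⊥) (b : dn j x ⊔ dn j y = ⊤) :
    y = j (dn j y) ∧ IsCompl (dn j x) (dn j y) := by
  have c1 : IsCompl (dn j x) (dn j y) := IsCompl.of_eq
    (le_bot_iff.1 (a ▸ inf_le_inf (h.dn_le_up x) (h.dn_le_up y))) b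
  have c2 : IsCompl (dn j x) (up j y) := IsCompl.of_eq
    (le_bot_iff.1 (a ▸ inf_le_inf (h.dn_le_up x) le_rfl))
    (top_le_iff.1 (b ▸ sup_le_sup le_rfl (h.dn_le_up y)))
  have e := hL _ _ _ c1 c2
  exact ⟨le_antisymm (e ▸ h.le_up y) (h.dn_le y), c1⟩

section Ext
variable {L Y M : Type} [CompleteLattice L] [CompleteLattice M] {lab : Y → L}

/-- `ι` is a completion of the order on terms -/
structure Cp (lab : Y → L) (ι : Tm L Y → M) : Prop where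
  hl : Lab lab
  le : ∀ s t, ι s ≤ ι t ↔ Le lab s t
  dens : Dens (range ι)

variable {ι : Tm L Y → M}

lemma Cp.sup (h : Cp lab ι) (s t : Tm L Y) : ι (.sup s t) = ι s ⊔ ι t := by
  refine le_antisymm (h.dens.high ?_)
    (sup_le ((h.le _ _).2 (.supR1 (Le.refl _))) ((h.le _ _).2 (.supR2 (Le.refl _))))
  rintro _ ⟨u, rfl⟩ hu
  exact (h.le _ _).2 (.supL ((h.le _ _).1 (le_sup_left.trans hu))
    ((h.le _ _).1 (le_sup_right.trans hu)))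

lemma Cp.inf (h : Cp lab ι) (s t : Tm L Y) : ι (.inf s t) = ι s ⊓ ι t := by
  refine le_antisymm
    (le_inf ((h.le _ _).2 (.infL1 (Le.refl _))) ((h.le _ _).2 (.infL2 (Le.refl _))))
    (h.dens.low ?_)
  rintro _ ⟨u, rfl⟩ hu
  exact (h.le _ _).2 (.infR ((h.le _ _).1 (hu.trans inf_le_left))
    ((h.le _ _).1 (hu.trans inf_le_right)))

lemma Cp.reg (h : Cp lab ι) : Reg (fun w : L => ι (.c w)) := by
  refine ⟨fun a b => (h.le _ _).trans (c_le h.hl), fun z => h.dens.low ?_,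
    fun z => h.dens.high ?_⟩
  · rintro _ ⟨t, rfl⟩ ht
    exact (h.le _ _).2 ((le_c h.hl).2 (le_sInf fun w hw =>
      (le_c h.hl).1 ((h.le _ _).1 (ht.trans hw))))
  · rintro _ ⟨t, rfl⟩ ht
    exact (h.le _ _).2 ((c_le h.hl).2 (sSup_le fun w hw =>
      (c_le h.hl).1 ((h.le _ _).1 (le_trans hw ht))))

lemma Cp.up (h : Cp lab ι) (t : Tm L Y) : up (fun w : L => ι (.c w)) (ι t) = hi lab t :=
  up_eq_of fun _ => (h.le _ _).trans (le_c h.hl)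

lemma Cp.dn (h : Cp lab ι) (t : Tm L Y) : dn (fun w : L => ι (.c w)) (ι t) = lo lab t :=
  dn_eq_of fun _ => (h.le _ _).trans (c_le h.hl)

lemma Cp.good (h : Cp lab ι) (hm : MC L) (hj : JC L) : Good (fun w : L => ι (.c w)) := by
  refine ⟨h.reg, SP.of_dense h.reg hm h.dens ?_ (fun a => ⟨_, rfl⟩) ?_,
    SP.of_dense (L := Lᵒᵈ) (M := Mᵒᵈ) h.reg.dual hj.dual h.dens.dual ?_ (fun a => ⟨_, rfl⟩) ?_⟩
  · rintro _ ⟨s, rfl⟩ _ ⟨t, rfl⟩
    exact ⟨.sup s t, h.sup s t⟩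
  · rintro _ ⟨s, rfl⟩ _ ⟨t, rfl⟩ h1 h2
    rw [h.dn] at h1 h2
    rw [← h.inf, h.up, h.up, h.up, hi_inf_neg]
    rintro ⟨a, k | k, -⟩
    · exact h1 ((consist h.hl s).2.2.1 a k)
    · exact h2 ((consist h.hl t).2.2.1 a k)
  · rintro _ ⟨s, rfl⟩ _ ⟨t, rfl⟩
    exact ⟨.inf s t, h.inf s t⟩
  · rintro _ ⟨s, rfl⟩ _ ⟨t, rfl⟩ h1 h2
    change UC.up (fun w : L => ι (.c w)) (ι s) ≠ ⊤ at h1
    change UC.up (fun w : L => ι (.c w)) (ι t) ≠ ⊤ at h2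
    change UC.dn (fun w : L => ι (.c w)) (ι s ⊔ ι t) ≤
      UC.dn (fun w : L => ι (.c w)) (ι s) ⊔ UC.dn (fun w : L => ι (.c w)) (ι t)
    rw [h.up] at h1 h2
    rw [← h.sup, h.dn, h.dn, h.dn, lo_sup_neg]
    rintro ⟨a, k | k, -⟩
    · exact h1 ((consist h.hl s).2.1 a k)
    · exact h2 ((consist h.hl t).2.1 a k)

lemma Cp.mc (h : Cp lab ι) (hm : MC L) : MC M := by
  intro s hs hne y v hv
  refine h.dens _ _ ?_
  rintro _ ⟨t, rfl⟩ _ ⟨u, rfl⟩ ht hu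
  refine (h.le _ _).2 (km h.hl hm (I := {r | ∃ x ∈ s, ι r ≤ x}) ?_ ?_ ?_ u ?_)
  · rintro r ⟨x, hx, h1⟩ r' ⟨x', hx', h2⟩
    obtain ⟨x'', h3, h4, h5⟩ := hs x hx x' hx'
    exact ⟨.sup r r', ⟨x'', h3, by rw [h.sup]; exact sup_le (h1.trans h4) (h2.trans h5)⟩,
      .supR1 (Le.refl _), .supR2 (Le.refl _)⟩
  · obtain ⟨x, hx⟩ := hne
    exact ⟨.c ⊥, x, hx, h.reg.map_bot.le.trans bot_le⟩
  · intro u' hu'
    refine (h.le _ _).1 ((ht.trans inf_le_left).trans (sSup_le fun x hx => h.dens.low ?_))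
    rintro _ ⟨r, rfl⟩ hr
    exact (h.le _ _).2 (hu' r ⟨x, hx, hr⟩)
  · rintro r ⟨x, hx, h1⟩
    refine (h.le _ _).1 ?_
    rw [h.inf]
    exact ((inf_le_inf h1 (ht.trans inf_le_right)).trans (hv x hx)).trans hu

lemma Cp.jc (h : Cp lab ι) (hm : JC L) : JC M := by
  intro s hs hne y v hv
  refine h.dens _ _ ?_
  rintro _ ⟨u, rfl⟩ _ ⟨t, rfl⟩ hu ht
  refine (h.le _ _).2 (kj h.hl hm (I := {r | ∃ x ∈ s, x ≤ ι r}) ?_ ?_ ?_ u ?_)
  · rintro r ⟨x, hx, h1⟩ r' ⟨x', hx', h2⟩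
    obtain ⟨x'', h3, h4, h5⟩ := hs x hx x' hx'
    exact ⟨.inf r r', ⟨x'', h3, by rw [h.inf]; exact le_inf (le_trans h4 h1) (le_trans h5 h2)⟩,
      .infL1 (Le.refl _), .infL2 (Le.refl _)⟩
  · obtain ⟨x, hx⟩ := hne
    exact ⟨.c ⊤, x, hx, le_top.trans h.reg.map_top.ge⟩
  · intro u' hu'
    refine (h.le _ _).1 (le_trans (le_sInf fun x hx => h.dens.high ?_) (le_sup_left.trans ht))
    rintro _ ⟨r, rfl⟩ hr
    exact (h.le _ _).2 (hu' r ⟨x, hx, hr⟩)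
  · rintro r ⟨x, hx, h1⟩
    refine (h.le _ _).1 ?_
    rw [h.sup]
    exact hu.trans ((hv x hx).trans (sup_le_sup h1 (le_sup_right.trans ht)))

lemma spL_comm {s t : Tm L Y} (h : spL lab s t) : spL lab t s := by
  obtain ⟨a, h1, h2⟩ := h
  exact ⟨a, h1.symm, by rwa [sup_comm]⟩

lemma spU_comm {s t : Tm L Y} (h : spU lab s t) : spU lab t s := by
  obtain ⟨a, h1, h2⟩ := h
  exact ⟨a, h1.symm, by rwa [inf_comm]⟩

lemma Cp.jstar (h : Cp lab ι) (hm : JC L) {x y : M} (hxy : x ⊔ y = ⊤) (hx : x ≠ ⊤) (hy : y ≠ ⊤) :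
    UC.dn (fun w : L => ι (.c w)) x ⊔ UC.dn (fun w : L => ι (.c w)) y = ⊤ ∨
      ∃ a, (ι (.g a) ≤ x ∨ ι (.g a) ≤ y) ∧
        lab a ≤ UC.dn (fun w : L => ι (.c w)) x ⊔ UC.dn (fun w : L => ι (.c w)) y := by
  have H := h.hl
  have dir : ∀ z : M, DirectedOn (fun a b => Le lab b a) {u | z ≤ ι u} := fun z u hu v hv =>
    ⟨.inf u v, by simp only [mem_ofPred_eq, h.inf]; exact le_inf hu hv,
      .infL1 (Le.refl _), .infL2 (Le.refl _)⟩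
  have ne : ∀ z : M, {u | z ≤ ι u}.Nonempty := fun z => ⟨.c ⊤, le_top.trans h.reg.map_top.ge⟩
  have dir' : ∀ z : M, DirectedOn (· ≥ ·) (lo lab '' {u | z ≤ ι u}) := by
    rintro z _ ⟨s, hs, rfl⟩ _ ⟨s', hs', rfl⟩
    obtain ⟨s'', h1, h2, h3⟩ := dir z s hs s' hs'
    exact ⟨_, ⟨s'', h1, rfl⟩, (h2.mono_lo H).1, (h3.mono_lo H).1⟩
  have inf_le : ∀ z : M, sInf (lo lab '' {u | z ≤ ι u}) ≤ UC.dn (fun w : L => ι (.c w)) z := by
    intro z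
    refine h.reg.le_dn.2 (h.dens.high ?_)
    rintro _ ⟨u, rfl⟩ hu
    exact (h.le _ _).2 ((c_le H).2 (sInf_le ⟨u, hu, rfl⟩))
  have key : ∀ w, (∀ u v, x ≤ ι u → y ≤ ι v → w ≤ lo lab u ⊔ lo lab v) →
      w ≤ UC.dn (fun w : L => ι (.c w)) x ⊔ UC.dn (fun w : L => ι (.c w)) y := fun w hw =>
    (hm.two (dir' x) ((ne x).image _) (dir' y) ((ne y).image _) (by
      rintro _ ⟨u, hu, rfl⟩ _ ⟨v, hv, rfl⟩; exact hw u v hu hv)).trans
      (sup_le_sup (inf_le x) (inf_le y))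
  have top : ∀ u v, x ≤ ι u → y ≤ ι v → lo lab (.sup u v) = ⊤ := fun u v hu hv => by
    have e : ι u ⊔ ι v = ⊤ := top_le_iff.1 (hxy ▸ sup_le_sup hu hv)
    rw [← h.dn, h.sup, e, ← h.reg.map_top, h.reg.dn_j]
  by_cases hsp : ∃ u v, x ≤ ι u ∧ y ≤ ι v ∧ ¬ spL lab u v
  · obtain ⟨u0, v0, h1, h2, h3⟩ := hsp
    refine Or.inl (top_le_iff.1 (key ⊤ fun u v hu hv => ?_))
    have := top (.inf u u0) (.inf v v0) (by rw [h.inf]; exact le_inf hu h1)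
      (by rw [h.inf]; exact le_inf hv h2)
    rw [lo_sup_neg fun k => h3 (spL_comm (spL_mono H (.infL2 (Le.refl _))
      (spL_comm (spL_mono H (.infL2 (Le.refl _)) k))))] at this
    rw [← this, lo_inf, lo_inf]
    exact sup_le_sup inf_le_left inf_le_left
  · push Not at hsp
    have ex : ∀ z : M, z ≠ ⊤ → ∃ u, z ≤ ι u ∧ lo lab u ≠ ⊤ := by
      intro z hz
      by_contra hcon
      push Not at hcon
      refine hz (top_le_iff.1 (h.dens.high ?_))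
      rintro _ ⟨u, rfl⟩ hu
      rw [← h.reg.map_top]
      exact (h.le _ _).2 ((c_le H).2 (hcon u hu).ge)
    obtain ⟨u0, h1, h2⟩ := ex x hx
    obtain ⟨v0, h3, h4⟩ := ex y hy
    have hd : DirectedOn (fun p q : Tm L Y × Tm L Y => Le lab q.1 p.1 ∧ Le lab q.2 p.2)
        {p | x ≤ ι p.1 ∧ y ≤ ι p.2} := by
      intro p hp q hq
      obtain ⟨a, a1, a2, a3⟩ := dir x p.1 hp.1 q.1 hq.1
      obtain ⟨b, b1, b2, b3⟩ := dir y p.2 hp.2 q.2 hq.2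
      exact ⟨(a, b), ⟨a1, b1⟩, ⟨a2, b2⟩, a3, b3⟩
    obtain ⟨a, -, ha⟩ := pigeon hd ⟨(u0, v0), h1, h3⟩ ((gl_finite u0 h2).union (gl_finite v0 h4))
      (fun a p => (gl lab p.1 a ∨ gl lab p.2 a) ∧ lab a ≤ lo lab p.1 ⊔ lo lab p.2)
      (fun a p q k hq => ⟨hq.1.imp ((k.1.mono_lo H).2 a) ((k.2.mono_lo H).2 a),
        hq.2.trans (sup_le_sup (k.1.mono_lo H).1 (k.2.mono_lo H).1)⟩)
      (fun p hp => by
        obtain ⟨q, k1, k2, k3⟩ := hd p hp (u0, v0) ⟨h1, h3⟩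
        obtain ⟨a, k4, k5⟩ := hsp q.1 q.2 k1.1 k1.2
        exact ⟨a, k4.imp ((k3.1.mono_lo H).2 a) ((k3.2.mono_lo H).2 a),
          k4.imp ((k2.1.mono_lo H).2 a) ((k2.2.mono_lo H).2 a),
          k5.trans (sup_le_sup (k2.1.mono_lo H).1 (k2.2.mono_lo H).1)⟩)
    refine Or.inr ⟨a, ?_, key _ fun u v hu hv => (ha (u, v) ⟨hu, hv⟩).2⟩
    by_cases k : ∀ u, x ≤ ι u → gl lab u a
    · refine Or.inl (h.dens.high ?_)
      rintro _ ⟨u, rfl⟩ hu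
      exact (h.le _ _).2 ((g_le H).2 (k u hu))
    · push Not at k
      obtain ⟨u, hu, k⟩ := k
      refine Or.inr (h.dens.high ?_)
      rintro _ ⟨v, rfl⟩ hv
      exact (h.le _ _).2 ((g_le H).2 ((ha (u, v) ⟨hu, hv⟩).1.resolve_left k))

lemma Cp.dstar (h : Cp lab ι) (hm : MC L) {x y : M} (hxy : x ⊓ y = ⊥) (hx : x ≠ ⊥) (hy : y ≠ ⊥) :
    UC.up (fun w : L => ι (.c w)) x ⊓ UC.up (fun w : L => ι (.c w)) y = ⊥ ∨
      ∃ a, (x ≤ ι (.g a) ∨ y ≤ ι (.g a)) ∧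
        UC.up (fun w : L => ι (.c w)) x ⊓ UC.up (fun w : L => ι (.c w)) y ≤ lab a := by
  have H := h.hl
  have dir : ∀ z : M, DirectedOn (Le lab) {u | ι u ≤ z} := fun z u hu v hv =>
    ⟨.sup u v, by simp only [mem_ofPred_eq, h.sup]; exact sup_le hu hv,
      .supR1 (Le.refl _), .supR2 (Le.refl _)⟩
  have ne : ∀ z : M, {u | ι u ≤ z}.Nonempty := fun z => ⟨.c ⊥, h.reg.map_bot.le.trans bot_le⟩
  have dir' : ∀ z : M, DirectedOn (· ≤ ·) (hi lab '' {u | ι u ≤ z}) := by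
    rintro z _ ⟨s, hs, rfl⟩ _ ⟨s', hs', rfl⟩
    obtain ⟨s'', h1, h2, h3⟩ := dir z s hs s' hs'
    exact ⟨_, ⟨s'', h1, rfl⟩, (h2.mono_hi H).1, (h3.mono_hi H).1⟩
  have le_sup : ∀ z : M, UC.up (fun w : L => ι (.c w)) z ≤ sSup (hi lab '' {u | ι u ≤ z}) := by
    intro z
    refine h.reg.up_le.2 (h.dens.low ?_)
    rintro _ ⟨u, rfl⟩ hu
    exact (h.le _ _).2 ((le_c H).2 (le_sSup ⟨u, hu, rfl⟩))
  have key : ∀ w, (∀ u v, ι u ≤ x → ι v ≤ y → hi lab u ⊓ hi lab v ≤ w) →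
      UC.up (fun w : L => ι (.c w)) x ⊓ UC.up (fun w : L => ι (.c w)) y ≤ w := fun w hw =>
    (inf_le_inf (le_sup x) (le_sup y)).trans
      (hm.two (dir' x) ((ne x).image _) (dir' y) ((ne y).image _) (by
        rintro _ ⟨u, hu, rfl⟩ _ ⟨v, hv, rfl⟩; exact hw u v hu hv))
  have bot : ∀ u v, ι u ≤ x → ι v ≤ y → hi lab (.inf u v) = ⊥ := fun u v hu hv => by
    have e : ι u ⊓ ι v = ⊥ := le_bot_iff.1 (hxy ▸ inf_le_inf hu hv)
    rw [← h.up, h.inf, e, ← h.reg.map_bot, h.reg.up_j]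
  by_cases hsp : ∃ u v, ι u ≤ x ∧ ι v ≤ y ∧ ¬ spU lab u v
  · obtain ⟨u0, v0, h1, h2, h3⟩ := hsp
    refine Or.inl (le_bot_iff.1 (key ⊥ fun u v hu hv => ?_))
    have := bot (.sup u u0) (.sup v v0) (by rw [h.sup]; exact sup_le hu h1)
      (by rw [h.sup]; exact sup_le hv h2)
    rw [hi_inf_neg fun k => h3 (spU_comm (spU_mono H (.supR2 (Le.refl _))
      (spU_comm (spU_mono H (.supR2 (Le.refl _)) k))))] at this
    rw [← this, hi_sup, hi_sup]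
    exact inf_le_inf le_sup_left le_sup_left
  · push Not at hsp
    have ex : ∀ z : M, z ≠ ⊥ → ∃ u, ι u ≤ z ∧ hi lab u ≠ ⊥ := by
      intro z hz
      by_contra hcon
      push Not at hcon
      refine hz (le_bot_iff.1 (h.dens.low ?_))
      rintro _ ⟨u, rfl⟩ hu
      rw [← h.reg.map_bot]
      exact (h.le _ _).2 ((le_c H).2 (hcon u hu).le)
    obtain ⟨u0, h1, h2⟩ := ex x hx
    obtain ⟨v0, h3, h4⟩ := ex y hy
    have hd : DirectedOn (fun p q : Tm L Y × Tm L Y => Le lab p.1 q.1 ∧ Le lab p.2 q.2)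
        {p | ι p.1 ≤ x ∧ ι p.2 ≤ y} := by
      intro p hp q hq
      obtain ⟨a, a1, a2, a3⟩ := dir x p.1 hp.1 q.1 hq.1
      obtain ⟨b, b1, b2, b3⟩ := dir y p.2 hp.2 q.2 hq.2
      exact ⟨(a, b), ⟨a1, b1⟩, ⟨a2, b2⟩, a3, b3⟩
    obtain ⟨a, -, ha⟩ := pigeon hd ⟨(u0, v0), h1, h3⟩ ((gu_finite u0 h2).union (gu_finite v0 h4))
      (fun a p => (gu lab p.1 a ∨ gu lab p.2 a) ∧ hi lab p.1 ⊓ hi lab p.2 ≤ lab a)
      (fun a p q k hq => ⟨hq.1.imp ((k.1.mono_hi H).2 a) ((k.2.mono_hi H).2 a),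
        (inf_le_inf (k.1.mono_hi H).1 (k.2.mono_hi H).1).trans hq.2⟩)
      (fun p hp => by
        obtain ⟨q, k1, k2, k3⟩ := hd p hp (u0, v0) ⟨h1, h3⟩
        obtain ⟨a, k4, k5⟩ := hsp q.1 q.2 k1.1 k1.2
        exact ⟨a, k4.imp ((k3.1.mono_hi H).2 a) ((k3.2.mono_hi H).2 a),
          k4.imp ((k2.1.mono_hi H).2 a) ((k2.2.mono_hi H).2 a),
          (inf_le_inf (k2.1.mono_hi H).1 (k2.2.mono_hi H).1).trans k5⟩)
    refine Or.inr ⟨a, ?_, key _ fun u v hu hv => (ha (u, v) ⟨hu, hv⟩).2⟩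
    by_cases k : ∀ u, ι u ≤ x → gu lab u a
    · refine Or.inl (h.dens.low ?_)
      rintro _ ⟨u, rfl⟩ hu
      exact (h.le _ _).2 ((le_g H).2 (k u hu))
    · push Not at k
      obtain ⟨u, hu, k⟩ := k
      refine Or.inr (h.dens.low ?_)
      rintro _ ⟨v, rfl⟩ hv
      exact (h.le _ _).2 ((le_g H).2 ((ha (u, v) ⟨hu, hv⟩).1.resolve_left k))

lemma Cp.isCompl (h : Cp lab ι) (a : Y) : IsCompl (ι (.c (lab a))) (ι (.g a)) := by
  refine IsCompl.of_eq (le_bot_iff.1 ?_) (top_le_iff.1 ?_)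
  · rw [← h.inf, ← h.reg.map_bot]
    exact (h.le _ _).2 ((le_c h.hl).2 (hi_inf_pos (s := .c (lab a)) (t := .g a)
      ⟨a, Or.inr rfl, inf_le_left⟩).le)
  · rw [← h.sup, ← h.reg.map_top]
    exact (h.le _ _).2 ((c_le h.hl).2 (lo_sup_pos (s := .c (lab a)) (t := .g a)
      ⟨a, Or.inr rfl, le_sup_left⟩).ge)

lemma Cp.g_inj (h : Cp lab ι) {a b : Y} (hab : ι (.g a) ≤ ι (.g b)) : a = b :=
  (g_le h.hl).1 ((h.le _ _).1 hab)

lemma Cp.cls_aux (h : Cp lab ι) (hm : MC L) {x y : M} (hxy : IsCompl x y) (hx : x ≠ ⊥)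
    (hy : y ≠ ⊥) {a : Y} (h1 : ι (.g a) ≤ x)
    (h2 : lab a ≤ UC.dn (fun w : L => ι (.c w)) x ⊔ UC.dn (fun w : L => ι (.c w)) y) :
    x = ι (.g a) ∧ y = ι (.c (lab a)) := by
  have ux : UC.up (fun w : L => ι (.c w)) x = ⊤ :=
    top_le_iff.1 (le_trans (by rw [h.up]; exact le_rfl) (h.reg.up_mono h1))
  rcases h.dstar hm hxy.inf_eq_bot hx hy with k | ⟨b, k | k, k'⟩
  · rw [ux, top_inf_eq] at k
    exact absurd (le_bot_iff.1 ((h.reg.up_le.1 k.le).trans h.reg.map_bot.le)) hy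
  · have e := h.g_inj (h1.trans k)
    subst e
    have ex : x = ι (.g a) := le_antisymm k h1
    rw [ux, top_inf_eq] at k'
    rw [ex, h.dn, lo_g, bot_sup_eq] at h2
    exact ⟨ex, le_antisymm (h.reg.up_le.1 k') (h.reg.le_dn.1 h2)⟩
  · rw [ux, top_inf_eq] at k'
    exact absurd (le_bot_iff.1 ((le_inf (h.reg.up_le.1 k') k).trans
      (h.isCompl b).inf_eq_bot.le)) hy

lemma Cp.cls (h : Cp lab ι) (hL : Inv L) {x y : M} (hxy : IsCompl x y) :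
    (∃ a b : L, IsCompl a b ∧ x = ι (.c a) ∧ y = ι (.c b)) ∨
      (∃ a, x = ι (.g a) ∧ y = ι (.c (lab a))) ∨ ∃ a, x = ι (.c (lab a)) ∧ y = ι (.g a) := by
  by_cases hx : x = ⊥
  · refine Or.inl ⟨⊥, ⊤, isCompl_bot_top, hx.trans h.reg.map_bot.symm, ?_⟩
    subst hx
    exact (eq_top_of_bot_isCompl hxy).trans h.reg.map_top.symm
  by_cases hy : y = ⊥
  · refine Or.inl ⟨⊤, ⊥, isCompl_top_bot, ?_, hy.trans h.reg.map_bot.symm⟩
    subst hy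
    exact (eq_top_of_isCompl_bot hxy).trans h.reg.map_top.symm
  have hx' : x ≠ ⊤ := fun e => hy (eq_bot_of_top_isCompl (e ▸ hxy))
  have hy' : y ≠ ⊤ := fun e => hx (eq_bot_of_isCompl_top (e ▸ hxy))
  rcases h.jstar hL.jc hxy.sup_eq_top hx' hy' with k | ⟨a, k | k, k'⟩
  · rcases h.dstar hL.mc hxy.inf_eq_bot hx hy with l | ⟨b, l | l, -⟩
    · obtain ⟨e1, c1⟩ := h.reg.old_of hL.amu l k
      obtain ⟨e2, -⟩ := h.reg.old_of hL.amu (by rwa [inf_comm] at l) (by rwa [sup_comm] at k)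
      exact Or.inl ⟨_, _, c1, e2, e1⟩
    · have := h.reg.dn_mono l
      rw [h.dn, lo_g, le_bot_iff] at this
      rw [this, bot_sup_eq] at k
      exact absurd (top_le_iff.1 (h.reg.map_top.ge.trans (h.reg.le_dn.1 k.ge))) hy'
    · have := h.reg.dn_mono l
      rw [h.dn, lo_g, le_bot_iff] at this
      rw [this, sup_bot_eq] at k
      exact absurd (top_le_iff.1 (h.reg.map_top.ge.trans (h.reg.le_dn.1 k.ge))) hx'
  · exact Or.inr (Or.inl ⟨a, h.cls_aux hL.mc hxy hx hy k k'⟩)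
  · exact Or.inr (Or.inr ⟨a, (h.cls_aux hL.mc hxy.symm hy hx k (by rwa [sup_comm])).symm⟩)

lemma Cp.amu (h : Cp lab ι) (hL : Inv L) (hinj : Function.Injective lab)
    (hA : ∀ a b, ¬ IsCompl (lab a) b) : AMU M := by
  have cg : ∀ (w : L) (a : Y), ι (.c w) ≠ ι (.g a) := by
    intro w a e
    have h1 := (c_le h.hl).1 ((h.le _ _).1 e.le)
    have h2 := (le_c h.hl).1 ((h.le _ _).1 e.ge)
    exact h.hl.nt (le_antisymm bot_le (h2.trans h1))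
  intro x y z hy hz
  rcases h.cls hL hy with ⟨a, b, c, e1, e2⟩ | ⟨a, e1, e2⟩ | ⟨a, e1, e2⟩ <;>
  rcases h.cls hL hz with ⟨a', b', c', e1', e2'⟩ | ⟨a', e1', e2'⟩ | ⟨a', e1', e2'⟩
  · have e : a = a' := h.reg.inj (e1.symm.trans e1')
    subst e
    rw [e2, e2', hL.amu _ _ _ c c']
  · exact absurd (e1.symm.trans e1') (cg _ _)
  · have e : a = lab a' := h.reg.inj (e1.symm.trans e1')
    exact absurd (e ▸ c) (hA _ _)
  · exact absurd (e1'.symm.trans e1) (cg _ _)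
  · rw [e2, e2', h.g_inj (e1.symm.trans e1').le]
  · exact absurd (e1'.symm.trans e1) (cg _ _)
  · have e : a' = lab a := h.reg.inj (e1'.symm.trans e1)
    exact absurd (e ▸ c') (hA _ _)
  · exact absurd (e1.symm.trans e1') (cg _ _)
  · rw [e2, e2', hinj (h.reg.inj (e1.symm.trans e1'))]

lemma Cp.st (h : Cp lab ι) (hL : ST (fun a b : L => a ≤ b)) : ST (fun a b : M => a ≤ b) :=
  ST.transfer (ι := Unit) (A := fun _ => Tm L Y) (B := fun _ => Tm L Y) (ρ := fun _ => Le lab)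
    (fun _ => st_le hL) (fun _ a x => ι a ≤ x) (fun _ b y => y ≤ ι b)
    (fun x y hxy => by
      by_contra hcon
      push Not at hcon
      refine hxy (h.dens _ _ ?_)
      rintro _ ⟨s, rfl⟩ _ ⟨t, rfl⟩ h1 h2
      exact (h.le _ _).2 (hcon () s t h1 h2))
    (fun _ a b x y h1 h2 h3 => (h.le _ _).1 (h1.trans (h3.trans h2)))

end Ext

/-- the successor step: complements are adjoined freely and the result is completed -/
theorem exists_ext (L : Type) [CompleteLattice L] (hL : Inv L) :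
    ∃ (M : Type) (_ : CompleteLattice M) (j : L → M), Good j ∧ Inv M ∧
      (∀ a, ∃ b, IsCompl (j a) b) ∧
      ∀ a a' b b', (¬ ∃ c, IsCompl a c) → (¬ ∃ c, IsCompl a' c) → IsCompl (j a) b →
        IsCompl (j a') b' → b ≤ b' → a = a' := by
  let Y := {a : L // ¬ ∃ c, IsCompl a c}
  have H : Lab (Subtype.val : Y → L) :=
    ⟨hL.nt, fun a e => a.2 ⟨⊤, e ▸ isCompl_bot_top⟩, fun a e => a.2 ⟨⊥, e ▸ isCompl_top_bot⟩⟩
  obtain ⟨M, inst, ι, h1, h2⟩ := exists_completion (Tm L Y) (Le Subtype.val) Le.refl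
    (fun _ _ _ h h' => h.trans H h')
  have h : Cp (Subtype.val : Y → L) ι := ⟨H, h1, h2⟩
  have hamu := h.amu hL Subtype.val_injective fun a b c => a.2 ⟨b, c⟩
  refine ⟨M, inst, fun w => ι (.c w), h.good hL.mc hL.jc,
    ⟨h.mc hL.mc, h.jc hL.jc, hamu, fun e => hL.nt (h.reg.inj ?_), h.st hL.st⟩, fun a => ?_, ?_⟩
  · rw [h.reg.map_bot, h.reg.map_top, e]
  · by_cases ha : ∃ c, IsCompl a c
    · obtain ⟨c, hc⟩ := ha
      exact ⟨_, h.reg.isCompl hc⟩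
    · exact ⟨_, h.isCompl ⟨a, ha⟩⟩
  · intro a a' b b' ha ha' c c' hb
    rw [hamu _ _ _ c (h.isCompl ⟨a, ha⟩), hamu _ _ _ c' (h.isCompl ⟨a', ha'⟩)] at hb
    exact congrArg Subtype.val (h.g_inj hb)

end Pool.Agent.H665Z.UC
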