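import Pool.Agent.H665Z.UCExt

set_option autoImplicit false
open Set Filter

namespace Pool.Agent.H665Z.UC

section Lim
variable {ι : Type} [LinearOrder ι] {L : ι → Type} [∀ i, CompleteLattice (L i)]
  {M : Type} [CompleteLattice M]

/-- `M` is the completion of the union of a chain of good embeddings -/
structure Lim (φ : ∀ i, L i → M) : Prop where
  le : ∀ i a b, φ i a ≤ φ i b ↔ a ≤ b
  link : ∀ i k, i ≤ k → ∃ J : L i → L k, Good J ∧ ∀ a, φ k (J a) = φ i a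
  dens : Dens (⋃ i, range (φ i))

variable {φ : ∀ i, L i → M}

lemma Lim.dual (h : Lim φ) : Lim (L := fun i => (L i)ᵒᵈ) (M := Mᵒᵈ) φ :=
  ⟨fun i a b => h.le i b a, fun i k hik => by
    obtain ⟨J, h1, h2⟩ := h.link i k hik
    exact ⟨J, h1.dual, h2⟩, h.dens.dual⟩

lemma Lim.lift (h : Lim φ) {d : M} (hd : d ∈ ⋃ i, range (φ i)) :
    ∃ k, ∀ m, k ≤ m → ∃ a, φ m a = d := by
  obtain ⟨k, a, rfl⟩ := mem_iUnion.1 hd
  refine ⟨k, fun m hm => ?_⟩
  obtain ⟨J, -, hJ⟩ := h.link k m hm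
  exact ⟨J a, hJ a⟩

lemma Lim.dens' (h : Lim φ) (i : ι) {x y : M}
    (hxy : ∀ k, i ≤ k → ∀ a b : L k, φ k a ≤ x → y ≤ φ k b → a ≤ b) : x ≤ y := by
  refine h.dens _ _ fun d hd d' hd' h1 h2 => ?_
  obtain ⟨k, hk⟩ := h.lift hd
  obtain ⟨l, hl⟩ := h.lift hd'
  obtain ⟨a, rfl⟩ := hk (max i (max k l)) (le_max_of_le_right (le_max_left _ _))
  obtain ⟨b, rfl⟩ := hl (max i (max k l)) (le_max_of_le_right (le_max_right _ _))
  exact (h.le _ _ _).2 (hxy _ (le_max_left _ _) a b h1 h2)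

lemma Lim.dn_le (h : Lim φ) (i : ι) (x : M) : φ i (dn (φ i) x) ≤ x := by
  refine h.dens' i fun k hk a b h1 h2 => ?_
  obtain ⟨J, hJ, e⟩ := h.link i k hk
  have : dn (φ i) x ≤ dn J b := sSup_le fun w hw =>
    hJ.reg.le_dn.2 ((h.le _ _ _).1 (by rw [e]; exact le_trans hw h2))
  have := (h.le _ _ _).2 (hJ.reg.le_dn.1 this)
  rw [e] at this
  exact (h.le _ _ _).1 (h1.trans this)

lemma Lim.reg (h : Lim φ) (i : ι) : Reg (φ i) := ⟨h.le i, h.dual.dn_le i, h.dn_le i⟩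

lemma Lim.sp (h : Lim φ) (hm : ∀ i, MC (L i)) (i : ι) : SP (φ i) := by
  refine SP.of_dense (h.reg i) (hm i) h.dens (fun d hd d' hd' => ?_)
    (fun a => mem_iUnion.2 ⟨i, a, rfl⟩) fun d hd d' hd' h1 h2 => ?_
  · obtain ⟨k, hk⟩ := h.lift hd
    obtain ⟨l, hl⟩ := h.lift hd'
    obtain ⟨a, rfl⟩ := hk (max k l) (le_max_left _ _)
    obtain ⟨b, rfl⟩ := hl (max k l) (le_max_right _ _)
    exact mem_iUnion.2 ⟨_, a ⊔ b, (h.reg _).map_sup a b⟩
  · obtain ⟨k, hk⟩ := h.lift hd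
    obtain ⟨l, hl⟩ := h.lift hd'
    obtain ⟨a, rfl⟩ := hk (max i (max k l)) (le_max_of_le_right (le_max_left _ _))
    obtain ⟨b, rfl⟩ := hl (max i (max k l)) (le_max_of_le_right (le_max_right _ _))
    obtain ⟨J, hJ, e⟩ := h.link i (max i (max k l)) (le_max_left _ _)
    have e' : φ i = φ _ ∘ J := (funext e).symm
    rw [e', hJ.reg.dn_comp (h.reg _), (h.reg _).dn_j] at h1 h2
    rw [e', ← (h.reg _).map_inf]
    simp only [hJ.reg.up_comp (h.reg _), (h.reg _).up_j]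
    exact hJ.sp a b h1 h2

lemma Lim.good (h : Lim φ) (hm : ∀ i, MC (L i)) (hj : ∀ i, JC (L i)) (i : ι) : Good (φ i) :=
  ⟨h.reg i, h.sp hm i, h.dual.sp (fun i => (hj i).dual) i⟩

lemma Lim.ne_bot (h : Lim φ) {x : M} (hx : x ≠ ⊥) : ∃ k, ∀ m, k ≤ m → dn (φ m) x ≠ ⊥ := by
  have : ∃ d ∈ ⋃ i, range (φ i), d ≤ x ∧ ¬ d ≤ ⊥ := by
    by_contra hcon
    push Not at hcon
    exact hx (le_bot_iff.1 (h.dens.low hcon))
  obtain ⟨d, hd, h1, h2⟩ := this
  obtain ⟨k, hk⟩ := h.lift hd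
  refine ⟨k, fun m hm e => h2 ?_⟩
  obtain ⟨a, rfl⟩ := hk m hm
  have e' : a = ⊥ := le_bot_iff.1 (e ▸ (h.reg m).le_dn.2 h1)
  rw [e', (h.reg m).map_bot]

lemma Lim.ne_top (h : Lim φ) {x : M} (hx : x ≠ ⊤) : ∃ k, ∀ m, k ≤ m → up (φ m) x ≠ ⊤ :=
  h.dual.ne_bot hx

lemma Lim.mc [Nonempty ι] (h : Lim φ) (hm : ∀ i, MC (L i)) : MC M := by
  intro s hs hne y v hv
  refine h.dens' (Classical.arbitrary ι) fun k _ t w ht hw => ?_
  by_cases h0 : t = ⊥
  · rw [h0]; exact bot_le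
  have : ∃ x0 ∈ s, x0 ≠ ⊥ := by
    by_contra hcon
    push Not at hcon
    have : φ k t ≤ φ k ⊥ := (ht.trans inf_le_left).trans
      (sSup_le fun x hx => by rw [hcon x hx]; exact bot_le)
    exact h0 (le_bot_iff.1 ((h.le _ _ _).1 this))
  obtain ⟨x0, hx0, h1⟩ := this
  obtain ⟨l, hl⟩ := h.ne_bot h1
  obtain ⟨J, hJ, e⟩ := h.link k (max k l) (le_max_left _ _)
  have R := h.reg (max k l)
  have h2 : J t ≠ ⊥ := fun e' => h0 (hJ.reg.inj (e'.trans hJ.reg.map_bot.symm))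
  have hd : DirectedOn (· ≤ ·) (up (φ (max k l)) '' s) := by
    rintro _ ⟨x, hx, rfl⟩ _ ⟨x', hx', rfl⟩
    obtain ⟨x'', k1, k2, k3⟩ := hs x hx x' hx'
    exact ⟨_, ⟨x'', k1, rfl⟩, R.up_mono k2, R.up_mono k3⟩
  have h3 : J t ≤ sSup (up (φ (max k l)) '' s) := by
    refine (R.le_iff _ _).1 ?_
    rw [e]
    exact (ht.trans inf_le_left).trans (sSup_le fun x hx => R.up_le.1 (le_sSup ⟨x, hx, rfl⟩))
  refine (hJ.reg.le_iff _ _).1 ((le_inf h3 le_rfl).trans (hm _ _ hd (hne.image _) _ _ ?_))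
  rintro _ ⟨x, hx, rfl⟩
  obtain ⟨x', k1, k2, k3⟩ := hs x hx x0 hx0
  have := h.sp hm (max k l) x' (φ _ (J t))
    (fun e' => hl _ (le_max_right _ _) (le_bot_iff.1 (e' ▸ R.dn_mono k3)))
    (by rwa [R.dn_j])
  rw [R.up_j] at this
  refine (inf_le_inf_right _ (R.up_mono k2)).trans (this.trans (R.up_le.2 ?_))
  rw [e, e]
  exact ((inf_le_inf_left _ (ht.trans inf_le_right)).trans (hv x' k1)).trans hw

lemma Lim.amu (h : Lim φ) (hL : ∀ i, Inv (L i)) : AMU M := by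
  intro x y z hy hz
  by_cases hx : x = ⊥
  · subst hx
    rw [eq_top_of_bot_isCompl hy, eq_top_of_bot_isCompl hz]
  by_cases hx' : x = ⊤
  · subst hx'
    rw [eq_bot_of_top_isCompl hy, eq_bot_of_top_isCompl hz]
  obtain ⟨k1, h1⟩ := h.ne_bot hx
  obtain ⟨k2, h2⟩ := h.ne_top hx'
  obtain ⟨k3, h3⟩ := h.ne_bot (x := y) fun e => hx' (eq_top_of_isCompl_bot (e ▸ hy))
  obtain ⟨k4, h4⟩ := h.ne_top (x := y) fun e => hx (eq_bot_of_isCompl_top (e ▸ hy))
  obtain ⟨k5, h5⟩ := h.ne_bot (x := z) fun e => hx' (eq_top_of_isCompl_bot (e ▸ hz))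
  obtain ⟨k6, h6⟩ := h.ne_top (x := z) fun e => hx (eq_bot_of_isCompl_top (e ▸ hz))
  set m := max (max (max k1 k2) (max k3 k4)) (max k5 k6) with hm
  have G := h.good (fun i => (hL i).mc) (fun i => (hL i).jc) m
  obtain ⟨e1, c1⟩ := G.compl_old (hL m).amu hy (h1 m (by simp [hm])) (h3 m (by simp [hm]))
    (h2 m (by simp [hm])) (h4 m (by simp [hm]))
  obtain ⟨e2, c2⟩ := G.compl_old (hL m).amu hz (h1 m (by simp [hm])) (h5 m (by simp [hm]))
    (h2 m (by simp [hm])) (h6 m (by simp [hm]))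
  rw [e1, e2, (hL m).amu _ _ _ c1 c2]

lemma Lim.st [Countable ι] [Nonempty ι] (h : Lim φ) (hL : ∀ i, ST (fun a b : L i => a ≤ b)) :
    ST (fun a b : M => a ≤ b) :=
  ST.transfer (A := L) (B := L) hL (fun i a x => φ i a ≤ x) (fun i b y => y ≤ φ i b)
    (fun x y hxy => by
      by_contra hcon
      push Not at hcon
      exact hxy (h.dens' (Classical.arbitrary ι) fun k _ a b h1 h2 => hcon k a b h1 h2))
    (fun i a b x y h1 h2 h3 => (h.le _ _ _).1 (h1.trans (h3.trans h2)))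

lemma Lim.inv [Countable ι] [Nonempty ι] (h : Lim φ) (hL : ∀ i, Inv (L i)) : Inv M := by
  refine ⟨h.mc fun i => (hL i).mc, JC.of_dual (h.dual.mc fun i => (hL i).jc.dual), h.amu hL,
    fun e => ?_, h.st fun i => (hL i).st⟩
  have i := Classical.arbitrary ι
  exact (hL i).nt ((h.reg i).inj (by rw [(h.reg i).map_bot, (h.reg i).map_top, e]))

end Lim

/-- labels -/
abbrev Lb : Type 1 := Ordinal.{0} × Cardinal.{0}

lemma exists_label {P M : Type} (i : P → M) (ℓ : P → Lb) (h : ∀ p q, i p = i q ↔ ℓ p = ℓ q) :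
    ∃ e : M → Lb, Function.Injective e ∧ ∀ p, e (i p) = ℓ p := by
  classical
  let o : Ordinal.{0} := ⨆ p, (ℓ p).1 + 1
  have ho : ∀ p, (ℓ p).1 < o := fun p => Ordinal.lt_iSup_add_one (fun p => (ℓ p).1) p
  refine ⟨fun x => if hx : ∃ p, i p = x then ℓ hx.choose else (o, embeddingToCardinal x),
    fun x y hxy => ?_, fun p => ?_⟩
  · by_cases hx : ∃ p, i p = x <;> by_cases hy : ∃ p, i p = y
    · simp only [dif_pos hx, dif_pos hy] at hxy
      rw [← hx.choose_spec, ← hy.choose_spec]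
      exact (h _ _).2 hxy
    · simp only [dif_pos hx, dif_neg hy] at hxy
      exact absurd (congrArg Prod.fst hxy) (ho _).ne
    · simp only [dif_neg hx, dif_pos hy] at hxy
      exact absurd (congrArg Prod.fst hxy).symm (ho _).ne
    · simp only [dif_neg hx, dif_neg hy] at hxy
      exact embeddingToCardinal.injective (congrArg Prod.snd hxy)
  · have hx : ∃ q, i q = i p := ⟨p, rfl⟩
    simp only [dif_pos hx]
    exact (h _ _).1 hx.choose_spec

/-- failure of distributivity -/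
def ND (L : Type) [CompleteLattice L] : Prop := ∃ x y z : L, x ⊓ (y ⊔ z) ≠ (x ⊓ y) ⊔ (x ⊓ z)

lemma ND.map {L M : Type} [CompleteLattice L] [CompleteLattice M] (h : ND L) {j : L → M}
    (hj : Reg j) : ND M := by
  obtain ⟨x, y, z, h⟩ := h
  refine ⟨j x, j y, j z, fun e => h (hj.inj ?_)⟩
  simpa only [hj.map_inf, hj.map_sup] using e

/-- labelled lattices satisfying the invariant -/
structure Obj : Type 1 where
  /-- carrier -/
  L : Type
  /-- lattice structure -/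
  inst : CompleteLattice L
  /-- labels -/
  e : L → Lb
  inj : Function.Injective e
  inv : @Inv L inst
  nd : @ND L inst

/-- the lattice structure of an object -/
instance (O : Obj) : CompleteLattice O.L := O.inst

/-- good label preserving extensions -/
def Ext (O O' : Obj) : Prop := ∃ j : O.L → O'.L, Good j ∧ ∀ a, O'.e (j a) = O.e a

lemma exists_lim {ι : Type} [LinearOrder ι] (O : ι → Obj) (hO : ∀ i k, i ≤ k → Ext (O i) (O k)) :
    ∃ (M : Type) (_ : CompleteLattice M) (φ : ∀ i, (O i).L → M), Lim φ ∧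
      ∀ i k a b, φ i a = φ k b ↔ (O i).e a = (O k).e b := by
  choose J hJ hJe using hO
  let r : (Σ i, (O i).L) → (Σ i, (O i).L) → Prop := fun p q =>
    ∃ (l : ι) (a b : (O l).L), (O l).e a = (O p.1).e p.2 ∧ (O l).e b = (O q.1).e q.2 ∧ a ≤ b
  have key : ∀ p q, r p q → ∀ (m : ι) (a b : (O m).L), (O m).e a = (O p.1).e p.2 →
      (O m).e b = (O q.1).e q.2 → a ≤ b := by
    rintro p q ⟨l, a', b', h1, h2, h3⟩ m a b h4 h5
    have e1 : J l _ (le_max_left l m) a' = J m _ (le_max_right l m) a :=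
      (O _).inj (by rw [hJe, hJe, h1, h4])
    have e2 : J l _ (le_max_left l m) b' = J m _ (le_max_right l m) b :=
      (O _).inj (by rw [hJe, hJe, h2, h5])
    have := ((hJ l _ (le_max_left l m)).reg.le_iff _ _).2 h3
    rw [e1, e2] at this
    exact ((hJ m _ (le_max_right l m)).reg.le_iff _ _).1 this
  obtain ⟨M, inst, ψ, h1, h2⟩ := exists_completion (Σ i, (O i).L) r
    (fun p => ⟨p.1, p.2, p.2, rfl, rfl, le_rfl⟩) (fun p q s h h' => by
      have a1 : p.1 ≤ max p.1 (max q.1 s.1) := le_max_left _ _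
      have a2 : q.1 ≤ max p.1 (max q.1 s.1) := le_max_of_le_right (le_max_left _ _)
      have a3 : s.1 ≤ max p.1 (max q.1 s.1) := le_max_of_le_right (le_max_right _ _)
      exact ⟨_, J _ _ a1 p.2, J _ _ a3 s.2, hJe _ _ _ _, hJe _ _ _ _,
        (key p q h _ _ (J _ _ a2 q.2) (hJe _ _ _ _) (hJe _ _ _ _)).trans
          (key q s h' _ _ _ (hJe _ _ _ _) (hJe _ _ _ _))⟩)
  have lab : ∀ i k a b, ψ ⟨i, a⟩ = ψ ⟨k, b⟩ ↔ (O i).e a = (O k).e b := by
    intro i k a b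
    constructor
    · intro e
      have b1 := key _ _ ((h1 _ _).1 e.le) _ (J _ _ (le_max_left i k) a)
        (J _ _ (le_max_right i k) b) (hJe _ _ _ _) (hJe _ _ _ _)
      have b2 := key _ _ ((h1 _ _).1 e.ge) _ (J _ _ (le_max_right i k) b)
        (J _ _ (le_max_left i k) a) (hJe _ _ _ _) (hJe _ _ _ _)
      rw [← hJe i _ (le_max_left i k), ← hJe k _ (le_max_right i k), le_antisymm b1 b2]
    · intro e
      exact le_antisymm ((h1 _ _).2 ⟨i, a, a, rfl, e, le_rfl⟩)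
        ((h1 _ _).2 ⟨i, a, a, e, rfl, le_rfl⟩)
  refine ⟨M, inst, fun i a => ψ ⟨i, a⟩, ⟨fun i a b => (h1 _ _).trans
    ⟨fun h => key _ _ h i a b rfl rfl, fun h => ⟨i, a, b, rfl, rfl, h⟩⟩,
    fun i k hik => ⟨J i k hik, hJ i k hik, fun a => (lab _ _ _ _).2 (hJe _ _ _ _)⟩, ?_⟩, lab⟩
  convert h2 using 1
  ext x
  simp only [mem_iUnion, mem_range, Sigma.exists]

/-- one step of the tower -/
def StepOK {ι : Type} (O : ι → Obj) (O' : Obj) : Prop :=
  ∃ J : ∀ i, (O i).L → O'.L, (∀ i, Good (J i) ∧ ∀ a, O'.e (J i a) = (O i).e a) ∧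
    (∀ i a, ∃ b, IsCompl (J i a) b) ∧
    (Nonempty ι → ∀ z v : O'.L,
      (∀ i w, (∀ k w', z ≤ J k w' → J i w ≤ J k w') → J i w ≤ v) → z ≤ v)

lemma inv_enat : Inv ℕ∞ := by
  refine ⟨fun s _ _ y v hv => ?_, fun s _ _ y v hv => ?_, fun a b c hb hc => hb.right_unique hc,
    bot_ne_top, ST.of_countable _⟩
  · rw [sSup_inf_eq]; exact iSup₂_le hv
  · rw [sInf_sup_eq]; exact le_iInf₂ hv

lemma exists_base : Nonempty Obj := by
  obtain ⟨M, inst, j, hj, hM, h1, h2⟩ := exists_ext ℕ∞ inv_enat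
  obtain ⟨e, he, -⟩ := exists_label (P := Empty) (M := M) Empty.elim Empty.elim
    (fun p => p.elim)
  refine ⟨⟨M, inst, e, he, hM, ?_⟩⟩
  have nc : ∀ n : ℕ, ¬ ∃ c, IsCompl ((n + 1 : ℕ) : ℕ∞) c := by
    rintro n ⟨c, hc⟩
    rcases le_total ((n + 1 : ℕ) : ℕ∞) c with h | h
    · have := hc.inf_eq_bot
      rw [inf_eq_left.2 h] at this
      exact absurd this (by simp)
    · have := hc.sup_eq_top
      rw [sup_eq_left.2 h] at this
      exact absurd this (ENat.coe_ne_top _)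
  obtain ⟨b, hb⟩ := h1 ((0 + 1 : ℕ) : ℕ∞)
  obtain ⟨b', hb'⟩ := h1 ((1 + 1 : ℕ) : ℕ∞)
  refine ⟨b', j ((0 + 1 : ℕ) : ℕ∞), b, fun e => ?_⟩
  have k : b' ⊓ j ((0 + 1 : ℕ) : ℕ∞) = ⊥ := le_bot_iff.1 ((inf_le_inf_left _
    ((hj.reg.le_iff _ _).2 (by norm_num))).trans hb'.symm.inf_eq_bot.le)
  rw [hb.sup_eq_top, inf_top_eq, k, bot_sup_eq] at e
  have := h2 _ _ _ _ (nc 1) (nc 0) hb' hb (e.le.trans inf_le_right)
  exact absurd this (by norm_num)

lemma exists_step {ι : Type} [LinearOrder ι] [Countable ι] (O : ι → Obj)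
    (hO : ∀ i k, i ≤ k → Ext (O i) (O k)) : ∃ O', StepOK O O' := by
  rcases isEmpty_or_nonempty ι with hι | hι
  · obtain ⟨B⟩ := exists_base
    exact ⟨B, fun i => hι.elim i, fun i => hι.elim i, fun i => hι.elim i,
      fun ⟨i⟩ => hι.elim i⟩
  obtain ⟨K, inst, φ, hφ, hl⟩ := exists_lim O hO
  have hK := hφ.inv fun i => (O i).inv
  have hg := hφ.good (fun i => (O i).inv.mc) fun i => (O i).inv.jc
  obtain ⟨M, inst', j, hj, hM, h1, -⟩ := exists_ext K hK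
  obtain ⟨e, he, hel⟩ := exists_label (P := Σ i, (O i).L) (M := M) (fun p => j (φ p.1 p.2))
    (fun p => (O p.1).e p.2) (fun p q => hj.reg.inj.eq_iff.trans (hl _ _ _ _))
  have i0 := Classical.arbitrary ι
  refine ⟨⟨M, inst', e, he, hM, ((O i0).nd.map (hg i0).reg).map hj.reg⟩,
    fun i => j ∘ φ i, fun i => ⟨(hg i).comp hj, fun a => hel ⟨i, a⟩⟩, fun i a => h1 _,
    fun _ z v hzv => ?_⟩
  refine (hj.reg.le_up z).trans (hj.reg.le_dn.1 (hφ.dens.low fun d hd hdz => ?_))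
  obtain ⟨i, w, rfl⟩ := mem_iUnion.1 hd
  exact hj.reg.le_dn.2 (hzv i w fun k w' hw =>
    (hj.reg.le_iff _ _).2 (hdz.trans (hj.reg.up_le.2 hw)))

lemma exists_tower (W : Type) [LinearOrder W] [WellFoundedLT W]
    (hc : ∀ β : W, (Iio β).Countable) :
    ∃ f : W → Obj, ∀ β, StepOK (fun γ : Iio β => f γ) (f β) := by
  classical
  obtain ⟨B⟩ := exists_base
  let F : ∀ β : W, (∀ γ, γ < β → Obj) → Obj := fun β g =>
    if h : ∃ O', StepOK (fun γ : Iio β => g γ.1 γ.2) O' then h.choose else B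
  let f : W → Obj := (wellFounded_lt (α := W)).fix F
  have hf : ∀ β, f β = F β fun γ _ => f γ := fun β => WellFounded.fix_eq _ F β
  refine ⟨f, fun β => ?_⟩
  induction β using WellFoundedLT.induction with
  | ind β ih =>
    have := (hc β).to_subtype
    have h : ∃ O', StepOK (fun γ : Iio β => f γ) O' := exists_step _ fun i k hik => by
      rcases hik.eq_or_lt with rfl | hlt
      · exact ⟨id, Good.id, fun _ => rfl⟩
      · obtain ⟨J, h1, -⟩ := ih k.1 k.2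
        exact ⟨J ⟨i.1, hlt⟩, h1 ⟨i.1, hlt⟩⟩
    have e : f β = h.choose := by rw [hf]; exact dif_pos h
    rw [e]
    exact h.choose_spec

section Omega
variable {W : Type} [LinearOrder W]

lemma bdd_of_countable [Uncountable W] (hc : ∀ β : W, (Iio β).Countable) {s : Set W}
    (hs : s.Countable) : ∃ b, ∀ x ∈ s, x < b := by
  by_contra hcon
  push Not at hcon
  have : (univ : Set W) ⊆ ⋃ x ∈ s, insert x (Iio x) := fun b _ => by
    obtain ⟨x, hx, h⟩ := hcon b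
    exact mem_biUnion hx (h.eq_or_lt.imp id id)
  exact not_countable_univ ((hs.biUnion fun x _ => (hc x).insert x).mono this)

lemma stabilizes [Uncountable W] (hc : ∀ β : W, (Iio β).Countable) {L : Type} [CompleteLattice L]
    (hL : ST (fun a b : L => a ≤ b)) (v : W → L) (hv : Antitone v) :
    ∃ γ, ∀ γ', γ ≤ γ' → v γ ≤ v γ' := by
  by_contra hcon
  push Not at hcon
  choose s hs1 hs2 using hcon
  obtain ⟨𝓔, h1, h2, h3⟩ := hL
  have : ∃ E ∈ 𝓔, ∀ b, ∃ γ, b ≤ γ ∧ (v γ, v (s γ)) ∈ E := by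
    by_contra hcon
    push Not at hcon
    choose b hb using hcon
    have := h1.to_subtype
    obtain ⟨c, hc'⟩ := bdd_of_countable hc (countable_range fun E : 𝓔 => b E.1 E.2)
    obtain ⟨E, hE, h⟩ := h2 _ _ (hs2 c)
    exact hb E hE c (hc' _ ⟨⟨E, hE⟩, rfl⟩).le h
  obtain ⟨E, hE, h⟩ := this
  choose t ht1 ht2 using h
  let g : ℕ → W := fun n => Nat.rec (t (Classical.arbitrary W)) (fun _ x => t (s x)) n
  have g1 : ∀ n, (v (g n), v (s (g n))) ∈ E := fun n => by cases n <;> exact ht2 _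
  have g2 : ∀ n, s (g n) ≤ g (n + 1) := fun n => ht1 _
  have g3 : Monotone g := monotone_nat_of_le_succ fun n => (hs1 _).trans (g2 n)
  refine h3 E hE (fun n => v (g n)) (fun n => v (s (g n))) g1 (Eventually.of_forall fun k => ?_)
  have : ∀ᶠ l in atTop, v (g l) ≤ v (s (g k)) :=
    eventually_atTop.2 ⟨k + 1, fun l hl => hv ((g2 k).trans (g3 hl))⟩
  exact this.filter_mono (Nat.cofinite_eq_atTop ▸ hyperfilter_le_cofinite)

lemma exists_closed [WellFoundedLT W] [Uncountable W] (hc : ∀ β : W, (Iio β).Countable)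
    (f : W → W) : ∃ δ, (∃ β, β < δ) ∧ ∀ β, β < δ → f β < δ := by
  have step : ∀ b : W, ∃ b', b < b' ∧ ∀ β, β < b → f β < b' := fun b => by
    obtain ⟨c, hc'⟩ := bdd_of_countable hc (((hc b).image f).insert b)
    exact ⟨c, hc' b (mem_insert _ _), fun β hβ => hc' _ (mem_insert_of_mem _ ⟨β, hβ, rfl⟩)⟩
  choose nx h1 h2 using step
  let g : ℕ → W := fun n => nx^[n] (Classical.arbitrary W)
  have g1 : ∀ n, g (n + 1) = nx (g n) := fun n => Function.iterate_succ_apply' _ _ _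
  obtain ⟨c, hc'⟩ := bdd_of_countable hc (countable_range g)
  have hne : {d | ∀ n, g n ≤ d}.Nonempty := ⟨c, fun n => (hc' _ ⟨n, rfl⟩).le⟩
  have hδ : ∀ n, g n ≤ wellFounded_lt.min _ hne := wellFounded_lt.min_mem _ hne
  refine ⟨wellFounded_lt.min _ hne, ⟨g 0, ((h1 _).trans_eq (g1 0).symm).trans_le (hδ 1)⟩,
    fun β hβ => ?_⟩
  have : ∃ n, β < g n := by
    by_contra hcon
    push Not at hcon
    exact wellFounded_lt.not_lt_min {d | ∀ n, g n ≤ d} hcon hβ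
  obtain ⟨n, hn⟩ := this
  exact ((h2 _ β hn).trans_eq (g1 n).symm).trans_le (hδ _)

end Omega

/-- there is a complete uniquely complemented lattice that is not distributive -/
theorem exists_uc : ∃ (M : Type) (_ : CompleteLattice M),
    (∀ a : M, ∃! b : M, IsCompl a b) ∧ ND M := by
  let W := (Cardinal.aleph 1).ord.ToType
  have hc : ∀ β : W, (Iio β).Countable := fun β =>
    (Cardinal.countable_iff_lt_aleph_one _).2 (Cardinal.mk_Iio_toType_ord_lt β)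
  have hu : Uncountable W := by
    rw [← Cardinal.aleph0_lt_mk_iff, Cardinal.mk_ord_toType]
    exact Cardinal.aleph0_lt_aleph_one
  obtain ⟨f, hf⟩ := exists_tower W hc
  have hO : ∀ i k, i ≤ k → Ext (f i) (f k) := fun i k hik => by
    rcases hik.eq_or_lt with rfl | hlt
    · exact ⟨id, Good.id, fun _ => rfl⟩
    · obtain ⟨J, h1, -⟩ := hf k
      exact ⟨J ⟨i, hlt⟩, h1 ⟨i, hlt⟩⟩
  obtain ⟨M, inst, φ, hφ, hl⟩ := exists_lim f hO
  have R := hφ.reg
  have i0 := Classical.arbitrary W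
  refine ⟨M, inst, fun x => ?_, (f i0).nd.map (R i0)⟩
  have anti : Antitone fun γ => φ γ (up (φ γ) x) := fun γ γ' h => by
    obtain ⟨J, -, e⟩ := hφ.link γ γ' h
    have : x ≤ φ γ' (J (up (φ γ) x)) := by rw [e]; exact (R γ).le_up x
    have := ((R γ').le_iff _ _).2 ((R γ').up_le.2 this)
    rwa [e] at this
  have stab : ∀ β, ∃ γ, dn (φ β) (φ γ (up (φ γ) x)) ≤ dn (φ β) x := fun β => by
    obtain ⟨γ, hγ⟩ := stabilizes hc (f β).inv.st (fun γ => dn (φ β) (φ γ (up (φ γ) x)))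
      fun γ γ' h => (R β).dn_mono (anti h)
    refine ⟨γ, (R β).le_dn.2 (hφ.dens' γ fun k hk a b h1 h2 => ((R k).le_iff _ _).1 ?_)⟩
    exact (h1.trans ((R β).le_dn.1 (hγ k hk))).trans
      (((R k).le_iff _ _).2 ((R k).up_le.2 h2))
  choose s hs using stab
  obtain ⟨δ, ⟨β0, hβ0⟩, hδ⟩ := exists_closed hc s
  have hx : x = φ δ (up (φ δ) x) := by
    obtain ⟨J, h1, -, h3⟩ := hf δ
    have e : ∀ (i : Iio δ) a, φ δ (J i a) = φ i a := fun i a => (hl _ _ _ _).2 ((h1 i).2 a)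
    refine le_antisymm ((R δ).le_up x) ((R δ).le_dn.1 (h3 ⟨⟨β0, hβ0⟩⟩ _ _ fun i w hw => ?_))
    have := hw ⟨s i, hδ i i.2⟩ (up (φ (s i)) x) ((R δ).up_le.2 (by
      rw [e]; exact (R _).le_up x))
    have := ((R δ).le_iff _ _).2 this
    rw [e, e] at this
    refine (R δ).le_dn.2 ?_
    rw [e]
    exact (R i).le_dn.1 (((R i).le_dn.2 this).trans (hs i))
  obtain ⟨δ', hδ'⟩ := bdd_of_countable hc (countable_singleton δ)
  obtain ⟨J, h1, h2, -⟩ := hf δ'
  obtain ⟨b, hb⟩ := h2 ⟨δ, hδ' δ rfl⟩ (up (φ δ) x)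
  have c := (R δ').isCompl hb
  rw [(hl _ _ _ _).2 ((h1 ⟨δ, hδ' δ rfl⟩).2 _), ← hx] at c
  exact ⟨_, c, fun y hy => hφ.amu (fun i => (f i).inv) _ _ _ hy c⟩

end Pool.Agent.H665Z.UC
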