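import Pool.Agent.H665Z.UCBase

set_option autoImplicit false
open Set Filter

namespace Pool.Agent.H665Z.UC

/-- lattice terms over constants and new generators -/
inductive Tm (X Y : Type) : Type
  | c : X → Tm X Y
  | g : Y → Tm X Y
  | sup : Tm X Y → Tm X Y → Tm X Y
  | inf : Tm X Y → Tm X Y → Tm X Y

namespace Tm
variable {L Y : Type} [CompleteLattice L] (lab : Y → L)

open Classical in
/-- lower cover and generators below a term -/
noncomputable def low : Tm L Y → L × (Y → Prop)
  | .c w => (w, fun _ => w = ⊤)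
  | .g b => (⊥, fun a => a = b)
  | .inf s t => ((low s).1 ⊓ (low t).1, fun a => (low s).2 a ∧ (low t).2 a)
  | .sup s t =>
    ((if ∃ a, ((low s).2 a ∨ (low t).2 a) ∧ lab a ≤ (low s).1 ⊔ (low t).1 then ⊤
        else (low s).1 ⊔ (low t).1),
      fun a => (low s).2 a ∨ (low t).2 a ∨
        (if ∃ a, ((low s).2 a ∨ (low t).2 a) ∧ lab a ≤ (low s).1 ⊔ (low t).1 then ⊤
          else (low s).1 ⊔ (low t).1) = ⊤)

open Classical in
/-- upper cover and generators above a term -/
noncomputable def hig : Tm L Y → L × (Y → Prop)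
  | .c w => (w, fun _ => w = ⊥)
  | .g b => (⊤, fun a => a = b)
  | .sup s t => ((hig s).1 ⊔ (hig t).1, fun a => (hig s).2 a ∧ (hig t).2 a)
  | .inf s t =>
    ((if ∃ a, ((hig s).2 a ∨ (hig t).2 a) ∧ (hig s).1 ⊓ (hig t).1 ≤ lab a then ⊥
        else (hig s).1 ⊓ (hig t).1),
      fun a => (hig s).2 a ∨ (hig t).2 a ∨
        (if ∃ a, ((hig s).2 a ∨ (hig t).2 a) ∧ (hig s).1 ⊓ (hig t).1 ≤ lab a then ⊥
          else (hig s).1 ⊓ (hig t).1) = ⊥)

/-- lower cover -/
noncomputable def lo (t : Tm L Y) : L := (low lab t).1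
/-- generators below -/
def gl (t : Tm L Y) (a : Y) : Prop := (low lab t).2 a
/-- upper cover -/
noncomputable def hi (t : Tm L Y) : L := (hig lab t).1
/-- generators above -/
def gu (t : Tm L Y) (a : Y) : Prop := (hig lab t).2 a
/-- the special reason for a join to be the top -/
def spL (s t : Tm L Y) : Prop := ∃ a, (gl lab s a ∨ gl lab t a) ∧ lab a ≤ lo lab s ⊔ lo lab t
/-- the special reason for a meet to be the bottom -/
def spU (s t : Tm L Y) : Prop := ∃ a, (gu lab s a ∨ gu lab t a) ∧ hi lab s ⊓ hi lab t ≤ lab a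

variable {lab}

lemma lo_c (w : L) : lo lab (.c w) = w := rfl
lemma lo_g (b : Y) : lo lab (.g b) = ⊥ := rfl
lemma lo_inf (s t : Tm L Y) : lo lab (.inf s t) = lo lab s ⊓ lo lab t := rfl
lemma lo_sup_pos {s t : Tm L Y} (h : spL lab s t) : lo lab (.sup s t) = ⊤ := if_pos h
lemma lo_sup_neg {s t : Tm L Y} (h : ¬ spL lab s t) :
    lo lab (.sup s t) = lo lab s ⊔ lo lab t := if_neg h
lemma gl_c (w : L) (a : Y) : gl lab (.c w) a ↔ w = ⊤ := Iff.rfl
lemma gl_g (b a : Y) : gl lab (.g b) a ↔ a = b := Iff.rfl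
lemma gl_inf (s t : Tm L Y) (a : Y) : gl lab (.inf s t) a ↔ gl lab s a ∧ gl lab t a := Iff.rfl
lemma gl_sup (s t : Tm L Y) (a : Y) :
    gl lab (.sup s t) a ↔ gl lab s a ∨ gl lab t a ∨ lo lab (.sup s t) = ⊤ := Iff.rfl

lemma hi_c (w : L) : hi lab (.c w) = w := rfl
lemma hi_g (b : Y) : hi lab (.g b) = ⊤ := rfl
lemma hi_sup (s t : Tm L Y) : hi lab (.sup s t) = hi lab s ⊔ hi lab t := rfl
lemma hi_inf_pos {s t : Tm L Y} (h : spU lab s t) : hi lab (.inf s t) = ⊥ := if_pos h
lemma hi_inf_neg {s t : Tm L Y} (h : ¬ spU lab s t) :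
    hi lab (.inf s t) = hi lab s ⊓ hi lab t := if_neg h
lemma gu_c (w : L) (a : Y) : gu lab (.c w) a ↔ w = ⊥ := Iff.rfl
lemma gu_g (b a : Y) : gu lab (.g b) a ↔ a = b := Iff.rfl
lemma gu_sup (s t : Tm L Y) (a : Y) : gu lab (.sup s t) a ↔ gu lab s a ∧ gu lab t a := Iff.rfl
lemma gu_inf (s t : Tm L Y) (a : Y) :
    gu lab (.inf s t) a ↔ gu lab s a ∨ gu lab t a ∨ hi lab (.inf s t) = ⊥ := Iff.rfl

lemma le_lo_sup (s t : Tm L Y) : lo lab s ⊔ lo lab t ≤ lo lab (.sup s t) := by
  by_cases h : spL lab s t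
  · rw [lo_sup_pos h]; exact le_top
  · rw [lo_sup_neg h]

lemma hi_inf_le (s t : Tm L Y) : hi lab (.inf s t) ≤ hi lab s ⊓ hi lab t := by
  by_cases h : spU lab s t
  · rw [hi_inf_pos h]; exact bot_le
  · rw [hi_inf_neg h]

/-- standing assumptions on the labels -/
structure Lab (lab : Y → L) : Prop where
  nt : (⊥ : L) ≠ ⊤
  nb : ∀ a, lab a ≠ ⊥
  np : ∀ a, lab a ≠ ⊤

lemma gl_of_top (H : Lab lab) (t : Tm L Y) (a : Y) (h : lo lab t = ⊤) : gl lab t a := by
  induction t with
  | c w => exact h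
  | g b => exact absurd h H.nt
  | sup s t _ _ => exact Or.inr (Or.inr h)
  | inf s t ihs iht =>
    rw [lo_inf, inf_eq_top_iff] at h
    exact ⟨ihs h.1, iht h.2⟩

lemma gu_of_bot (H : Lab lab) (t : Tm L Y) (a : Y) (h : hi lab t = ⊥) : gu lab t a := by
  induction t with
  | c w => exact h
  | g b => exact absurd h.symm H.nt
  | inf s t _ _ => exact Or.inr (Or.inr h)
  | sup s t ihs iht =>
    rw [hi_sup, sup_eq_bot_iff] at h
    exact ⟨ihs h.1, iht h.2⟩

lemma top_of_gl (H : Lab lab) (t : Tm L Y) (a : Y) (h : gl lab t a) (h' : lab a ≤ lo lab t) :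
    lo lab t = ⊤ := by
  induction t with
  | c w => exact h
  | g b => exact absurd (le_bot_iff.1 h') (H.nb a)
  | inf s t ihs iht =>
    rw [lo_inf] at h' ⊢
    rw [ihs h.1 (h'.trans inf_le_left), iht h.2 (h'.trans inf_le_right), inf_idem]
  | sup s t _ _ =>
    by_cases hs : spL lab s t
    · exact lo_sup_pos hs
    · rcases h with h | h | h
      · exact absurd ⟨a, Or.inl h, by rwa [lo_sup_neg hs] at h'⟩ hs
      · exact absurd ⟨a, Or.inr h, by rwa [lo_sup_neg hs] at h'⟩ hs
      · exact h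

lemma bot_of_gu (H : Lab lab) (t : Tm L Y) (a : Y) (h : gu lab t a) (h' : hi lab t ≤ lab a) :
    hi lab t = ⊥ := by
  induction t with
  | c w => exact h
  | g b => exact absurd (top_le_iff.1 h') (H.np a)
  | sup s t ihs iht =>
    rw [hi_sup] at h' ⊢
    rw [ihs h.1 (le_sup_left.trans h'), iht h.2 (le_sup_right.trans h'), sup_idem]
  | inf s t _ _ =>
    by_cases hs : spU lab s t
    · exact hi_inf_pos hs
    · rcases h with h | h | h
      · exact absurd ⟨a, Or.inl h, by rwa [hi_inf_neg hs] at h'⟩ hs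
      · exact absurd ⟨a, Or.inr h, by rwa [hi_inf_neg hs] at h'⟩ hs
      · exact h

lemma gl_finite (t : Tm L Y) (h : lo lab t ≠ ⊤) : {a | gl lab t a}.Finite := by
  induction t with
  | c w => exact Set.finite_empty.subset fun a ha => h ha
  | g b => exact (Set.finite_singleton b).subset fun a ha => ha
  | inf s t ihs iht =>
    rw [lo_inf, Ne, inf_eq_top_iff, not_and_or] at h
    rcases h with h | h
    · exact (ihs h).subset fun a ha => ha.1
    · exact (iht h).subset fun a ha => ha.2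
  | sup s t ihs iht =>
    have h1 : lo lab s ≠ ⊤ := fun e =>
      h (top_le_iff.1 (le_trans (by rw [e]; exact le_sup_left) (le_lo_sup s t)))
    have h2 : lo lab t ≠ ⊤ := fun e =>
      h (top_le_iff.1 (le_trans (by rw [e]; exact le_sup_right) (le_lo_sup s t)))
    refine ((ihs h1).union (iht h2)).subset fun a ha => ?_
    rcases ha with ha | ha | ha
    · exact Or.inl ha
    · exact Or.inr ha
    · exact absurd ha h

lemma gu_finite (t : Tm L Y) (h : hi lab t ≠ ⊥) : {a | gu lab t a}.Finite := by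
  induction t with
  | c w => exact Set.finite_empty.subset fun a ha => h ha
  | g b => exact (Set.finite_singleton b).subset fun a ha => ha
  | sup s t ihs iht =>
    rw [hi_sup, Ne, sup_eq_bot_iff, not_and_or] at h
    rcases h with h | h
    · exact (ihs h).subset fun a ha => ha.1
    · exact (iht h).subset fun a ha => ha.2
  | inf s t ihs iht =>
    have h1 : hi lab s ≠ ⊥ := fun e =>
      h (le_bot_iff.1 (le_trans (hi_inf_le s t) (by rw [e]; exact inf_le_left)))
    have h2 : hi lab t ≠ ⊥ := fun e =>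
      h (le_bot_iff.1 (le_trans (hi_inf_le s t) (by rw [e]; exact inf_le_right)))
    refine ((ihs h1).union (iht h2)).subset fun a ha => ?_
    rcases ha with ha | ha | ha
    · exact Or.inl ha
    · exact Or.inr ha
    · exact absurd ha h

lemma consist (H : Lab lab) (t : Tm L Y) : lo lab t ≤ hi lab t ∧ (∀ a, gl lab t a → hi lab t = ⊤) ∧
    (∀ a, gu lab t a → lo lab t = ⊥) ∧ ∀ a b, gl lab t a → gu lab t b → a = b := by
  induction t with
  | c w => exact ⟨le_rfl, fun _ h => h, fun _ h => h,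
      fun _ _ h h' => absurd (((gu_c w _).1 h').symm.trans h) H.nt⟩
  | g b => exact ⟨bot_le, fun _ _ => rfl, fun _ _ => rfl, fun _ _ h h' => h.trans h'.symm⟩
  | sup s t ihs iht =>
    obtain ⟨s1, s2, s3, s4⟩ := ihs
    obtain ⟨t1, t2, t3, t4⟩ := iht
    have k1 : lo lab (.sup s t) ≤ hi lab (.sup s t) := by
      rw [hi_sup]
      by_cases hs : spL lab s t
      · obtain ⟨a, h | h, -⟩ := hs
        · rw [s2 a h, top_sup_eq]; exact le_top
        · rw [t2 a h, sup_top_eq]; exact le_top
      · rw [lo_sup_neg hs]; exact sup_le_sup s1 t1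
    have k3 : ∀ a, gu lab (.sup s t) a → lo lab (.sup s t) = ⊥ := by
      intro b hb
      have hs : ¬ spL lab s t := by
        rintro ⟨a, -, h⟩
        rw [s3 b hb.1, t3 b hb.2, sup_idem] at h
        exact H.nb a (le_bot_iff.1 h)
      rw [lo_sup_neg hs, s3 b hb.1, t3 b hb.2, sup_idem]
    refine ⟨k1, fun a h => ?_, k3, fun a b h h' => ?_⟩
    · rcases h with h | h | h
      · rw [hi_sup, s2 a h, top_sup_eq]
      · rw [hi_sup, t2 a h, sup_top_eq]
      · exact top_le_iff.1 (h ▸ k1)
    · rcases h with h | h | h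
      · exact s4 a b h h'.1
      · exact t4 a b h h'.2
      · exact absurd ((k3 b h').symm.trans h) H.nt
  | inf s t ihs iht =>
    obtain ⟨s1, s2, s3, s4⟩ := ihs
    obtain ⟨t1, t2, t3, t4⟩ := iht
    have k1 : lo lab (.inf s t) ≤ hi lab (.inf s t) := by
      rw [lo_inf]
      by_cases hs : spU lab s t
      · obtain ⟨a, h | h, -⟩ := hs
        · rw [s3 a h, bot_inf_eq]; exact bot_le
        · rw [t3 a h, inf_bot_eq]; exact bot_le
      · rw [hi_inf_neg hs]; exact inf_le_inf s1 t1
    have k2 : ∀ a, gl lab (.inf s t) a → hi lab (.inf s t) = ⊤ := by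
      intro b hb
      have hs : ¬ spU lab s t := by
        rintro ⟨a, -, h⟩
        rw [s2 b hb.1, t2 b hb.2, inf_idem] at h
        exact H.np a (top_le_iff.1 h)
      rw [hi_inf_neg hs, s2 b hb.1, t2 b hb.2, inf_idem]
    refine ⟨k1, k2, fun a h => ?_, fun a b h h' => ?_⟩
    · rcases h with h | h | h
      · rw [lo_inf, s3 a h, bot_inf_eq]
      · rw [lo_inf, t3 a h, inf_bot_eq]
      · exact le_bot_iff.1 (h ▸ k1)
    · rcases h' with h' | h' | h'
      · exact s4 a b h.1 h'
      · exact t4 a b h.2 h'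
      · exact absurd (h'.symm.trans (k2 a h)) H.nt

/-- the order on terms -/
inductive Le (lab : Y → L) : Tm L Y → Tm L Y → Prop
  | cover {s t : Tm L Y} : hi lab s ≤ lo lab t → Le lab s t
  | gen (a : Y) : Le lab (.g a) (.g a)
  | supL {s s' t : Tm L Y} : Le lab s t → Le lab s' t → Le lab (.sup s s') t
  | infR {s t t' : Tm L Y} : Le lab s t → Le lab s t' → Le lab s (.inf t t')
  | infL1 {s s' t : Tm L Y} : Le lab s t → Le lab (.inf s s') t
  | infL2 {s s' t : Tm L Y} : Le lab s' t → Le lab (.inf s s') t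
  | supR1 {s t t' : Tm L Y} : Le lab s t → Le lab s (.sup t t')
  | supR2 {s t t' : Tm L Y} : Le lab s t' → Le lab s (.sup t t')

lemma Le.refl (t : Tm L Y) : Le lab t t := by
  induction t with
  | c w => exact .cover le_rfl
  | g b => exact .gen b
  | sup s t ihs iht => exact .supL (.supR1 ihs) (.supR2 iht)
  | inf s t ihs iht => exact .infR (.infL1 ihs) (.infL2 iht)

lemma Le.mono_lo (H : Lab lab) {s t : Tm L Y} (h : Le lab s t) :
    lo lab s ≤ lo lab t ∧ ∀ a, gl lab s a → gl lab t a := by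
  induction h with
  | @cover s t h =>
    exact ⟨(consist H s).1.trans h, fun a ha =>
      gl_of_top H t a (top_le_iff.1 ((consist H s).2.1 a ha ▸ h))⟩
  | gen a => exact ⟨le_rfl, fun _ h => h⟩
  | @supL s s' t _ _ ih ih' =>
    have k : lo lab (.sup s s') ≤ lo lab t := by
      by_cases hs : spL lab s s'
      · obtain ⟨a, h, h'⟩ := hs
        have : gl lab t a := h.elim (ih.2 a) (ih'.2 a)
        rw [top_of_gl H t a this (h'.trans (sup_le ih.1 ih'.1))]
        exact le_top
      · rw [lo_sup_neg hs]; exact sup_le ih.1 ih'.1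
    refine ⟨k, fun a h => ?_⟩
    rcases h with h | h | h
    · exact ih.2 a h
    · exact ih'.2 a h
    · exact gl_of_top H t a (top_le_iff.1 (h ▸ k))
  | infR _ _ ih ih' => exact ⟨le_inf ih.1 ih'.1, fun a h => ⟨ih.2 a h, ih'.2 a h⟩⟩
  | infL1 _ ih => exact ⟨inf_le_left.trans ih.1, fun a h => ih.2 a h.1⟩
  | infL2 _ ih => exact ⟨inf_le_right.trans ih.1, fun a h => ih.2 a h.2⟩
  | supR1 _ ih =>
    exact ⟨ih.1.trans (le_sup_left.trans (le_lo_sup _ _)), fun a h => Or.inl (ih.2 a h)⟩
  | supR2 _ ih =>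
    exact ⟨ih.1.trans (le_sup_right.trans (le_lo_sup _ _)), fun a h => Or.inr (Or.inl (ih.2 a h))⟩

lemma Le.mono_hi (H : Lab lab) {s t : Tm L Y} (h : Le lab s t) :
    hi lab s ≤ hi lab t ∧ ∀ a, gu lab t a → gu lab s a := by
  induction h with
  | @cover s t h =>
    exact ⟨h.trans (consist H t).1, fun a ha =>
      gu_of_bot H s a (le_bot_iff.1 ((consist H t).2.2.1 a ha ▸ h))⟩
  | gen a => exact ⟨le_rfl, fun _ h => h⟩
  | @infR s t t' _ _ ih ih' =>
    have k : hi lab s ≤ hi lab (.inf t t') := by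
      by_cases hs : spU lab t t'
      · obtain ⟨a, h, h'⟩ := hs
        have : gu lab s a := h.elim (ih.2 a) (ih'.2 a)
        rw [bot_of_gu H s a this ((le_inf ih.1 ih'.1).trans h')]
        exact bot_le
      · rw [hi_inf_neg hs]; exact le_inf ih.1 ih'.1
    refine ⟨k, fun a h => ?_⟩
    rcases h with h | h | h
    · exact ih.2 a h
    · exact ih'.2 a h
    · exact gu_of_bot H s a (le_bot_iff.1 (h ▸ k))
  | supL _ _ ih ih' => exact ⟨sup_le ih.1 ih'.1, fun a h => ⟨ih.2 a h, ih'.2 a h⟩⟩
  | supR1 _ ih => exact ⟨ih.1.trans le_sup_left, fun a h => ih.2 a h.1⟩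
  | supR2 _ ih => exact ⟨ih.1.trans le_sup_right, fun a h => ih.2 a h.2⟩
  | infL1 _ ih =>
    exact ⟨((hi_inf_le _ _).trans inf_le_left).trans ih.1, fun a h => Or.inl (ih.2 a h)⟩
  | infL2 _ ih =>
    exact ⟨((hi_inf_le _ _).trans inf_le_right).trans ih.1, fun a h => Or.inr (Or.inl (ih.2 a h))⟩

/-- size of a term -/
def size {X Y : Type} : Tm X Y → ℕ
  | .c _ => 1
  | .g _ => 1
  | .sup s t => size s + size t + 1
  | .inf s t => size s + size t + 1

lemma Le.trans_aux (H : Lab lab) (n : ℕ) : ∀ s t u : Tm L Y, size s + size t + size u ≤ n →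
    Le lab s t → Le lab t u → Le lab s u := by
  induction n with
  | zero =>
    intro s t u h
    cases s <;> simp [size] at h
  | succ n ih =>
    intro s t u hn h1 h2
    have A : ∀ {u : Tm L Y}, size s + size t + size u ≤ n → Le lab t u → Le lab s u :=
      fun h h' => ih _ _ _ h h1 h'
    cases h1 with
    | cover h => exact .cover (h.trans (h2.mono_lo H).1)
    | gen a => exact h2
    | supL h h' =>
      simp only [size] at hn
      exact .supL (ih _ _ _ (by omega) h h2) (ih _ _ _ (by omega) h' h2)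
    | infL1 h => simp only [size] at hn; exact .infL1 (ih _ _ _ (by omega) h h2)
    | infL2 h => simp only [size] at hn; exact .infL2 (ih _ _ _ (by omega) h h2)
    | infR h h' =>
      cases h2 with
      | cover k => exact .cover (((Le.infR h h').mono_hi H).1.trans k)
      | infR k k' =>
        exact .infR (A (by simp only [size] at hn ⊢; omega) k)
          (A (by simp only [size] at hn ⊢; omega) k')
      | infL1 k => exact ih _ _ _ (by simp only [size] at hn ⊢; omega) h k
      | infL2 k => exact ih _ _ _ (by simp only [size] at hn ⊢; omega) h' k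
      | supR1 k => exact .supR1 (A (by simp only [size] at hn ⊢; omega) k)
      | supR2 k => exact .supR2 (A (by simp only [size] at hn ⊢; omega) k)
    | supR1 h =>
      cases h2 with
      | cover k => exact .cover (((Le.supR1 h).mono_hi H).1.trans k)
      | infR k k' =>
        exact .infR (A (by simp only [size] at hn ⊢; omega) k)
          (A (by simp only [size] at hn ⊢; omega) k')
      | supL k k' => exact ih _ _ _ (by simp only [size] at hn ⊢; omega) h k
      | supR1 k => exact .supR1 (A (by simp only [size] at hn ⊢; omega) k)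
      | supR2 k => exact .supR2 (A (by simp only [size] at hn ⊢; omega) k)
    | supR2 h =>
      cases h2 with
      | cover k => exact .cover (((Le.supR2 h).mono_hi H).1.trans k)
      | infR k k' =>
        exact .infR (A (by simp only [size] at hn ⊢; omega) k)
          (A (by simp only [size] at hn ⊢; omega) k')
      | supL k k' => exact ih _ _ _ (by simp only [size] at hn ⊢; omega) h k'
      | supR1 k => exact .supR1 (A (by simp only [size] at hn ⊢; omega) k)
      | supR2 k => exact .supR2 (A (by simp only [size] at hn ⊢; omega) k)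

lemma Le.trans (H : Lab lab) {s t u : Tm L Y} (h : Le lab s t) (h' : Le lab t u) : Le lab s u :=
  Le.trans_aux H _ s t u le_rfl h h'

lemma c_le (H : Lab lab) {w : L} {t : Tm L Y} : Le lab (.c w) t ↔ w ≤ lo lab t :=
  ⟨fun h => (h.mono_lo H).1, fun h => .cover h⟩

lemma le_c (H : Lab lab) {w : L} {t : Tm L Y} : Le lab t (.c w) ↔ hi lab t ≤ w :=
  ⟨fun h => (h.mono_hi H).1, fun h => .cover h⟩

lemma g_le (H : Lab lab) {a : Y} {t : Tm L Y} : Le lab (.g a) t ↔ gl lab t a := by
  refine ⟨fun h => (h.mono_lo H).2 a rfl, fun h => ?_⟩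
  induction t with
  | c w => exact .cover (top_le_iff.2 h)
  | g b => cases h; exact .gen _
  | inf s t ihs iht => exact .infR (ihs h.1) (iht h.2)
  | sup s t ihs iht =>
    rcases h with h | h | h
    · exact .supR1 (ihs h)
    · exact .supR2 (iht h)
    · exact .cover (top_le_iff.2 h)

lemma le_g (H : Lab lab) {a : Y} {t : Tm L Y} : Le lab t (.g a) ↔ gu lab t a := by
  refine ⟨fun h => (h.mono_hi H).2 a rfl, fun h => ?_⟩
  induction t with
  | c w => exact .cover (le_bot_iff.2 h)
  | g b => cases h; exact .gen _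
  | sup s t ihs iht => exact .supL (ihs h.1) (iht h.2)
  | inf s t ihs iht =>
    rcases h with h | h | h
    · exact .infL1 (ihs h)
    · exact .infL2 (iht h)
    · exact .cover (le_bot_iff.2 h)

lemma Le.inf_mono {s s' : Tm L Y} (h : Le lab s s') (t : Tm L Y) :
    Le lab (.inf s t) (.inf s' t) := .infR (.infL1 h) (.infL2 (Le.refl t))

lemma Le.sup_mono {s s' : Tm L Y} (h : Le lab s s') (t : Tm L Y) :
    Le lab (.sup s t) (.sup s' t) := .supL (.supR1 h) (.supR2 (Le.refl t))

lemma spU_mono (H : Lab lab) {s s' t : Tm L Y} (h : Le lab s s') (hs : spU lab s' t) :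
    spU lab s t := by
  obtain ⟨a, h1, h2⟩ := hs
  exact ⟨a, h1.imp_left ((h.mono_hi H).2 a), (inf_le_inf_right _ (h.mono_hi H).1).trans h2⟩

lemma spL_mono (H : Lab lab) {s s' t : Tm L Y} (h : Le lab s' s) (hs : spL lab s' t) :
    spL lab s t := by
  obtain ⟨a, h1, h2⟩ := hs
  exact ⟨a, h1.imp_left ((h.mono_lo H).2 a), h2.trans (sup_le_sup_right (h.mono_lo H).1 _)⟩

lemma km0 (H : Lab lab) (hL : MC L) {I : Set (Tm L Y)} (hI : DirectedOn (Le lab) I)
    (hne : I.Nonempty) {t : Tm L Y} (ht : ∀ u, (∀ s ∈ I, Le lab s u) → Le lab t u) {w : L}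
    (hw : ∀ s ∈ I, hi lab (.inf s t) ≤ w) : hi lab t ≤ w := by
  have hP : hi lab t ≤ sSup (hi lab '' I) :=
    (le_c H).1 (ht _ fun s hs => (le_c H).2 (le_sSup ⟨s, hs, rfl⟩))
  have hd : DirectedOn (· ≤ ·) (hi lab '' I) := by
    rintro _ ⟨s, hs, rfl⟩ _ ⟨s', hs', rfl⟩
    obtain ⟨s'', h1, h2, h3⟩ := hI s hs s' hs'
    exact ⟨_, ⟨s'', h1, rfl⟩, (h2.mono_hi H).1, (h3.mono_hi H).1⟩
  have key : ∀ v, (∀ s ∈ I, hi lab s ⊓ hi lab t ≤ v) → hi lab t ≤ v := fun v hv =>
    (le_inf hP le_rfl).trans (hL _ hd (hne.image _) _ _ (by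
      rintro _ ⟨s, hs, rfl⟩; exact hv s hs))
  by_cases hsp : ∃ s0 ∈ I, ¬ spU lab s0 t
  · obtain ⟨s0, hs0, h0⟩ := hsp
    refine key w fun s hs => ?_
    obtain ⟨s', h1, h2, h3⟩ := hI s hs s0 hs0
    have := hw s' h1
    rw [hi_inf_neg fun h => h0 (spU_mono H h3 h)] at this
    exact (inf_le_inf_right _ (h2.mono_hi H).1).trans this
  · push Not at hsp
    by_cases h0 : hi lab t = ⊥
    · rw [h0]; exact bot_le
    have : ∃ s0 ∈ I, hi lab s0 ≠ ⊥ := by
      by_contra hcon
      push Not at hcon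
      exact h0 (le_bot_iff.1 (key ⊥ fun s hs => by rw [hcon s hs]; exact inf_le_left))
    obtain ⟨s0, hs0, h1⟩ := this
    obtain ⟨b, -, hb⟩ := pigeon hI hne ((gu_finite s0 h1).union (gu_finite t h0))
      (fun b s => (gu lab s b ∨ gu lab t b) ∧ hi lab s ⊓ hi lab t ≤ lab b)
      (fun b s s' h hq => ⟨hq.1.imp_left ((h.mono_hi H).2 b),
        (inf_le_inf_right _ (h.mono_hi H).1).trans hq.2⟩)
      (fun s hs => by
        obtain ⟨s', k1, k2, k3⟩ := hI s hs s0 hs0
        obtain ⟨b, k4, k5⟩ := hsp s' k1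
        exact ⟨b, k4.imp_left ((k3.mono_hi H).2 b), k4.imp_left ((k2.mono_hi H).2 b),
          (inf_le_inf_right _ (k2.mono_hi H).1).trans k5⟩)
    have hg : gu lab t b := by
      by_contra hcon
      exact hcon ((le_g H).1 (ht _ fun s hs => (le_g H).2 ((hb s hs).1.resolve_right hcon)))
    exact absurd (bot_of_gu H t b hg (key _ fun s hs => (hb s hs).2)) h0

lemma kj0 (H : Lab lab) (hL : JC L) {I : Set (Tm L Y)}
    (hI : DirectedOn (fun a b => Le lab b a) I)
    (hne : I.Nonempty) {t : Tm L Y} (ht : ∀ u, (∀ s ∈ I, Le lab u s) → Le lab u t) {w : L}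
    (hw : ∀ s ∈ I, w ≤ lo lab (.sup s t)) : w ≤ lo lab t := by
  have hP : sInf (lo lab '' I) ≤ lo lab t :=
    (c_le H).1 (ht _ fun s hs => (c_le H).2 (sInf_le ⟨s, hs, rfl⟩))
  have hd : DirectedOn (· ≥ ·) (lo lab '' I) := by
    rintro _ ⟨s, hs, rfl⟩ _ ⟨s', hs', rfl⟩
    obtain ⟨s'', h1, h2, h3⟩ := hI s hs s' hs'
    exact ⟨_, ⟨s'', h1, rfl⟩, (h2.mono_lo H).1, (h3.mono_lo H).1⟩
  have key : ∀ v, (∀ s ∈ I, v ≤ lo lab s ⊔ lo lab t) → v ≤ lo lab t := fun v hv =>
    (hL _ hd (hne.image _) _ _ (by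
      rintro _ ⟨s, hs, rfl⟩; exact hv s hs)).trans (sup_le hP le_rfl)
  by_cases hsp : ∃ s0 ∈ I, ¬ spL lab s0 t
  · obtain ⟨s0, hs0, h0⟩ := hsp
    refine key w fun s hs => ?_
    obtain ⟨s', h1, h2, h3⟩ := hI s hs s0 hs0
    have := hw s' h1
    rw [lo_sup_neg fun h => h0 (spL_mono H h3 h)] at this
    exact this.trans (sup_le_sup_right (h2.mono_lo H).1 _)
  · push Not at hsp
    by_cases h0 : lo lab t = ⊤
    · rw [h0]; exact le_top
    have : ∃ s0 ∈ I, lo lab s0 ≠ ⊤ := by
      by_contra hcon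
      push Not at hcon
      exact h0 (top_le_iff.1 (key ⊤ fun s hs => by rw [hcon s hs]; exact le_sup_left))
    obtain ⟨s0, hs0, h1⟩ := this
    obtain ⟨b, -, hb⟩ := pigeon hI hne ((gl_finite s0 h1).union (gl_finite t h0))
      (fun b s => (gl lab s b ∨ gl lab t b) ∧ lab b ≤ lo lab s ⊔ lo lab t)
      (fun b s s' h hq => ⟨hq.1.imp_left ((h.mono_lo H).2 b),
        hq.2.trans (sup_le_sup_right (h.mono_lo H).1 _)⟩)
      (fun s hs => by
        obtain ⟨s', k1, k2, k3⟩ := hI s hs s0 hs0
        obtain ⟨b, k4, k5⟩ := hsp s' k1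
        exact ⟨b, k4.imp_left ((k3.mono_lo H).2 b), k4.imp_left ((k2.mono_lo H).2 b),
          k5.trans (sup_le_sup_right (k2.mono_lo H).1 _)⟩)
    have hg : gl lab t b := by
      by_contra hcon
      exact hcon ((g_le H).1 (ht _ fun s hs => (g_le H).2 ((hb s hs).1.resolve_right hcon)))
    exact absurd (top_of_gl H t b hg (key _ fun s hs => (hb s hs).2)) h0

/-- meet continuity at the level of terms -/
lemma km (H : Lab lab) (hL : MC L) {I : Set (Tm L Y)} (hI : DirectedOn (Le lab) I)
    (hne : I.Nonempty) {t : Tm L Y} (ht : ∀ u, (∀ s ∈ I, Le lab s u) → Le lab t u) (v : Tm L Y)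
    (hv : ∀ s ∈ I, Le lab (.inf s t) v) : Le lab t v := by
  induction v with
  | c w => exact (le_c H).2 (km0 H hL hI hne ht fun s hs => (le_c H).1 (hv s hs))
  | g b =>
    by_cases h : gu lab t b
    · exact (le_g H).2 h
    rcases pigeon2 hI (Q := fun s => gu lab s b) (Q' := fun s => hi lab (.inf s t) ≤ ⊥)
      (fun s s' k => (k.mono_hi H).2 b)
      (fun s s' k => ((k.inf_mono t).mono_hi H).1.trans) (fun s hs => by
        rcases (le_g H).1 (hv s hs) with k | k | k
        · exact Or.inl k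
        · exact absurd k h
        · exact Or.inr k.le) with k | k
    · exact ht _ fun s hs => (le_g H).2 (k s hs)
    · exact .cover (km0 H hL hI hne ht k)
  | inf v v' ih ih' =>
    exact .infR (ih fun s hs => (hv s hs).trans H (.infL1 (Le.refl _)))
      (ih' fun s hs => (hv s hs).trans H (.infL2 (Le.refl _)))
  | sup v v' ih ih' =>
    by_contra hcon
    have m1 : ∀ s s', Le lab s s' → hi lab (.inf s' t) ≤ lo lab (.sup v v') →
        hi lab (.inf s t) ≤ lo lab (.sup v v') :=
      fun s s' k => ((k.inf_mono t).mono_hi H).1.trans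
    have m2 : ∀ s s', Le lab s s' → Le lab s' (.sup v v') → Le lab s (.sup v v') :=
      fun s s' k => k.trans H
    have m3 : ∀ w s s', Le lab s s' → Le lab (.inf s' t) w → Le lab (.inf s t) w :=
      fun w s s' k => (k.inf_mono t).trans H
    rcases pigeon2 hI
      (Q := fun s => hi lab (.inf s t) ≤ lo lab (.sup v v') ∨ Le lab s (.sup v v'))
      (Q' := fun s => Le lab (.inf s t) v ∨ Le lab (.inf s t) v')
      (fun s s' k h => h.imp (m1 s s' k) (m2 s s' k))
      (fun s s' k h => h.imp (m3 _ s s' k) (m3 _ s s' k)) (fun s hs => by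
        cases hv s hs with
        | cover k => exact Or.inl (Or.inl k)
        | infL1 k => exact Or.inl (Or.inr k)
        | infL2 k => exact absurd k hcon
        | supR1 k => exact Or.inr (Or.inl k)
        | supR2 k => exact Or.inr (Or.inr k)) with k | k
    · rcases pigeon2 hI m1 m2 k with k | k
      · exact hcon ((c_le H).2 le_rfl |> ((le_c H).2 (km0 H hL hI hne ht k)).trans H)
      · exact hcon (ht _ k)
    · rcases pigeon2 hI (m3 v) (m3 v') k with k | k
      · exact hcon (.supR1 (ih k))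
      · exact hcon (.supR2 (ih' k))

/-- join continuity at the level of terms -/
lemma kj (H : Lab lab) (hL : JC L) {I : Set (Tm L Y)} (hI : DirectedOn (fun a b => Le lab b a) I)
    (hne : I.Nonempty) {t : Tm L Y} (ht : ∀ u, (∀ s ∈ I, Le lab u s) → Le lab u t) (v : Tm L Y)
    (hv : ∀ s ∈ I, Le lab v (.sup s t)) : Le lab v t := by
  induction v with
  | c w => exact (c_le H).2 (kj0 H hL hI hne ht fun s hs => (c_le H).1 (hv s hs))
  | g b =>
    by_cases h : gl lab t b
    · exact (g_le H).2 h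
    rcases pigeon2 hI (Q := fun s => gl lab s b) (Q' := fun s => ⊤ ≤ lo lab (.sup s t))
      (fun s s' k => (k.mono_lo H).2 b)
      (fun s s' k h => h.trans ((k.sup_mono t).mono_lo H).1) (fun s hs => by
        rcases (g_le H).1 (hv s hs) with k | k | k
        · exact Or.inl k
        · exact absurd k h
        · exact Or.inr k.ge) with k | k
    · exact ht _ fun s hs => (g_le H).2 (k s hs)
    · exact .cover (kj0 H hL hI hne ht k)
  | sup v v' ih ih' =>
    exact .supL (ih fun s hs => (Le.supR1 (Le.refl _)).trans H (hv s hs))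
      (ih' fun s hs => (Le.supR2 (Le.refl _)).trans H (hv s hs))
  | inf v v' ih ih' =>
    by_contra hcon
    have m1 : ∀ s s', Le lab s' s → hi lab (.inf v v') ≤ lo lab (.sup s' t) →
        hi lab (.inf v v') ≤ lo lab (.sup s t) :=
      fun s s' k h => h.trans ((k.sup_mono t).mono_lo H).1
    have m2 : ∀ s s', Le lab s' s → Le lab (.inf v v') s' → Le lab (.inf v v') s :=
      fun s s' k h => h.trans H k
    have m3 : ∀ w s s', Le lab s' s → Le lab w (.sup s' t) → Le lab w (.sup s t) :=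
      fun w s s' k h => h.trans H (k.sup_mono t)
    rcases pigeon2 hI
      (Q := fun s => hi lab (.inf v v') ≤ lo lab (.sup s t) ∨ Le lab (.inf v v') s)
      (Q' := fun s => Le lab v (.sup s t) ∨ Le lab v' (.sup s t))
      (fun s s' k h => h.imp (m1 s s' k) (m2 s s' k))
      (fun s s' k h => h.imp (m3 _ s s' k) (m3 _ s s' k)) (fun s hs => by
        cases hv s hs with
        | cover k => exact Or.inl (Or.inl k)
        | supR1 k => exact Or.inl (Or.inr k)
        | supR2 k => exact absurd k hcon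
        | infL1 k => exact Or.inr (Or.inl k)
        | infL2 k => exact Or.inr (Or.inr k)) with k | k
    · rcases pigeon2 hI m1 m2 k with k | k
      · exact hcon (.cover (kj0 H hL hI hne ht k))
      · exact hcon (ht _ k)
    · rcases pigeon2 hI (m3 v) (m3 v') k with k | k
      · exact hcon (.infL1 (ih k))
      · exact hcon (.infL2 (ih' k))

/-- left subterm -/
def lf {X Y : Type} : Tm X Y → Tm X Y
  | .sup s _ => s
  | .inf s _ => s
  | t => t

/-- right subterm -/
def rt {X Y : Type} : Tm X Y → Tm X Y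
  | .sup _ s => s
  | .inf _ s => s
  | t => t

/-- top constructor -/
def kind {X Y : Type} : Tm X Y → ℕ
  | .c _ => 0
  | .g _ => 1
  | .sup _ _ => 2
  | .inf _ _ => 3

/-- derivations of bounded depth -/
def LeN (lab : Y → L) : ℕ → Tm L Y → Tm L Y → Prop
  | 0 => fun _ _ => False
  | n + 1 => fun s t => hi lab s ≤ lo lab t ∨ (kind s = 1 ∧ s = t) ∨
      (kind s = 2 ∧ LeN lab n (lf s) t ∧ LeN lab n (rt s) t) ∨
      (kind t = 3 ∧ LeN lab n s (lf t) ∧ LeN lab n s (rt t)) ∨
      (kind s = 3 ∧ (LeN lab n (lf s) t ∨ LeN lab n (rt s) t)) ∨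
      (kind t = 2 ∧ (LeN lab n s (lf t) ∨ LeN lab n s (rt t)))

lemma le_of_leN (n : ℕ) : ∀ s t : Tm L Y, LeN lab n s t → Le lab s t := by
  induction n with
  | zero => intro s t h; exact h.elim
  | succ n ih =>
    intro s t h
    rcases h with h | ⟨-, h⟩ | ⟨k, h, h'⟩ | ⟨k, h, h'⟩ | ⟨k, h⟩ | ⟨k, h⟩
    · exact .cover h
    · rw [h]; exact Le.refl t
    · cases s <;> simp [kind] at k
      exact .supL (ih _ _ h) (ih _ _ h')
    · cases t <;> simp [kind] at k
      exact .infR (ih _ _ h) (ih _ _ h')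
    · cases s <;> simp [kind] at k
      exact h.elim (fun h => .infL1 (ih _ _ h)) fun h => .infL2 (ih _ _ h)
    · cases t <;> simp [kind] at k
      exact h.elim (fun h => .supR1 (ih _ _ h)) fun h => .supR2 (ih _ _ h)

lemma size_pos {X Y : Type} (t : Tm X Y) : 0 < size t := by
  cases t <;> simp [size]

lemma leN_of_le {s t : Tm L Y} (h : Le lab s t) : ∀ n, size s + size t ≤ n → LeN lab n s t := by
  induction h with
  | @cover s t h =>
    intro n hn
    cases n with
    | zero => have := size_pos s; omega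
    | succ n => exact Or.inl h
  | gen a =>
    intro n hn
    cases n with
    | zero => simp [size] at hn
    | succ n => exact Or.inr (Or.inl ⟨rfl, rfl⟩)
  | supL _ _ ih ih' =>
    intro n hn
    simp only [size] at hn
    cases n with
    | zero => omega
    | succ n => exact Or.inr (Or.inr (Or.inl ⟨rfl, ih n (by omega), ih' n (by omega)⟩))
  | infR _ _ ih ih' =>
    intro n hn
    simp only [size] at hn
    cases n with
    | zero => omega
    | succ n => exact Or.inr (Or.inr (Or.inr (Or.inl ⟨rfl, ih n (by omega), ih' n (by omega)⟩)))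
  | infL1 _ ih =>
    intro n hn
    simp only [size] at hn
    cases n with
    | zero => omega
    | succ n => exact Or.inr (Or.inr (Or.inr (Or.inr (Or.inl ⟨rfl, Or.inl (ih n (by omega))⟩))))
  | infL2 _ ih =>
    intro n hn
    simp only [size] at hn
    cases n with
    | zero => omega
    | succ n => exact Or.inr (Or.inr (Or.inr (Or.inr (Or.inl ⟨rfl, Or.inr (ih n (by omega))⟩))))
  | supR1 _ ih =>
    intro n hn
    simp only [size] at hn
    cases n with
    | zero => omega
    | succ n => exact Or.inr (Or.inr (Or.inr (Or.inr (Or.inr ⟨rfl, Or.inl (ih n (by omega))⟩))))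
  | supR2 _ ih =>
    intro n hn
    simp only [size] at hn
    cases n with
    | zero => omega
    | succ n => exact Or.inr (Or.inr (Or.inr (Or.inr (Or.inr ⟨rfl, Or.inr (ih n (by omega))⟩))))

lemma st_leN (hL : ST (fun a b : L => a ≤ b)) (n : ℕ) : ST (LeN lab n) := by
  induction n with
  | zero => exact ST.left (fun _ => False)
  | succ n ih =>
    exact (hL.pull (hi lab) (lo lab)).or (((ST.left _).and ST.eq).or
      (((ST.left _).and ((ih.pull lf id).and (ih.pull rt id))).or
      (((ST.right _).and ((ih.pull id lf).and (ih.pull id rt))).or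
      (((ST.left _).and ((ih.pull lf id).or (ih.pull rt id))).or
      ((ST.right _).and ((ih.pull id lf).or (ih.pull id rt)))))))

lemma st_le (hL : ST (fun a b : L => a ≤ b)) : ST (Le lab) :=
  ST.transfer (ι := ℕ × ℕ) (A := fun _ => Tm L Y) (B := fun _ => Tm L Y)
    (ρ := fun i => LeN lab (i.1 + i.2)) (fun i => st_leN hL _)
    (fun i a x => a = x ∧ size x = i.1) (fun i b y => b = y ∧ size y = i.2)
    (fun x y h => ⟨(size x, size y), x, y, ⟨rfl, rfl⟩, ⟨rfl, rfl⟩, fun k => h (le_of_leN _ _ _ k)⟩)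
    (by
      rintro i a b x y ⟨rfl, h1⟩ ⟨rfl, h2⟩ h
      exact leN_of_le h _ (by omega))

end Tm

end Pool.Agent.H665Z.UC
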